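import Mathlib

/-!
# Virtually free groups: common definitions
-/

set_option autoImplicit false

namespace Pool.Agent.Helper485_VF

/-- the edge boundary of a set of vertices, as ordered pairs pointing out of the set -/
def bd {V : Type} (Γ : SimpleGraph V) (C : Set V) : Set (V × V) :=
  {e | Γ.Adj e.1 e.2 ∧ e.1 ∈ C ∧ e.2 ∉ C}

/-- connected sets of vertices: a nonempty part without edges to the rest is everything -/
def Conn {V : Type} (Γ : SimpleGraph V) (X : Set V) : Prop :=
  ∀ Y : Set V, Y ⊆ X → Y.Nonempty → (∀ u ∈ Y, ∀ v ∈ X, Γ.Adj u v → v ∈ Y) → Y = X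

/-- both sides connected, at most `n` boundary edges -/
def Cut {V : Type} (Γ : SimpleGraph V) (n : ℕ) (X : Set V) : Prop :=
  X.Nonempty ∧ Xᶜ.Nonempty ∧ Conn Γ X ∧ Conn Γ Xᶜ ∧ (bd Γ X).Finite ∧ (bd Γ X).ncard ≤ n

/-- all four corners are nonempty -/
def Crosses {V : Type} (X C : Set V) : Prop :=
  (X ∩ C).Nonempty ∧ (X ∩ Cᶜ).Nonempty ∧ (Xᶜ ∩ C).Nonempty ∧ (Xᶜ ∩ Cᶜ).Nonempty

/-- a nested family of sets, closed under complements, finitely many separating any two points -/
structure NFam {V : Type} (E : Set (Set V)) : Prop where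
  ne : ∀ C ∈ E, C.Nonempty
  compl : ∀ C ∈ E, Cᶜ ∈ E
  nest : ∀ C ∈ E, ∀ D ∈ E, C ⊆ D ∨ D ⊆ C ∨ Disjoint C D ∨ Cᶜ ⊆ D
  fin : ∀ x y : V, {C | C ∈ E ∧ x ∈ C ∧ y ∉ C}.Finite

/-- half-spaces of the Cayley tree of a free group: `u⁻¹ * w` starts with the positive letter `l` -/
def Hs {ι : Type} (u : FreeGroup ι) (l : ι) : Set (FreeGroup ι) :=
  {w | ∃ L : List (ι × Bool), FreeGroup.IsReduced ((l, true) :: L) ∧
    u⁻¹ * w = FreeGroup.mk ((l, true) :: L)}

/-- the action on a free group by permutations of the basis -/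
def pact (Q X : Type) [Group Q] [MulAction Q X] : Q →* MulAut (FreeGroup X) where
  toFun q := FreeGroup.freeGroupCongr (MulAction.toPerm q)
  map_one' := by
    apply MulEquiv.toMonoidHom_injective
    apply FreeGroup.ext_hom
    intro a
    simp
  map_mul' a b := by
    apply MulEquiv.toMonoidHom_injective
    apply FreeGroup.ext_hom
    intro c
    simp [mul_smul]

theorem pact_of {Q X : Type} [Group Q] [MulAction Q X] (q : Q) (x : X) :
    pact Q X q (FreeGroup.of x) = FreeGroup.of (q • x) := by
  simp [pact]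

/-- the group `F_X ⋊ Q`, `Q` permuting the basis `X` -/
abbrev WW (Q X : Type) [Group Q] [MulAction Q X] : Type :=
  SemidirectProduct (FreeGroup X) Q (pact Q X)

/-- the Cayley tree of a free group -/
def cay (X : Type) : SimpleGraph (FreeGroup X) where
  Adj u v := ∃ x : X, v = u * FreeGroup.of x ∨ u = v * FreeGroup.of x
  symm := ⟨by
    rintro u v ⟨x, h⟩
    exact ⟨x, h.symm⟩⟩
  loopless := ⟨by
    rintro u ⟨x, h⟩
    have h1 : u = u * FreeGroup.of x := by rcases h with h | h <;> exact h
    exact FreeGroup.of_ne_one x (left_eq_mul.1 h1)⟩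

/-- `F_X ⋊ Q` acts on the vertices of the Cayley tree of `F_X` -/
@[reducible] def wact (Q X : Type) [Group Q] [MulAction Q X] : MulAction (WW Q X) (FreeGroup X) where
  smul w u := w.left * pact Q X w.right u
  one_smul u := by
    change (1 : WW Q X).left * pact Q X (1 : WW Q X).right u = u
    simp
  mul_smul a b u := by
    change (a * b).left * pact Q X (a * b).right u =
      a.left * pact Q X a.right (b.left * pact Q X b.right u)
    simp [mul_assoc]

/-- `A` is a free factor of the free group `C` (both subgroups of `G`): `C` has a free basis a part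
of which generates `A` -/
def FFac {G : Type} [Group G] (A C : Subgroup G) : Prop :=
  ∃ (ι : Type) (b : ι → G) (S : Set ι), Function.Injective (FreeGroup.lift b) ∧
    Subgroup.closure (Set.range b) = C ∧ Subgroup.closure (b '' S) = A

/-- graph of a homomorphism over `Q` defined on a subgroup of `G` -/
def Fun {G Q X : Type} [Group G] [Group Q] [MulAction Q X] (π : G →* Q)
    (R : Subgroup (G × WW Q X)) : Prop :=
  (∀ w : WW Q X, ((1 : G), w) ∈ R → w = 1) ∧ ∀ p ∈ R, p.2.right = π p.1

/-- domain of definition -/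
def dom {G W : Type} [Group G] [Group W] (R : Subgroup (G × W)) : Subgroup G :=
  R.map (MonoidHom.fst G W)

end Pool.Agent.Helper485_VF
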