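import Mathlib
import Pool.Agent.Helper485_VF.Defs

set_option autoImplicit false

namespace Pool.Agent.Helper485_VF

/-- A graph with a height function such that neighbours have different heights and each vertex has
at most one lower neighbour is acyclic. -/
theorem VF9a_acyclic_of_height {V : Type} (G : SimpleGraph V) (h : V → ℕ)
    (h1 : ∀ u v, G.Adj u v → h u ≠ h v)
    (h2 : ∀ v u w, G.Adj v u → G.Adj v w → h u < h v → h w < h v → u = w) : G.IsAcyclic := by
  classical
  intro v c hc
  have hne : c.support.toFinset.Nonempty := ⟨v, by simp⟩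
  obtain ⟨m, hm, hmax⟩ := Finset.exists_max_image c.support.toFinset h hne
  have hm' : m ∈ c.support := by simpa using hm
  set c' := c.rotate m hm' with hc'
  have hcyc : c'.IsCycle := hc.rotate hm'
  have hsup : ∀ x, x ∈ c'.support → h x ≤ h m := by
    intro x hx
    refine hmax x ?_
    rw [List.mem_toFinset]
    by_cases hxm : x = m
    · subst hxm; exact hm'
    · have h5 : x ∈ c'.support.tail := by
        rw [← SimpleGraph.Walk.cons_tail_support] at hx
        rcases List.mem_cons.mp hx with h6 | h6
        · exact absurd h6 hxm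
        · exact h6
      have h6 := (c.support_rotate m hm').mem_iff.mp h5
      exact List.mem_of_mem_tail h6
  have hnn := hcyc.not_nil
  have a1 : G.Adj m c'.snd := c'.adj_snd hnn
  have a2 : G.Adj m c'.penultimate := (c'.adj_penultimate hnn).symm
  have m1 : c'.snd ∈ c'.support := List.mem_of_mem_tail (c'.snd_mem_tail_support hnn)
  have m2 : c'.penultimate ∈ c'.support :=
    List.mem_of_mem_dropLast (c'.penultimate_mem_dropLast_support hnn)
  have l1 := lt_of_le_of_ne (hsup _ m1) (h1 _ _ a1).symm
  have l2 := lt_of_le_of_ne (hsup _ m2) (h1 _ _ a2).symm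
  exact hcyc.snd_ne_penultimate (h2 m _ _ a1 a2 l1 l2)

open Classical in
theorem VF9a_letter {X : Type} (x : X × Bool) (v : FreeGroup X) :
    (FreeGroup.mk [x] * v).toWord = x :: v.toWord ∨
      v.toWord = (x.1, !x.2) :: (FreeGroup.mk [x] * v).toWord := by
  have e : (FreeGroup.mk [x] * v).toWord = FreeGroup.reduce (x :: v.toWord) := by
    conv_lhs => rw [← FreeGroup.mk_toWord (x := v)]
    rw [FreeGroup.mul_mk, FreeGroup.toWord_mk]
    rfl
  rw [e, FreeGroup.reduce.cons, FreeGroup.reduce_toWord]
  generalize v.toWord = W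
  cases W with
  | nil => exact Or.inl rfl
  | cons y tl =>
    by_cases h : x.1 = y.1 ∧ x.2 = !y.2
    · right
      simp only [h, and_self, if_true]
      congr 1
      ext <;> simp
    · left
      simp only [h, if_false]

open Classical in
/-- the height -/
noncomputable def VF9a_ht {X : Type} (u : FreeGroup X) : ℕ := (u⁻¹).toWord.length

theorem VF9a_adj {X : Type} {u v : FreeGroup X} (h : (cay X).Adj u v) :
    ∃ x : X × Bool, v⁻¹ = FreeGroup.mk [x] * u⁻¹ := by
  obtain ⟨x, h | h⟩ := h
  · refine ⟨(x, false), ?_⟩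
    rw [h, mul_inv_rev]
    rfl
  · refine ⟨(x, true), ?_⟩
    rw [h, mul_inv_rev]
    change v⁻¹ = FreeGroup.of x * ((FreeGroup.of x)⁻¹ * v⁻¹)
    rw [mul_inv_cancel_left]

theorem VF9a_reach {X : Type} (w : FreeGroup X) : ∀ v : FreeGroup X, (cay X).Reachable v (v * w) := by
  refine FreeGroup.induction_on (C := fun w => ∀ v : FreeGroup X, (cay X).Reachable v (v * w))
    w ?_ ?_ ?_ ?_
  · intro v; rw [mul_one]
  · intro i v; exact SimpleGraph.Adj.reachable ⟨i, Or.inl rfl⟩
  · intro i _ v
    refine SimpleGraph.Adj.reachable ⟨i, Or.inr ?_⟩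
    rw [inv_mul_cancel_right]
  · intro a b ha hb v
    rw [← mul_assoc]
    exact (ha v).trans (hb (v * a))

open Classical in
theorem VF9a_acyclic (X : Type) : (cay X).IsAcyclic := by
  refine VF9a_acyclic_of_height (cay X) VF9a_ht ?_ ?_
  · intro u v h
    obtain ⟨x, hx⟩ := VF9a_adj h
    unfold VF9a_ht
    rw [hx]
    rcases VF9a_letter x u⁻¹ with e | e
    · rw [e, List.length_cons]; omega
    · intro e2
      have := congrArg List.length e
      rw [List.length_cons] at this
      omega
  · intro v u w h1 h2 h3 h4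
    have key : ∀ u : FreeGroup X, (cay X).Adj v u → VF9a_ht u < VF9a_ht v →
        (u⁻¹).toWord = (v⁻¹).toWord.tail := by
      intro u hu hlt
      obtain ⟨x, hx⟩ := VF9a_adj hu
      unfold VF9a_ht at hlt
      rcases VF9a_letter x v⁻¹ with e | e
      · rw [hx, e, List.length_cons] at hlt; omega
      · rw [hx]
        conv_rhs => rw [e]
        rfl
    have e := (key u h1 h3).trans (key w h2 h4).symm
    exact inv_injective (FreeGroup.toWord_injective e)

theorem cay_tree (X : Type) : (cay X).IsTree := by
  refine ⟨?_, VF9a_acyclic X⟩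
  have : Nonempty (FreeGroup X) := ⟨1⟩
  refine ⟨fun u v => ?_⟩
  have := VF9a_reach (u⁻¹ * v) u
  rwa [mul_inv_cancel_left] at this

end Pool.Agent.Helper485_VF
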