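import Mathlib
import Pool.Agent.Helper485_VF.Defs

set_option autoImplicit false

namespace Pool.Agent.Helper485_VF


/-! ### Schreier's theorem with a transversal adapted to a free factor -/

namespace VF11

open FreeGroup

variable {ι : Type} (L : Subgroup (FreeGroup ι)) (S : Set ι)

/-- the coset space -/
abbrev Om : Type := FreeGroup ι ⧸ L

/-- base point -/
abbrev bp : Om L := ((1 : FreeGroup ι) : FreeGroup ι ⧸ L)

/-- the free factor -/
def A0 : Subgroup (FreeGroup ι) := Subgroup.closure (FreeGroup.of '' S)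

/-- the orbit of the base point under the free factor -/
def OmA : Set (Om L) := {w | ∃ g ∈ A0 S, g • bp L = w}

open Classical in
/-- the cost of a word: (number of letters outside the free factor, length) -/
noncomputable def cost (l : List (ι × Bool)) : ℕ ×ₗ ℕ :=
  toLex ((l.filter (fun x => x.1 ∉ S)).length, l.length)

lemma cost_cons_lt (x : ι × Bool) (t : List (ι × Bool)) : cost S t < cost S (x :: t) := by
  classical
  unfold cost
  rw [Prod.Lex.toLex_lt_toLex]
  by_cases hx : x.1 ∈ S
  · right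
    simp [hx]
  · left
    simp [hx]

lemma mem_A0_of_word : ∀ l : List (ι × Bool), (∀ x ∈ l, x.1 ∈ S) →
    (mk l : FreeGroup ι) ∈ A0 S := by
  intro l
  induction l with
  | nil => intro _; exact one_mem _
  | cons x t ih =>
    intro h
    have h1 : (mk (x :: t) : FreeGroup ι) = mk [x] * mk t := by
      rw [FreeGroup.mul_mk]; rfl
    rw [h1]
    refine mul_mem ?_ (ih fun y hy => h y (List.mem_cons_of_mem _ hy))
    have hx : (FreeGroup.of x.1 : FreeGroup ι) ∈ A0 S :=
      Subgroup.subset_closure ⟨x.1, h x List.mem_cons_self, rfl⟩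
    obtain ⟨i, b⟩ := x
    cases b with
    | true => exact hx
    | false =>
      have e : (mk [(i, false)] : FreeGroup ι) = (FreeGroup.of i)⁻¹ := rfl
      rw [e]
      exact inv_mem hx

lemma word_of_mem_A0 {g : FreeGroup ι} (hg : g ∈ A0 S) :
    ∃ l : List (ι × Bool), (∀ x ∈ l, x.1 ∈ S) ∧ (mk l : FreeGroup ι) = g := by
  unfold A0 at hg
  induction hg using Subgroup.closure_induction with
  | mem x hx =>
    obtain ⟨i, hi, rfl⟩ := hx
    refine ⟨[(i, true)], ?_, rfl⟩
    intro y hy
    rw [List.mem_singleton] at hy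
    rw [hy]
    exact hi
  | one => exact ⟨[], fun x hx => absurd hx List.not_mem_nil, rfl⟩
  | mul a b _ _ ha hb =>
    obtain ⟨l, hl, rfl⟩ := ha
    obtain ⟨l', hl', rfl⟩ := hb
    refine ⟨l ++ l', ?_, by rw [FreeGroup.mul_mk]⟩
    intro x hx
    rcases List.mem_append.1 hx with h | h
    · exact hl x h
    · exact hl' x h
  | inv a _ ha =>
    obtain ⟨l, hl, rfl⟩ := ha
    refine ⟨FreeGroup.invRev l, ?_, by rw [FreeGroup.inv_mk]⟩
    intro x hx
    unfold FreeGroup.invRev at hx
    rw [List.mem_reverse] at hx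
    obtain ⟨y, hy, rfl⟩ := List.mem_map.1 hx
    exact hl y hy

lemma smul_bp (g : FreeGroup ι) : g • bp L = ((g : FreeGroup ι) : Om L) := by
  change ((g * 1 : FreeGroup ι) : Om L) = _
  rw [mul_one]

/-- minimal cost of a word for a coset -/
noncomputable def ht (w : Om L) : ℕ ×ₗ ℕ :=
  (wellFounded_lt (α := ℕ ×ₗ ℕ)).min
    {c | ∃ l : List (ι × Bool), ((mk l : FreeGroup ι) : Om L) = w ∧ cost S l = c} (by
      obtain ⟨g, rfl⟩ := QuotientGroup.mk_surjective w
      obtain ⟨l, rfl⟩ := Quot.exists_rep g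
      exact ⟨cost S l, l, rfl, rfl⟩)

lemma ht_spec (w : Om L) :
    ∃ l : List (ι × Bool), ((mk l : FreeGroup ι) : Om L) = w ∧ cost S l = ht L S w :=
  WellFounded.min_mem (wellFounded_lt (α := ℕ ×ₗ ℕ))
    {c | ∃ l : List (ι × Bool), ((mk l : FreeGroup ι) : Om L) = w ∧ cost S l = c} _

lemma ht_le (l : List (ι × Bool)) : ht L S ((mk l : FreeGroup ι) : Om L) ≤ cost S l := by
  have := WellFounded.not_lt_min (wellFounded_lt (α := ℕ ×ₗ ℕ))
    {c | ∃ l' : List (ι × Bool), ((mk l' : FreeGroup ι) : Om L) = ((mk l : FreeGroup ι) : Om L) ∧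
      cost S l' = c} (x := cost S l) ⟨l, rfl, rfl⟩
  exact not_lt.1 this

lemma letters_of_OmA {w : Om L} (hw : w ∈ OmA L S) {l : List (ι × Bool)}
    (hl : cost S l = ht L S w) : ∀ x ∈ l, x.1 ∈ S := by
  classical
  obtain ⟨g, hg, hgw⟩ := hw
  obtain ⟨l', hl', rfl⟩ := word_of_mem_A0 S hg
  rw [smul_bp] at hgw
  have h1 := ht_le L S l'
  rw [hgw, ← hl] at h1
  have h2 : (l'.filter (fun x => x.1 ∉ S)).length = 0 := by
    rw [List.length_eq_zero_iff, List.filter_eq_nil_iff]
    intro x hx
    simp [hl' x hx]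
  unfold cost at h1
  rw [Prod.Lex.toLex_le_toLex] at h1
  have h3 : (l.filter (fun x => x.1 ∉ S)).length = 0 := by
    rcases h1 with h1 | h1
    · simp only at h1
      rw [h2] at h1
      exact absurd h1 (Nat.not_lt_zero _)
    · have := h1.1
      simp only at this
      rw [this, h2]
  rw [List.length_eq_zero_iff, List.filter_eq_nil_iff] at h3
  intro x hx
  have := h3 x hx
  simpa using this

lemma exists_parent (w : Om L) (hw : w ≠ bp L) :
    ∃ x : ι × Bool, ht L S ((mk [x] : FreeGroup ι)⁻¹ • w) < ht L S w ∧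
      (w ∈ OmA L S → x.1 ∈ S ∧ (mk [x] : FreeGroup ι)⁻¹ • w ∈ OmA L S) := by
  obtain ⟨l, hl, hlen⟩ := ht_spec L S w
  cases l with
  | nil => exact absurd hl.symm hw
  | cons x t =>
    have h1 : (mk (x :: t) : FreeGroup ι) = mk [x] * mk t := by
      rw [FreeGroup.mul_mk]; rfl
    have h2 : (mk [x] : FreeGroup ι)⁻¹ • w = ((mk t : FreeGroup ι) : Om L) := by
      rw [← hl, h1]
      change (((mk [x] : FreeGroup ι)⁻¹ * (mk [x] * mk t) : FreeGroup ι) : Om L) = _
      rw [inv_mul_cancel_left]
    refine ⟨x, ?_, fun hA => ?_⟩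
    · rw [h2, ← hlen]
      exact lt_of_le_of_lt (ht_le L S t) (cost_cons_lt S x t)
    · have h3 := letters_of_OmA L S hA hlen
      refine ⟨h3 x List.mem_cons_self, ?_⟩
      rw [h2]
      exact ⟨mk t, mem_A0_of_word S t fun y hy => h3 y (List.mem_cons_of_mem _ hy), smul_bp L _⟩

lemma wf_ht : WellFounded (InvImage (· < ·) (ht L S)) :=
  InvImage.wf (ht L S) wellFounded_lt

open Classical in
/-- Schreier transversal -/
noncomputable def rep : Om L → FreeGroup ι :=
  WellFounded.fix (wf_ht L S) (fun w ih =>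
    if h : w ≠ bp L then
      mk [(exists_parent L S w h).choose] *
        ih ((mk [(exists_parent L S w h).choose] : FreeGroup ι)⁻¹ • w)
          (exists_parent L S w h).choose_spec.1
    else 1)

lemma rep_bp : rep L S (bp L) = 1 := by
  unfold rep
  rw [WellFounded.fix_eq]
  simp

lemma rep_step (w : Om L) (h : w ≠ bp L) :
    ∃ x : ι × Bool, ht L S ((mk [x] : FreeGroup ι)⁻¹ • w) < ht L S w ∧
      (w ∈ OmA L S → x.1 ∈ S ∧ (mk [x] : FreeGroup ι)⁻¹ • w ∈ OmA L S) ∧
      rep L S w = mk [x] * rep L S ((mk [x] : FreeGroup ι)⁻¹ • w) := by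
  refine ⟨(exists_parent L S w h).choose, (exists_parent L S w h).choose_spec.1,
    (exists_parent L S w h).choose_spec.2, ?_⟩
  conv_lhs => unfold rep
  rw [WellFounded.fix_eq]
  rw [dif_pos h]
  rfl

lemma rep_spec (w : Om L) : rep L S w • bp L = w := by
  induction w using (wf_ht L S).induction with
  | _ w ih =>
    by_cases h : w = bp L
    · subst h; rw [rep_bp, one_smul]
    · obtain ⟨x, hx, -, hr⟩ := rep_step L S w h
      rw [hr, mul_smul, ih _ hx, smul_inv_smul]

lemma rep_mem_A0 (w : Om L) : w ∈ OmA L S → rep L S w ∈ A0 S := by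
  induction w using (wf_ht L S).induction with
  | _ w ih =>
    intro hA
    by_cases h : w = bp L
    · subst h; rw [rep_bp]; exact one_mem _
    · obtain ⟨x, hx, hxA, hr⟩ := rep_step L S w h
      obtain ⟨hxS, hpA⟩ := hxA hA
      rw [hr]
      refine mul_mem (mem_A0_of_word S [x] fun y hy => ?_) (ih _ hx hpA)
      rw [List.mem_singleton] at hy
      rw [hy]
      exact hxS

section cocycle

variable {G : Type*} [Group G] (f : ι × Om L → G)

/-- one letter acting on cosets times the group -/
def act (i : ι) : Equiv.Perm (Om L × G) where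
  toFun t := ((of i : FreeGroup ι) • t.1, f (i, t.1) * t.2)
  invFun t := ((of i : FreeGroup ι)⁻¹ • t.1, (f (i, (of i : FreeGroup ι)⁻¹ • t.1))⁻¹ * t.2)
  left_inv t := by simp
  right_inv t := by simp

/-- the induced homomorphism -/
def Phi : FreeGroup ι →* Equiv.Perm (Om L × G) := FreeGroup.lift (act L f)

/-- the cocycle -/
def co (g : FreeGroup ι) (w : Om L) : G := (Phi L f g (w, 1)).2

lemma Phi_apply (g : FreeGroup ι) : ∀ (w : Om L) (x : G),
    Phi L f g (w, x) = (g • w, co L f g w * x) := by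
  induction g using FreeGroup.induction_on with
  | C1 => intro w x; simp [co]
  | of i => intro w x; simp [co, Phi, act]
  | inv_of i ih =>
    intro w x
    have h1 : Phi L f (of i)⁻¹ = (act L f i)⁻¹ := by simp [Phi]
    have h2 : ∀ t, (act L f i)⁻¹ t = ((of i : FreeGroup ι)⁻¹ • t.1,
      (f (i, (of i : FreeGroup ι)⁻¹ • t.1))⁻¹ * t.2) := fun t => rfl
    unfold co
    rw [h1, h2, h2]
    simp
  | mul a b iha ihb =>
    intro w x
    have h1 : ∀ t, Phi L f (a * b) t = Phi L f a (Phi L f b t) := by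
      intro t; rw [_root_.map_mul]; rfl
    have h2 : co L f (a * b) w = co L f a (b • w) * co L f b w := by
      unfold co
      rw [h1, ihb]
      rw [iha]
      simp [co]
    rw [h1, ihb, iha, h2, mul_smul, mul_assoc]

lemma co_mul (a b : FreeGroup ι) (w : Om L) :
    co L f (a * b) w = co L f a (b • w) * co L f b w := by
  have h1 : Phi L f (a * b) (w, 1) = Phi L f a (Phi L f b (w, 1)) := by
    rw [_root_.map_mul]; rfl
  unfold co
  rw [h1, Phi_apply, Phi_apply]
  simp [co]

lemma co_of (i : ι) (w : Om L) : co L f (of i) w = f (i, w) := by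
  simp [co, Phi, act]

lemma co_one (w : Om L) : co L f 1 w = 1 := by simp [co]

lemma co_inv (g : FreeGroup ι) (w : Om L) : co L f g⁻¹ (g • w) = (co L f g w)⁻¹ := by
  have := co_mul L f g⁻¹ g w
  rw [inv_mul_cancel, co_one] at this
  exact eq_inv_of_mul_eq_one_left this.symm

end cocycle

/-- indices of the non-tree edges -/
def Kap : Type := {t : ι × Om L // rep L S ((of t.1 : FreeGroup ι) • t.2) ≠ of t.1 * rep L S t.2}

/-- Schreier generators -/
noncomputable def sg (t : ι × Om L) : FreeGroup ι :=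
  (rep L S ((of t.1 : FreeGroup ι) • t.2))⁻¹ * (of t.1 * rep L S t.2)

/-- Schreier generators indexed by the non-tree edges -/
noncomputable def sgK (t : Kap L S) : FreeGroup ι := sg L S t.1

open Classical in
/-- labelling of all edges by the free group on the non-tree edges -/
noncomputable def lab (t : ι × Om L) : FreeGroup (Kap L S) :=
  if h : rep L S ((of t.1 : FreeGroup ι) • t.2) ≠ of t.1 * rep L S t.2 then
    of (⟨t, h⟩ : Kap L S) else 1

lemma co_rep (w : Om L) : co L (lab L S) (rep L S w) (bp L) = 1 := by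
  induction w using (wf_ht L S).induction with
  | _ w ih =>
    by_cases h : w = bp L
    · subst h; rw [rep_bp, co_one]
    · obtain ⟨⟨i, b⟩, hx, -, hr⟩ := rep_step L S w h
      rw [hr, co_mul, ih _ hx, mul_one, rep_spec]
      cases b with
      | true =>
        have e : (mk [(i, true)] : FreeGroup ι) = of i := rfl
        rw [e] at hr ⊢
        rw [co_of]
        unfold lab
        rw [dif_neg]
        simp only [ne_eq, not_not]
        rw [smul_inv_smul]
        exact hr
      | false =>
        have e : (mk [(i, false)] : FreeGroup ι) = (of i)⁻¹ := rfl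
        rw [e] at hr ⊢
        rw [inv_inv] at hr ⊢
        rw [co_inv, co_of]
        unfold lab
        rw [dif_neg]
        · simp
        · simp only [ne_eq, not_not]
          rw [hr]; simp

lemma co_sgK (t : Kap L S) : co L (lab L S) (sgK L S t) (bp L) = of t := by
  unfold sgK sg
  rw [co_mul, co_mul, co_rep, mul_smul, rep_spec, mul_one, co_of]
  have h1 := co_inv L (lab L S) (rep L S ((of t.1.1 : FreeGroup ι) • t.1.2)) (bp L)
  rw [rep_spec, co_rep, inv_one] at h1
  rw [h1, one_mul]
  unfold lab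
  rw [dif_pos t.2]
  rfl

lemma sgK_mem (t : Kap L S) : sgK L S t ∈ L := by
  have h : sgK L S t • bp L = bp L := by
    unfold sgK sg
    rw [mul_smul, mul_smul, rep_spec, inv_smul_eq_iff, rep_spec]
  have h2 : ((sgK L S t : FreeGroup ι) : Om L) = ((1 : FreeGroup ι) : Om L) := by
    have : sgK L S t • bp L = ((sgK L S t * 1 : FreeGroup ι) : Om L) := rfl
    rw [this, mul_one] at h
    exact h
  have := QuotientGroup.eq.mp h2
  simpa using this

lemma lift_mem (w : FreeGroup (Kap L S)) : FreeGroup.lift (sgK L S) w ∈ L := by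
  induction w using FreeGroup.induction_on with
  | C1 => simp [L.one_mem]
  | of i => simpa using sgK_mem L S i
  | inv_of i ih => simpa using sgK_mem L S i
  | mul a b iha ihb => rw [_root_.map_mul]; exact L.mul_mem iha ihb

lemma smul_bp_of_mem {g : FreeGroup ι} (hg : g ∈ L) : g • bp L = bp L := by
  change ((g * 1 : FreeGroup ι) : Om L) = _
  rw [mul_one]
  apply QuotientGroup.eq.mpr
  simpa using hg

lemma co_lift (w : FreeGroup (Kap L S)) :
    co L (lab L S) (FreeGroup.lift (sgK L S) w) (bp L) = w := by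
  induction w using FreeGroup.induction_on with
  | C1 => simp [co_one]
  | of i => simpa using co_sgK L S i
  | inv_of i ih =>
    have h := co_inv L (lab L S) (sgK L S i) (bp L)
    rw [smul_bp_of_mem L (sgK_mem L S i), co_sgK] at h
    simpa using h
  | mul a b iha ihb =>
    rw [_root_.map_mul, co_mul, smul_bp_of_mem L (lift_mem L S b), iha, ihb]

lemma lift_injective : Function.Injective (FreeGroup.lift (sgK L S)) := by
  intro a b h
  rw [← co_lift L S a, ← co_lift L S b, h]

lemma sg_mem (t : ι × Om L) : sg L S t ∈ Subgroup.closure (Set.range (sgK L S)) := by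
  by_cases h : rep L S ((of t.1 : FreeGroup ι) • t.2) ≠ of t.1 * rep L S t.2
  · exact Subgroup.subset_closure ⟨(⟨t, h⟩ : Kap L S), rfl⟩
  · simp only [ne_eq, not_not] at h
    unfold sg
    rw [h]
    simp [one_mem]

lemma gen (g : FreeGroup ι) : ∀ w : Om L,
    (rep L S (g • w))⁻¹ * (g * rep L S w) ∈ Subgroup.closure (Set.range (sgK L S)) := by
  induction g using FreeGroup.induction_on with
  | C1 => intro w; simp [one_mem]
  | of i => intro w; exact sg_mem L S (i, w)
  | inv_of i ih =>
    intro w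
    have h := sg_mem L S (i, (of i : FreeGroup ι)⁻¹ • w)
    have h2 := Subgroup.inv_mem _ h
    unfold sg at h2
    simp only [smul_inv_smul] at h2
    convert h2 using 1
    group
  | mul a b iha ihb =>
    intro w
    have h := Subgroup.mul_mem _ (iha (b • w)) (ihb w)
    rw [← mul_smul] at h
    convert h using 1
    group

lemma closure_range : Subgroup.closure (Set.range (sgK L S)) = L := by
  apply le_antisymm
  · rw [Subgroup.closure_le]
    rintro _ ⟨k, rfl⟩
    exact sgK_mem L S k
  · intro g hg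
    have h := gen L S g (bp L)
    rw [smul_bp_of_mem L hg, rep_bp] at h
    simpa using h

/-- the part of the basis in the free factor -/
def SK : Set (Kap L S) := {k | k.1.1 ∈ S ∧ k.1.2 ∈ OmA L S}

lemma bp_mem_OmA : bp L ∈ OmA L S := ⟨1, one_mem _, one_smul _ _⟩

lemma smul_mem_OmA {g : FreeGroup ι} (hg : g ∈ A0 S) {w : Om L} (hw : w ∈ OmA L S) :
    g • w ∈ OmA L S := by
  obtain ⟨a, ha, rfl⟩ := hw
  exact ⟨g * a, mul_mem hg ha, mul_smul _ _ _⟩

lemma of_mem_A0 {i : ι} (hi : i ∈ S) : (of i : FreeGroup ι) ∈ A0 S :=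
  Subgroup.subset_closure ⟨i, hi, rfl⟩

lemma sg_mem_A (i : ι) (hi : i ∈ S) (w : Om L) (hw : w ∈ OmA L S) :
    sg L S (i, w) ∈ Subgroup.closure (sgK L S '' SK L S) := by
  by_cases h : rep L S ((of i : FreeGroup ι) • w) ≠ of i * rep L S w
  · exact Subgroup.subset_closure ⟨(⟨(i, w), h⟩ : Kap L S), ⟨hi, hw⟩, rfl⟩
  · simp only [ne_eq, not_not] at h
    unfold sg
    simp only
    rw [h]
    simp [one_mem]

lemma gen_A {g : FreeGroup ι} (hg : g ∈ A0 S) : ∀ w ∈ OmA L S,
    (rep L S (g • w))⁻¹ * (g * rep L S w) ∈ Subgroup.closure (sgK L S '' SK L S) := by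
  unfold A0 at hg
  induction hg using Subgroup.closure_induction with
  | mem x hx =>
    obtain ⟨i, hi, rfl⟩ := hx
    intro w hw
    exact sg_mem_A L S i hi w hw
  | one => intro w _; simp [one_mem]
  | mul a b _ hb' iha ihb =>
    intro w hw
    have h := Subgroup.mul_mem _ (iha (b • w) (smul_mem_OmA L S hb' hw)) (ihb w hw)
    rw [← mul_smul] at h
    convert h using 1
    group
  | inv a ha' iha =>
    intro w hw
    have h := iha (a⁻¹ • w) (smul_mem_OmA L S (inv_mem ha') hw)
    have h2 := Subgroup.inv_mem _ h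
    rw [smul_inv_smul] at h2
    convert h2 using 1
    group

lemma closure_SK : Subgroup.closure (sgK L S '' SK L S) = A0 S ⊓ L := by
  apply le_antisymm
  · rw [Subgroup.closure_le]
    rintro _ ⟨k, hk, rfl⟩
    refine Subgroup.mem_inf.2 ⟨?_, sgK_mem L S k⟩
    have h1 : (of k.1.1 : FreeGroup ι) ∈ A0 S := of_mem_A0 S hk.1
    exact mul_mem (inv_mem (rep_mem_A0 L S _ (smul_mem_OmA L S h1 hk.2)))
      (mul_mem h1 (rep_mem_A0 L S _ hk.2))
  · rintro g ⟨hgA, hgL⟩
    have h := gen_A L S hgA (bp L) (bp_mem_OmA L S)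
    rw [smul_bp_of_mem L hgL, rep_bp] at h
    simpa using h

end VF11

theorem ffac_inter {G : Type} [Group G] (A B C : Subgroup G) (h : FFac A B) (hC : C ≤ B) :
    FFac (A ⊓ C) C := by
  obtain ⟨ι, b, S, hinj, hB, hA⟩ := h
  set φ : FreeGroup ι →* G := FreeGroup.lift b with hφ
  have hrange : φ.range = B := by
    rw [← hB, hφ, FreeGroup.range_lift_eq_closure]
  set L : Subgroup (FreeGroup ι) := C.comap φ with hL
  have hLC : L.map φ = C := by
    rw [hL, Subgroup.map_comap_eq, hrange]
    exact inf_eq_right.2 hC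
  have hof : φ ∘ (FreeGroup.of : ι → FreeGroup ι) = b := by
    funext i
    simp [hφ]
  have hA0 : (VF11.A0 S).map φ = A := by
    unfold VF11.A0
    rw [MonoidHom.map_closure, ← Set.image_comp, hof]
    exact hA
  refine ⟨VF11.Kap L S, fun k => φ (VF11.sgK L S k), VF11.SK L S, ?_, ?_, ?_⟩
  · have e : FreeGroup.lift (fun k => φ (VF11.sgK L S k)) =
        φ.comp (FreeGroup.lift (VF11.sgK L S)) := by
      apply FreeGroup.ext_hom
      intro k
      simp
    rw [e]
    exact hinj.comp (VF11.lift_injective L S)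
  · have e : Set.range (fun k => φ (VF11.sgK L S k)) = φ '' Set.range (VF11.sgK L S) := by
      rw [← Set.range_comp]
      rfl
    rw [e, ← MonoidHom.map_closure, VF11.closure_range, hLC]
  · have e : (fun k => φ (VF11.sgK L S k)) '' VF11.SK L S =
        φ '' (VF11.sgK L S '' VF11.SK L S) := by
      rw [← Set.image_comp]
      rfl
    rw [e, ← MonoidHom.map_closure, VF11.closure_SK, Subgroup.map_inf _ _ _ hinj, hA0, hLC]

end Pool.Agent.Helper485_VF
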