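import Mathlib
import Pool.Agent.Helper485_VF.Defs

set_option autoImplicit false

namespace Pool.Agent.Helper485_VF

theorem ffac_trans {G : Type} [Group G] (A B C : Subgroup G) (h : FFac A B) (h' : FFac B C) :
    FFac A C := by
  classical
  obtain ⟨κ, y, T, hy, hyB, hyA⟩ := h
  obtain ⟨ι, b, S, hb, hbC, hbB⟩ := h'
  refine ⟨κ ⊕ {i // i ∉ S}, Sum.elim y (fun i => b i.1), Sum.inl '' T, ?_, ?_, ?_⟩
  · -- injectivity
    have hA1 : ∀ k : κ, ∃ u ∈ Subgroup.closure (FreeGroup.of '' S), FreeGroup.lift b u = y k := by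
      intro k
      have h1 : y k ∈ B := by
        rw [← hyB]
        exact Subgroup.subset_closure ⟨k, rfl⟩
      have h2 : (Subgroup.closure (FreeGroup.of '' S)).map (FreeGroup.lift b) = B := by
        rw [MonoidHom.map_closure, ← hbB, Set.image_image]
        simp
      rw [← h2] at h1
      obtain ⟨u, hu, hu'⟩ := Subgroup.mem_map.1 h1
      exact ⟨u, hu, hu'⟩
    choose y' hy'1 hy'2 using hA1
    have hA2 : ∀ i : ι, ∃ v : FreeGroup κ, i ∈ S → FreeGroup.lift y v = b i := by
      intro i
      by_cases hi : i ∈ S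
      · have h1 : b i ∈ B := by
          rw [← hbB]
          exact Subgroup.subset_closure ⟨i, hi, rfl⟩
        rw [← hyB, ← FreeGroup.range_lift_eq_closure] at h1
        obtain ⟨v, hv⟩ := MonoidHom.mem_range.1 h1
        exact ⟨v, fun _ => hv⟩
      · exact ⟨1, fun h => absurd h hi⟩
    choose β hβ using hA2
    let χ : FreeGroup (κ ⊕ {i // i ∉ S}) →* FreeGroup ι :=
      FreeGroup.lift (Sum.elim y' (fun i => FreeGroup.of i.1))
    let ψ : FreeGroup ι →* FreeGroup (κ ⊕ {i // i ∉ S}) :=
      FreeGroup.lift (fun i => if h : i ∈ S then FreeGroup.map Sum.inl (β i)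
        else FreeGroup.of (Sum.inr ⟨i, h⟩))
    have hfac : FreeGroup.lift (Sum.elim y (fun i : {i // i ∉ S} => b i.1)) =
        (FreeGroup.lift b).comp χ := by
      apply FreeGroup.ext_hom
      rintro (k | i)
      · simp [χ, hy'2]
      · simp [χ]
    have hcl : ∀ x ∈ Subgroup.closure (FreeGroup.of '' S),
        ∃ u, FreeGroup.lift y u = FreeGroup.lift b x ∧ ψ x = FreeGroup.map Sum.inl u := by
      intro x hx
      induction hx using Subgroup.closure_induction with
      | mem x hx =>
        obtain ⟨i, hi, rfl⟩ := hx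
        exact ⟨β i, by rw [hβ i hi]; simp, by simp [ψ, hi]⟩
      | one => exact ⟨1, by simp, by simp⟩
      | mul x z _ _ hx hz =>
        obtain ⟨u, hu1, hu2⟩ := hx
        obtain ⟨v, hv1, hv2⟩ := hz
        exact ⟨u * v, by rw [map_mul, map_mul, hu1, hv1], by rw [map_mul, map_mul, hu2, hv2]⟩
      | inv x _ hx =>
        obtain ⟨u, hu1, hu2⟩ := hx
        exact ⟨u⁻¹, by rw [map_inv, map_inv, hu1], by rw [map_inv, map_inv, hu2]⟩
    have hψχ : ψ.comp χ = MonoidHom.id _ := by
      apply FreeGroup.ext_hom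
      rintro (k | i)
      · obtain ⟨u, hu1, hu2⟩ := hcl (y' k) (hy'1 k)
        rw [hy'2 k] at hu1
        have hu3 : u = FreeGroup.of k := by
          apply hy
          rw [hu1]
          simp
        have hχ : χ (FreeGroup.of (Sum.inl k)) = y' k := by simp [χ]
        rw [MonoidHom.comp_apply, hχ, hu2, hu3]
        simp
      · have hχ : χ (FreeGroup.of (Sum.inr i)) = FreeGroup.of i.1 := by simp [χ]
        rw [MonoidHom.comp_apply, hχ]
        simp [ψ, i.2]
    have hχi : Function.Injective χ := by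
      intro a c hac
      have h1 := congrArg ψ hac
      rw [← MonoidHom.comp_apply, ← MonoidHom.comp_apply, hψχ] at h1
      exact h1
    rw [hfac]
    exact hb.comp hχi
  · have hr : Set.range (Sum.elim y (fun i : {i // i ∉ S} => b i.1)) = Set.range y ∪ b '' Sᶜ := by
      rw [Set.Sum.elim_range]
      congr 1
      ext x
      constructor
      · rintro ⟨i, rfl⟩
        exact ⟨i.1, i.2, rfl⟩
      · rintro ⟨i, hi, rfl⟩
        exact ⟨⟨i, hi⟩, rfl⟩
    rw [hr, Subgroup.closure_union, hyB, ← hbB, ← Subgroup.closure_union, ← Set.image_union,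
      Set.union_compl_self, Set.image_univ, hbC]
  · rw [Set.image_image]
    simpa using hyA

theorem ffac_conj {G : Type} [Group G] (g : G) (A B : Subgroup G) (h : FFac A B) :
    FFac (A.map (MulAut.conj g).toMonoidHom) (B.map (MulAut.conj g).toMonoidHom) := by
  obtain ⟨ι, b, S, hb, hbB, hbA⟩ := h
  refine ⟨ι, fun i => (MulAut.conj g).toMonoidHom (b i), S, ?_, ?_, ?_⟩
  · have h1 : FreeGroup.lift (fun i => (MulAut.conj g).toMonoidHom (b i)) =
        (MulAut.conj g).toMonoidHom.comp (FreeGroup.lift b) := by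
      apply FreeGroup.ext_hom
      intro i
      simp
    rw [h1]
    exact (MulAut.conj g).injective.comp hb
  · rw [← hbB, MonoidHom.map_closure, ← Set.range_comp]
    rfl
  · rw [← hbA, MonoidHom.map_closure, Set.image_image]

theorem ffac_fg {G : Type} [Group G] (A B D : Subgroup G) (h : FFac A B) (hD : D ≤ A)
    (Φ : Set G) (hΦ : Φ.Finite) (hB : B = D ⊔ Subgroup.closure Φ) :
    ∃ Ψ : Set G, Ψ.Finite ∧ A = D ⊔ Subgroup.closure Ψ := by
  classical
  obtain ⟨ι, b, S, hb, hbB, hbA⟩ := h
  set f : FreeGroup ι →* G := FreeGroup.lift b with hf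
  let r : FreeGroup ι →* FreeGroup ι :=
    FreeGroup.lift (fun i => if i ∈ S then FreeGroup.of i else 1)
  have hr1 : ∀ x ∈ Subgroup.closure (FreeGroup.of '' S : Set (FreeGroup ι)), r x = x := by
    intro x hx
    induction hx using Subgroup.closure_induction with
    | mem x hx =>
      obtain ⟨i, hi, rfl⟩ := hx
      simp [r, hi]
    | one => simp
    | mul x z _ _ hx hz => rw [map_mul, hx, hz]
    | inv x _ hx => rw [map_inv, hx]
  have hr2 : r.range = Subgroup.closure (FreeGroup.of '' S) := by
    apply le_antisymm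
    · rw [FreeGroup.range_lift_eq_closure, Subgroup.closure_le]
      rintro x ⟨i, rfl⟩
      by_cases hi : i ∈ S
      · simp only [hi, if_true]
        exact Subgroup.subset_closure ⟨i, hi, rfl⟩
      · simp only [hi, if_false]
        exact one_mem _
    · intro x hx
      exact ⟨x, hr1 x hx⟩
  have hfA : (Subgroup.closure (FreeGroup.of '' S)).map f = A := by
    rw [MonoidHom.map_closure, ← hbA, Set.image_image]
    simp [hf]
  have hfB : f.range = B := by
    rw [hf, FreeGroup.range_lift_eq_closure, hbB]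
  have hAB : A ≤ B := by
    rw [← hfA, ← hfB]
    exact Subgroup.map_le_range _ _
  have hΦB : Φ ⊆ B := by
    rw [hB]
    exact fun x hx => Subgroup.mem_sup_right (Subgroup.subset_closure hx)
  have hDm : (D.comap f).map f = D := by
    rw [Subgroup.map_comap_eq, hfB]
    exact inf_eq_right.2 (hD.trans hAB)
  have hΦm : f '' (f ⁻¹' Φ) = Φ := by
    rw [Set.image_preimage_eq_iff]
    intro x hx
    have := hΦB hx
    rw [← hfB] at this
    exact this
  have htop : (⊤ : Subgroup (FreeGroup ι)) = D.comap f ⊔ Subgroup.closure (f ⁻¹' Φ) := by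
    apply Subgroup.map_injective hb
    rw [Subgroup.map_sup, hDm, MonoidHom.map_closure, hΦm, ← hB, ← hfB, MonoidHom.range_eq_map]
  have hDr : (D.comap f).map r = D.comap f := by
    have h1 : D.comap f ≤ Subgroup.closure (FreeGroup.of '' S) := by
      intro x hx
      have h2 : f x ∈ A := hD (Subgroup.mem_comap.1 hx)
      rw [← hfA] at h2
      obtain ⟨u, hu, hux⟩ := Subgroup.mem_map.1 h2
      rwa [← hb hux]
    ext x
    constructor
    · rintro ⟨u, hu, rfl⟩
      rw [hr1 u (h1 hu)]
      exact hu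
    · intro hx
      exact ⟨x, hx, hr1 x (h1 hx)⟩
  refine ⟨f '' (r '' (f ⁻¹' Φ)), ((hΦ.preimage hb.injOn).image r).image f, ?_⟩
  have h3 := congrArg (Subgroup.map f) (congrArg (Subgroup.map r) htop)
  rw [← MonoidHom.range_eq_map, hr2, hfA, Subgroup.map_sup, hDr, Subgroup.map_sup, hDm,
    MonoidHom.map_closure, MonoidHom.map_closure] at h3
  exact h3

end Pool.Agent.Helper485_VF
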