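import Mathlib
import Pool.Agent.Helper485_VF.Defs
import Pool.Agent.Helper485_VF.Inter
import Pool.Agent.Helper485_VF.Trans

set_option autoImplicit false

/-!
# Free factors normalised by a subgroup
-/

namespace Pool.Agent.Helper485_VF

section basic

variable {G : Type} [Group G]

theorem ffac_le {A C : Subgroup G} (h : FFac A C) : A ≤ C := by
  obtain ⟨ι, b, S, -, h2, h3⟩ := h
  rw [← h2, ← h3]
  exact Subgroup.closure_mono (Set.image_subset_range _ _)

theorem mem_sup_norm (H M : Subgroup G) (hn : ∀ h ∈ H, ∀ m ∈ M, h * m * h⁻¹ ∈ M) {x : G}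
    (hx : x ∈ H ⊔ M) : ∃ h ∈ H, ∃ m ∈ M, x = h * m := by
  have key : H ⊔ M ≤ ({ carrier := {x | ∃ h ∈ H, ∃ m ∈ M, x = h * m}
                        one_mem' := ⟨1, H.one_mem, 1, M.one_mem, by simp⟩
                        mul_mem' := by
                          rintro _ _ ⟨h, hh, m, hm, rfl⟩ ⟨h', hh', m', hm', rfl⟩
                          refine ⟨h * h', H.mul_mem hh hh', h'⁻¹ * m * h' * m', ?_, by group⟩
                          refine M.mul_mem ?_ hm'
                          have := hn h'⁻¹ (H.inv_mem hh') m hm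
                          rwa [inv_inv] at this
                        inv_mem' := by
                          rintro _ ⟨h, hh, m, hm, rfl⟩
                          refine ⟨h⁻¹, H.inv_mem hh, h * m⁻¹ * h⁻¹, hn h hh _ (M.inv_mem hm), ?_⟩
                          group } : Subgroup G) := by
    refine sup_le ?_ ?_
    · intro h hh
      exact ⟨h, hh, 1, M.one_mem, by simp⟩
    · intro m hm
      exact ⟨1, H.one_mem, m, hm, by simp⟩
  exact key hx

theorem sup_inf_norm (H M F : Subgroup G) (hn : ∀ h ∈ H, ∀ m ∈ M, h * m * h⁻¹ ∈ M)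
    (hM : M ≤ F) (hH : H ⊓ F ≤ M) : (H ⊔ M) ⊓ F = M := by
  apply le_antisymm
  · rintro x ⟨hx, hxF⟩
    obtain ⟨h, hh, m, hm, rfl⟩ := mem_sup_norm H M hn hx
    have h1 : h ∈ F := by
      have := F.mul_mem hxF (F.inv_mem (hM hm))
      rwa [mul_inv_cancel_right] at this
    exact M.mul_mem (hH ⟨hh, h1⟩) hm
  · exact le_inf le_sup_right hM

variable {B : Type} (b : B → G) (H : Subgroup G)

/-- the subgroup generated by a part of the basis -/
def AA (S : Set B) : Subgroup G := Subgroup.closure (b '' S)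

/-- the largest part normalised by `H` -/
def MM (S : Set B) : Subgroup G := ⨅ h : H, (AA b S).map (MulAut.conj (h : G)).toMonoidHom

theorem mem_MM {S : Set B} {x : G} : x ∈ MM b H S ↔ ∀ h ∈ H, h⁻¹ * x * h ∈ AA b S := by
  unfold MM
  rw [Subgroup.mem_iInf]
  constructor
  · intro hx h hh
    obtain ⟨y, hy, hxy⟩ := hx ⟨h, hh⟩
    have h1 : h * y * h⁻¹ = x := hxy
    rw [← h1]
    have : h⁻¹ * (h * y * h⁻¹) * h = y := by group
    rw [this]
    exact hy
  · intro hx h
    refine ⟨(h : G)⁻¹ * x * h, hx h h.2, ?_⟩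
    show (h : G) * ((h : G)⁻¹ * x * h) * (h : G)⁻¹ = x
    group

theorem AA_mono {S S' : Set B} (h : S ⊆ S') : AA b S ≤ AA b S' :=
  Subgroup.closure_mono (Set.image_mono h)

theorem MM_le (S : Set B) : MM b H S ≤ AA b S := by
  intro x hx
  have := (mem_MM b H).1 hx 1 H.one_mem
  simpa using this

theorem MM_norm {S : Set B} {h : G} (hh : h ∈ H) {m : G} (hm : m ∈ MM b H S) :
    h * m * h⁻¹ ∈ MM b H S := by
  rw [mem_MM] at hm ⊢
  intro k hk
  have := hm (h⁻¹ * k) (H.mul_mem (H.inv_mem hh) hk)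
  have h1 : (h⁻¹ * k)⁻¹ * m * (h⁻¹ * k) = k⁻¹ * (h * m * h⁻¹) * k := by group
  rwa [h1] at this

/-- `A(S)` is normalised by `H` -/
def ANorm (S : Set B) : Prop := ∀ h ∈ H, ∀ x ∈ AA b S, h * x * h⁻¹ ∈ AA b S

theorem ANorm.le_MM {S S' : Set B} (h : ANorm b H S) (hS : S ⊆ S') : AA b S ≤ MM b H S' := by
  intro x hx
  rw [mem_MM]
  intro k hk
  have := h k⁻¹ (H.inv_mem hk) x hx
  rw [inv_inv] at this
  exact AA_mono b hS this

theorem inf_le_MM {F : Subgroup G} [F.Normal] {S : Set B} (h : H ⊓ F ≤ AA b S) :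
    H ⊓ F ≤ MM b H S := by
  rintro x ⟨hx, hxF⟩
  rw [mem_MM]
  intro k hk
  apply h
  refine ⟨H.mul_mem (H.mul_mem (H.inv_mem hk) hx) hk, ?_⟩
  have := (inferInstance : F.Normal).conj_mem x hxF k⁻¹
  rwa [inv_inv] at this

theorem AA_le {F : Subgroup G} (hF : Subgroup.closure (Set.range b) = F) (S : Set B) :
    AA b S ≤ F := by
  rw [← hF]
  exact Subgroup.closure_mono (Set.image_subset_range _ _)

theorem ffac_AA {F : Subgroup G} (hb : Function.Injective (FreeGroup.lift b))
    (hF : Subgroup.closure (Set.range b) = F) (S : Set B) : FFac (AA b S) F :=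
  ⟨B, b, S, hb, hF, rfl⟩

theorem ffac_self {F : Subgroup G} (hb : Function.Injective (FreeGroup.lift b))
    (hF : Subgroup.closure (Set.range b) = F) : FFac F F :=
  ⟨B, b, Set.univ, hb, hF, by rw [Set.image_univ, hF]⟩

theorem ffac_finset {F : Subgroup G} (hFF : FFac F F) {κ : Type} (s : Finset κ)
    (A : κ → Subgroup G) (hA : ∀ i ∈ s, FFac (A i) F) : FFac ((⨅ i ∈ s, A i) ⊓ F) F := by
  classical
  induction s using Finset.induction_on with
  | empty => simpa using hFF
  | insert i s hi ih =>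
    have h1 := ih fun j hj => hA j (Finset.mem_insert_of_mem hj)
    have h2 := ffac_inter (A i) F _ (hA i (Finset.mem_insert_self i s)) (ffac_le h1)
    have h3 := ffac_trans _ _ _ h2 h1
    rw [Finset.iInf_insert, inf_assoc]
    exact h3

theorem ffac_MM {Q : Type} [Group Q] [Finite Q] (π : G →* Q)
    (hb : Function.Injective (FreeGroup.lift b))
    (hF : Subgroup.closure (Set.range b) = π.ker) {S : Set B} (h : H ⊓ π.ker ≤ AA b S) :
    FFac (MM b H S) π.ker := by
  classical
  cases nonempty_fintype Q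
  -- representatives
  have hrep : ∀ q : Q, ∃ h : H, (∃ h' : H, π h' = q) → π h = q := by
    intro q
    by_cases hq : ∃ h' : H, π h' = q
    · obtain ⟨h', hh'⟩ := hq
      exact ⟨h', fun _ => hh'⟩
    · exact ⟨1, fun h1 => absurd h1 hq⟩
  choose r hr using hrep
  have key : MM b H S = (⨅ q ∈ (Finset.univ : Finset Q),
      (AA b S).map (MulAut.conj ((r q : H) : G)).toMonoidHom) ⊓ π.ker := by
    apply le_antisymm
    · refine le_inf ?_ ((MM_le b H S).trans (AA_le b hF S))
      refine le_iInf₂ fun q _ => ?_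
      exact iInf_le (fun h : H => (AA b S).map (MulAut.conj (h : G)).toMonoidHom) (r q)
    · refine le_trans inf_le_left ?_
      intro x hx
      rw [mem_MM]
      intro k hk
      simp only [Subgroup.mem_iInf] at hx
      obtain ⟨y, hy, hxy⟩ := hx (π k) (Finset.mem_univ _)
      have h1 : (r (π k) : G) * y * (r (π k) : G)⁻¹ = x := hxy
      have h2 : π (r (π k) : G) = π k := hr (π k) ⟨⟨k, hk⟩, rfl⟩
      have h3 : (r (π k) : G)⁻¹ * k ∈ AA b S := by
        apply h
        refine ⟨H.mul_mem (H.inv_mem (r (π k)).2) hk, ?_⟩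
        show _ ∈ π.ker
        rw [MonoidHom.mem_ker, map_mul, map_inv, h2, inv_mul_cancel]
      have h4 : k⁻¹ * x * k = ((r (π k) : G)⁻¹ * k)⁻¹ * y * ((r (π k) : G)⁻¹ * k) := by
        rw [← h1]; group
      rw [h4]
      exact (AA b S).mul_mem ((AA b S).mul_mem ((AA b S).inv_mem h3) hy) h3
  rw [key]
  refine ffac_finset (ffac_self b hb hF) _ _ fun q _ => ?_
  have h5 := ffac_conj (r q : G) (AA b S) π.ker (ffac_AA b hb hF S)
  have h6 : π.ker.map (MulAut.conj (r q : G)).toMonoidHom = π.ker := by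
    apply le_antisymm
    · rintro _ ⟨y, hy, rfl⟩
      exact (inferInstance : π.ker.Normal).conj_mem y hy _
    · intro x hx
      refine ⟨(r q : G)⁻¹ * x * r q, ?_, ?_⟩
      · have := (inferInstance : π.ker.Normal).conj_mem x hx (r q : G)⁻¹
        rwa [inv_inv] at this
      · show (r q : G) * ((r q : G)⁻¹ * x * r q) * (r q : G)⁻¹ = x
        group
  rwa [h6] at h5

/-- finite generation over a subgroup -/
theorem MM_fg {Q : Type} [Group Q] [Finite Q] (π : G →* Q)
    (hb : Function.Injective (FreeGroup.lift b))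
    (hF : Subgroup.closure (Set.range b) = π.ker) {S B' : Set B} (h : H ⊓ π.ker ≤ AA b S)
    (hn : ANorm b H B') (hBS : B' ⊆ S) (hfin : (S \ B').Finite) :
    ∃ Ψ : Set G, Ψ.Finite ∧ MM b H S = AA b B' ⊔ Subgroup.closure Ψ := by
  have h1 : FFac (MM b H S) (AA b S) := by
    have h2 := ffac_inter _ _ (AA b S) (ffac_MM b H π hb hF h) (AA_le b hF S)
    rwa [inf_eq_left.2 (MM_le b H S)] at h2
  refine ffac_fg (MM b H S) (AA b S) (AA b B') h1 (hn.le_MM b H hBS) (b '' (S \ B'))
    (hfin.image _) ?_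
  unfold AA
  rw [← Subgroup.closure_union, ← Set.image_union, Set.union_sdiff_cancel hBS]

theorem exists_finite_support {F : Subgroup G} (hF : Subgroup.closure (Set.range b) = F) {x : G}
    (hx : x ∈ F) : ∃ S : Set B, S.Finite ∧ x ∈ AA b S := by
  rw [← hF] at hx
  induction hx using Subgroup.closure_induction with
  | mem x hx =>
    obtain ⟨i, rfl⟩ := hx
    exact ⟨{i}, Set.finite_singleton i, Subgroup.subset_closure ⟨i, rfl, rfl⟩⟩
  | one => exact ⟨∅, Set.finite_empty, Subgroup.one_mem _⟩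
  | mul x y _ _ ihx ihy =>
    obtain ⟨S, h1, h2⟩ := ihx
    obtain ⟨S', h3, h4⟩ := ihy
    exact ⟨S ∪ S', h1.union h3, Subgroup.mul_mem _ (AA_mono b Set.subset_union_left h2)
      (AA_mono b Set.subset_union_right h4)⟩
  | inv x _ ih =>
    obtain ⟨S, h1, h2⟩ := ih
    exact ⟨S, h1, Subgroup.inv_mem _ h2⟩

theorem exists_finite_support' {F : Subgroup G} (hF : Subgroup.closure (Set.range b) = F)
    (D : Subgroup G) (hD : D ≤ F) (hfg : D.FG) : ∃ S : Set B, S.Finite ∧ D ≤ AA b S := by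
  classical
  obtain ⟨s, hs⟩ := hfg
  have h1 : ∀ x : s, ∃ S : Set B, S.Finite ∧ (x : G) ∈ AA b S := by
    intro x
    apply exists_finite_support b hF
    apply hD
    rw [← hs]
    exact Subgroup.subset_closure x.2
  choose S h2 h3 using h1
  refine ⟨⋃ x : s, S x, Set.finite_iUnion h2, ?_⟩
  rw [← hs, Subgroup.closure_le]
  intro x hx
  exact AA_mono b (Set.subset_iUnion S ⟨x, hx⟩) (h3 ⟨x, hx⟩)

/-- closing off one step -/
theorem exists_next {Q : Type} [Group Q] [Finite Q] (π : G →* Q)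
    (hF : Subgroup.closure (Set.range b) = π.ker) {S B' : Set B} (h : H ⊓ π.ker ≤ AA b S)
    (hn : ANorm b H B') (hBS : B' ⊆ S) (hfin : (S \ B').Finite) :
    ∃ S' : Set B, S ⊆ S' ∧ (S' \ B').Finite ∧ AA b S ≤ MM b H S' := by
  classical
  cases nonempty_fintype Q
  have hrep : ∀ q : Q, ∃ h : H, (∃ h' : H, π h' = q) → π h = q := by
    intro q
    by_cases hq : ∃ h' : H, π h' = q
    · obtain ⟨h', hh'⟩ := hq
      exact ⟨h', fun _ => hh'⟩
    · exact ⟨1, fun h1 => absurd h1 hq⟩
  choose r hr using hrep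
  have h1 : ∀ (q : Q) (s : B), ∃ T : Set B, T.Finite ∧ (r q : G)⁻¹ * b s * (r q : G) ∈ AA b T := by
    intro q s
    apply exists_finite_support b hF
    have h2 : b s ∈ π.ker := by
      rw [← hF]; exact Subgroup.subset_closure ⟨s, rfl⟩
    have := (inferInstance : π.ker.Normal).conj_mem _ h2 (r q : G)⁻¹
    rwa [inv_inv] at this
  choose T hT1 hT2 using h1
  set S' : Set B := S ∪ ⋃ s ∈ S \ B', ⋃ q : Q, T q s with hS'
  have hfinU : (⋃ s ∈ S \ B', ⋃ q : Q, T q s).Finite :=
    hfin.biUnion fun s _ => Set.finite_iUnion fun q => hT1 q s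
  refine ⟨S', Set.subset_union_left, ?_, ?_⟩
  · refine (hfin.union hfinU).subset ?_
    rintro x ⟨hx | hx, hx'⟩
    · exact Or.inl ⟨hx, hx'⟩
    · exact Or.inr hx
  · intro x hx
    rw [mem_MM]
    intro k hk
    have h3 : AA b S ≤ (AA b S').comap (MulAut.conj k⁻¹).toMonoidHom := by
      unfold AA
      rw [Subgroup.closure_le]
      rintro _ ⟨s, hs, rfl⟩
      show k⁻¹ * b s * (k⁻¹)⁻¹ ∈ AA b S'
      rw [inv_inv]
      by_cases hsB : s ∈ B'
      · have h4 := hn k⁻¹ (H.inv_mem hk) (b s) (Subgroup.subset_closure ⟨s, hsB, rfl⟩)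
        rw [inv_inv] at h4
        exact AA_mono b (hBS.trans Set.subset_union_left) h4
      · have h2 : π (r (π k) : G) = π k := hr (π k) ⟨⟨k, hk⟩, rfl⟩
        have h5 : (r (π k) : G)⁻¹ * k ∈ AA b S' := by
          apply AA_mono b Set.subset_union_left
          apply h
          refine ⟨H.mul_mem (H.inv_mem (r (π k)).2) hk, ?_⟩
          show _ ∈ π.ker
          rw [MonoidHom.mem_ker, map_mul, map_inv, h2, inv_mul_cancel]
        have h6 : (r (π k) : G)⁻¹ * b s * (r (π k) : G) ∈ AA b S' := by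
          refine AA_mono b ?_ (hT2 (π k) s)
          refine Set.Subset.trans ?_ Set.subset_union_right
          intro z hz
          simp only [Set.mem_iUnion]
          exact ⟨s, ⟨hs, hsB⟩, π k, hz⟩
        have h7 : k⁻¹ * b s * k = ((r (π k) : G)⁻¹ * k)⁻¹ *
            ((r (π k) : G)⁻¹ * b s * (r (π k) : G)) * ((r (π k) : G)⁻¹ * k) := by group
        rw [h7]
        exact (AA b S').mul_mem ((AA b S').mul_mem ((AA b S').inv_mem h5) h6) h5
    have h8 := h3 hx
    have h9 : k⁻¹ * x * (k⁻¹)⁻¹ ∈ AA b S' := h8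
    rwa [inv_inv] at h9

theorem ANorm.union {κ : Type} {S : κ → Set B} (hS : ∀ i, ANorm b H (S i)) :
    ANorm b H (⋃ i, S i) := by
  intro h hh x hx
  have h3 : AA b (⋃ i, S i) ≤ (AA b (⋃ i, S i)).comap (MulAut.conj h).toMonoidHom := by
    conv_lhs => unfold AA
    rw [Subgroup.closure_le]
    rintro _ ⟨s, hs, rfl⟩
    obtain ⟨i, hi⟩ := Set.mem_iUnion.1 hs
    exact AA_mono b (Set.subset_iUnion S i) (hS i h hh (b s) (Subgroup.subset_closure ⟨s, hi, rfl⟩))
  exact h3 hx

theorem not_mem_AA (hb : Function.Injective (FreeGroup.lift b)) {S : Set B} {s : B}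
    (h : b s ∈ AA b S) : s ∈ S := by
  classical
  by_contra hs
  have h1 : AA b S = (Subgroup.closure (FreeGroup.of '' S)).map (FreeGroup.lift b) := by
    rw [MonoidHom.map_closure, ← Set.image_comp]
    congr 1
    ext x
    simp
  rw [h1] at h
  obtain ⟨y, hy, hys⟩ := h
  have h2 : y = FreeGroup.of s := hb (by rw [hys]; simp)
  rw [h2] at hy
  let f : FreeGroup B →* Multiplicative ℤ :=
    FreeGroup.lift fun i => if i = s then Multiplicative.ofAdd 1 else 1
  have h3 : Subgroup.closure (FreeGroup.of '' S) ≤ f.ker := by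
    rw [Subgroup.closure_le]
    rintro _ ⟨i, hi, rfl⟩
    show f (FreeGroup.of i) = 1
    have : i ≠ s := fun h => hs (h ▸ hi)
    simp [f, this]
  have h4 : f (FreeGroup.of s) = 1 := h3 hy
  have h5 : f (FreeGroup.of s) = Multiplicative.ofAdd 1 := by simp [f]
  rw [h5] at h4
  exact absurd h4 (by decide)

end basic

end Pool.Agent.Helper485_VF
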