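import Mathlib
import Pool.Agent.Helper485_VF.Defs

set_option autoImplicit false

namespace Pool.Agent.Helper485_VF

/-! TARGET.
Three targets (helper lemmas allowed). V arbitrary, the graph need not be locally finite.
cut_finite: prove the following by induction on n FOR ALL GRAPHS on V (no connectivity): if Adj x y then only finitely many X satisfy
 Conn X, Conn Xᶜ, (bd X) finite, ncard (bd X) ≤ n, x ∈ X, y ∉ X. n = 0: (x,y) ∈ bd X, so none. Step: let Γ' = Γ minus the edge xy
 (Γ.deleteEdges {s(x,y)} or similar). For such X the sets X, Xᶜ are Conn in Γ' too (xy joins X to Xᶜ, so it is not inside either), and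
 bd_Γ' X = bd_Γ X minus (x,y), so it has at most n elements. If y is not reachable from x in Γ': X = {v reachable from x in Γ'}
 (X is Conn, contained in the component of x by Conn applied to Y = X ∩ component; same for Xᶜ and y), one set. If there is a walk p from x to y in Γ': every such X
 contains x and not y, so some consecutive pair (a,b) of p has a ∈ X, b ∉ X; finitely many pairs, finite for each by induction.
sep_finite: take a walk of Γ from x to y; every X with x ∈ X, y ∉ X has a consecutive pair (a,b) with a ∈ X, b ∉ X; apply cut_finite.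
cross_finite: bd C is finite; let Z be a finite set of vertices containing all ends of bd C with Γ.induce Z connected (or: a finite set of walks joining the ends;
 Z = union of supports of walks from one end to all the others; if bd C is empty then C is empty or everything by connectivity, and nothing crosses).
 If Cut n X, X crosses C and no adjacent pair inside Z is separated by X, then Z ⊆ X or Z ⊆ Xᶜ. Say Z ⊆ Xᶜ: X ∩ C, X ∩ Cᶜ nonempty and X is Conn, so there is an edge from
 X ∩ C to X ∩ Cᶜ, it is in bd C, so its ends are in Z, contradiction. Z ⊆ X: the same with Xᶜ. So X separates one of the finitely many adjacent pairs (a,b) in Z × Z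
 (a ∈ X, b ∉ X), and cut_finite applies.
-/

theorem cut_aux {V : Type} (n : ℕ) : ∀ (Γ : SimpleGraph V) (x y : V), Γ.Adj x y →
    {X : Set V | Conn Γ X ∧ Conn Γ Xᶜ ∧ (bd Γ X).Finite ∧ (bd Γ X).ncard ≤ n ∧
      x ∈ X ∧ y ∉ X}.Finite := by
  induction n with
  | zero =>
    intro Γ x y hxy
    refine Set.Finite.subset Set.finite_empty ?_
    rintro X ⟨-, -, hf, hn, hx, hy⟩
    have h0 : (bd Γ X).ncard = 0 := Nat.le_zero.1 hn
    rw [Set.ncard_eq_zero hf] at h0
    have : (x, y) ∈ bd Γ X := ⟨hxy, hx, hy⟩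
    rw [h0] at this
    exact this
  | succ n ih =>
    intro Γ x y hxy
    set Γ' : SimpleGraph V := Γ.deleteEdges {s(x, y)} with hΓ'
    have hadj : ∀ u v, Γ'.Adj u v ↔ Γ.Adj u v ∧ s(u, v) ≠ s(x, y) := by
      intro u v
      rw [hΓ', SimpleGraph.deleteEdges_adj]
      simp
    -- properties of X for Γ'
    have key : ∀ X : Set V, (Conn Γ X ∧ Conn Γ Xᶜ ∧ (bd Γ X).Finite ∧ (bd Γ X).ncard ≤ n + 1 ∧
        x ∈ X ∧ y ∉ X) → (Conn Γ' X ∧ Conn Γ' Xᶜ ∧ (bd Γ' X).Finite ∧ (bd Γ' X).ncard ≤ n) := by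
      rintro X ⟨h1, h2, hf, hn, hx, hy⟩
      have hsub : bd Γ' X ⊆ bd Γ X \ {(x, y)} := by
        rintro ⟨u, v⟩ ⟨ha, hu, hv⟩
        have ha' := (hadj u v).1 ha
        refine ⟨⟨ha'.1, hu, hv⟩, ?_⟩
        intro h
        have h' : (u, v) = (x, y) := h
        have hu' : u = x := congrArg Prod.fst h'
        have hv' : v = y := congrArg Prod.snd h'
        exact ha'.2 (by rw [hu', hv'])
      refine ⟨?_, ?_, ?_, ?_⟩
      · intro Y hY hne hcl
        refine h1 Y hY hne ?_
        intro u hu v hv huv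
        refine hcl u hu v hv ((hadj u v).2 ⟨huv, ?_⟩)
        intro h
        rcases Sym2.eq_iff.1 h with h | h
        · exact hy (h.2 ▸ hv)
        · exact hy (h.1 ▸ hY hu)
      · intro Y hY hne hcl
        refine h2 Y hY hne ?_
        intro u hu v hv huv
        refine hcl u hu v hv ((hadj u v).2 ⟨huv, ?_⟩)
        intro h
        rcases Sym2.eq_iff.1 h with h | h
        · exact hY hu (h.1 ▸ hx)
        · exact hv (h.2 ▸ hx)
      · exact (hf.subset (hsub.trans Set.diff_subset))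
      · have hmem : (x, y) ∈ bd Γ X := ⟨hxy, hx, hy⟩
        have hc : (bd Γ X \ {(x, y)}).ncard + 1 = (bd Γ X).ncard :=
          Set.ncard_diff_singleton_add_one hmem hf
        have hle : (bd Γ' X).ncard ≤ (bd Γ X \ {(x, y)}).ncard :=
          Set.ncard_le_ncard hsub (hf.subset Set.diff_subset)
        omega
    by_cases hr : Γ'.Reachable x y
    · obtain ⟨p⟩ := hr
      have hfin : (⋃ d ∈ {d | d ∈ p.darts}, {X : Set V | Conn Γ' X ∧ Conn Γ' Xᶜ ∧
          (bd Γ' X).Finite ∧ (bd Γ' X).ncard ≤ n ∧ d.fst ∈ X ∧ d.snd ∉ X}).Finite := by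
        refine Set.Finite.biUnion (List.finite_toSet p.darts) ?_
        intro d _
        exact ih Γ' d.fst d.snd d.adj
      refine hfin.subset ?_
      intro X hX
      obtain ⟨k1, k2, k3, k4⟩ := key X hX
      obtain ⟨-, -, -, -, hx, hy⟩ := hX
      obtain ⟨d, hd, hd1, hd2⟩ := p.exists_boundary_dart X hx hy
      exact Set.mem_biUnion hd ⟨k1, k2, k3, k4, hd1, hd2⟩
    · refine Set.Finite.subset (Set.finite_singleton {v | Γ'.Reachable x v}) ?_
      intro X hX
      obtain ⟨k1, k2, -, -⟩ := key X hX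
      obtain ⟨-, -, -, -, hx, hy⟩ := hX
      have e1 : X ∩ {v | Γ'.Reachable x v} = X := by
        refine k1 _ Set.inter_subset_left ⟨x, hx, SimpleGraph.Reachable.refl x⟩ ?_
        rintro u ⟨-, hu⟩ v hv huv
        exact ⟨hv, SimpleGraph.Reachable.trans hu huv.reachable⟩
      have e2 : Xᶜ ∩ {v | Γ'.Reachable y v} = Xᶜ := by
        refine k2 _ Set.inter_subset_left ⟨y, hy, SimpleGraph.Reachable.refl y⟩ ?_
        rintro u ⟨-, hu⟩ v hv huv
        exact ⟨hv, SimpleGraph.Reachable.trans hu huv.reachable⟩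
      rw [Set.mem_singleton_iff]
      apply Set.Subset.antisymm
      · intro v hv
        rw [← e1] at hv
        exact hv.2
      · intro v hv
        by_contra hvX
        have h' : v ∈ Xᶜ := hvX
        rw [← e2] at h'
        exact hr (SimpleGraph.Reachable.trans hv (SimpleGraph.Reachable.symm h'.2))

theorem cut_finite {V : Type} (Γ : SimpleGraph V) (n : ℕ) (x y : V) (hxy : Γ.Adj x y) :
    {X : Set V | Cut Γ n X ∧ x ∈ X ∧ y ∉ X}.Finite := by
  refine (cut_aux n Γ x y hxy).subset ?_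
  rintro X ⟨⟨-, -, h1, h2, h3, h4⟩, hx, hy⟩
  exact ⟨h1, h2, h3, h4, hx, hy⟩

theorem sep_finite {V : Type} (Γ : SimpleGraph V) (hΓ : Γ.Connected) (n : ℕ) (x y : V) :
    {X : Set V | Cut Γ n X ∧ x ∈ X ∧ y ∉ X}.Finite := by
  obtain ⟨p⟩ := hΓ.preconnected x y
  have hfin : (⋃ d ∈ {d | d ∈ p.darts},
      {X : Set V | Cut Γ n X ∧ d.fst ∈ X ∧ d.snd ∉ X}).Finite := by
    refine Set.Finite.biUnion (List.finite_toSet p.darts) ?_
    intro d _
    exact cut_finite Γ n d.fst d.snd d.adj
  refine hfin.subset ?_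
  rintro X ⟨hC, hx, hy⟩
  obtain ⟨d, hd, hd1, hd2⟩ := p.exists_boundary_dart X hx hy
  exact Set.mem_biUnion hd ⟨hC, hd1, hd2⟩

theorem cross_finite {V : Type} (Γ : SimpleGraph V) (hΓ : Γ.Connected) (n : ℕ) (C : Set V)
    (hC : (bd Γ C).Finite) : {X : Set V | Cut Γ n X ∧ Crosses X C}.Finite := by
  have hfin : (⋃ e ∈ bd Γ C, ⋃ e' ∈ bd Γ C,
      {X : Set V | Cut Γ n X ∧ e.1 ∈ X ∧ e'.1 ∉ X}).Finite := by
    refine Set.Finite.biUnion hC ?_
    intro e _
    refine Set.Finite.biUnion hC ?_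
    intro e' _
    exact sep_finite Γ hΓ n e.1 e'.1
  refine hfin.subset ?_
  rintro X ⟨hX, hc1, hc2, hc3, hc4⟩
  have h1 : ∃ u v, Γ.Adj u v ∧ u ∈ X ∧ v ∈ X ∧ u ∈ C ∧ v ∉ C := by
    by_contra hcon
    push Not at hcon
    have := hX.2.2.1 (X ∩ C) Set.inter_subset_left hc1 (by
      rintro u ⟨huX, huC⟩ v hv huv
      exact ⟨hv, hcon u v huv huX hv huC⟩)
    obtain ⟨w, hw1, hw2⟩ := hc2
    rw [← this] at hw1
    exact hw2 hw1.2
  have h2 : ∃ u v, Γ.Adj u v ∧ u ∉ X ∧ v ∉ X ∧ u ∈ C ∧ v ∉ C := by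
    by_contra hcon
    push Not at hcon
    have := hX.2.2.2.1 (Xᶜ ∩ C) Set.inter_subset_left hc3 (by
      rintro u ⟨huX, huC⟩ v hv huv
      exact ⟨hv, hcon u v huv huX hv huC⟩)
    obtain ⟨w, hw1, hw2⟩ := hc4
    rw [← this] at hw1
    exact hw2 hw1.2
  obtain ⟨u, v, huv, hu, -, huC, hvC⟩ := h1
  obtain ⟨u', v', huv', hu', -, huC', hvC'⟩ := h2
  exact Set.mem_biUnion (show (u, v) ∈ bd Γ C from ⟨huv, huC, hvC⟩)
    (Set.mem_biUnion (show (u', v') ∈ bd Γ C from ⟨huv', huC', hvC'⟩) ⟨hX, hu, hu'⟩)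

end Pool.Agent.Helper485_VF
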