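import Mathlib
import Pool.Agent.Helper485_VF.Defs

set_option autoImplicit false

namespace Pool.Agent.Helper485_VF

/-! TARGET.
w ∈ Hs u l says: the reduced word of u⁻¹ w starts with the positive letter l.
 hs_mul: by closure_induction it is enough to treat m = of s and m = (of s)⁻¹, s ∈ S, s ≠ l. Right multiplication by one letter changes the first letter of a reduced word only if the word has at most one letter, and
  then the letters involved are s^±, never l. (If u⁻¹ w has reduced word (l,true) :: L then L ++ [letter], or L with its last letter removed, works; note L is followed by a letter s^± ≠ l^±, so (l,true) is never cancelled.)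
 hs_finite: for one letter c = of a or (of a)⁻¹ the set {w | w ∈ Hs u l ∧ w c ∉ Hs u l} has at most one element (u⁻¹ w = l and c = l⁻¹; the case of entering is similar), so for a product of k letters
  {w ∈ Hs, w c ∉ Hs} ⊆ ∪_i {w : w c_1…c_{i-1} ∈ Hs, w c_1…c_i ∉ Hs} has at most k elements. Induct on the word of c (FreeGroup.induction_on or a list). N depends only on c.
 hs_sep: w ∉ closure (of '' S): the reduced word of w contains a letter (l, ε) with l ∉ S, w = w1 · l^ε · w2 reduced. ε = true: u = w1: w ∈ Hs u l; 1 ∉ Hs u l since w1⁻¹ starting with l would mean that w1 ends with l⁻¹.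
  ε = false: u = w1 l⁻¹: 1 ∈ Hs u l since u⁻¹ = l w1⁻¹ is reduced; w ∉ Hs u l since u⁻¹ w = w2 does not start with l.
 FreeGroup.IsReduced, FreeGroup.toWord, FreeGroup.reduce API in Mathlib/GroupTheory/FreeGroup/{Basic,Reduce}.lean.
-/


theorem redSub {ι : Type} {L M : List (ι × Bool)} (h : FreeGroup.IsReduced M)
    (hs : ∃ s t, s ++ L ++ t = M) : FreeGroup.IsReduced L := by
  obtain ⟨s, t, rfl⟩ := hs
  exact List.IsChain.right_of_append (List.IsChain.left_of_append h)

theorem mem_Hs_iff {ι : Type} [DecidableEq ι] (u : FreeGroup ι) (l : ι) (w : FreeGroup ι) :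
    w ∈ Hs u l ↔ (u⁻¹ * w).toWord.head? = some (l, true) := by
  constructor
  · rintro ⟨L, hL, h⟩
    rw [h, FreeGroup.toWord_mk, hL.reduce_eq]
    rfl
  · intro h
    rcases hW : (u⁻¹ * w).toWord with _ | ⟨a, L⟩
    · rw [hW] at h; simp at h
    · rw [hW] at h
      simp only [List.head?_cons, Option.some.injEq] at h
      subst h
      refine ⟨L, ?_, ?_⟩
      · rw [← hW]; exact FreeGroup.isReduced_toWord
      · rw [← hW, FreeGroup.mk_toWord]

theorem toWord_step {ι : Type} [DecidableEq ι] (g : FreeGroup ι) (x : ι × Bool) :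
    ((g * FreeGroup.mk [x]).toWord = g.toWord ++ [x]) ∨
    (g.toWord = (g * FreeGroup.mk [x]).toWord ++ [(x.1, !x.2)]) := by
  have hr : FreeGroup.IsReduced g.toWord := FreeGroup.isReduced_toWord
  have hg : g * FreeGroup.mk [x] = FreeGroup.mk (g.toWord ++ [x]) := by
    rw [← FreeGroup.mul_mk, FreeGroup.mk_toWord]
  by_cases hred : FreeGroup.IsReduced (g.toWord ++ [x])
  · left
    rw [hg, FreeGroup.toWord_mk, hred.reduce_eq]
  · right
    rcases List.eq_nil_or_concat g.toWord with h0 | ⟨W, y, hW⟩
    · rw [h0] at hred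
      exact absurd (by simp) hred
    · rw [List.concat_eq_append] at hW
      have hy : y = (x.1, !x.2) := by
        by_contra hne
        apply hred
        rw [hW] at hr ⊢
        refine FreeGroup.IsReduced.append_overlap hr ?_ (by simp)
        simp only [List.cons_append, List.nil_append, FreeGroup.isReduced_cons_cons,
          FreeGroup.IsReduced.singleton, and_true]
        intro h1
        by_contra h2
        apply hne
        ext
        · exact h1
        · simp only
          cases hy2 : y.2 <;> cases hx2 : x.2 <;> simp_all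
      subst hy
      have hW' : FreeGroup.IsReduced W := redSub hr ⟨[], _, by rw [hW]; simp; rfl⟩
      rw [hg]
      rw [FreeGroup.toWord_mk]
      have h3 : FreeGroup.reduce (g.toWord ++ [x]) = W := by
        rw [hW]
        have h4 : FreeGroup.Red (W ++ [(x.1, !x.2)] ++ [x]) W := by
          apply FreeGroup.Red.Step.to_red
          have := @FreeGroup.Red.Step.not_rev ι W [] x.1 x.2
          simpa using this
        rw [FreeGroup.reduce.eq_of_red h4, hW'.reduce_eq]
      rw [h3, hW]

theorem step_pos {ι : Type} [DecidableEq ι] (g : FreeGroup ι) (s l : ι) (b : Bool)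
    (h : g.toWord.head? = some (l, true)) :
    (g * FreeGroup.mk [(s, b)]).toWord.head? = some (l, true) ∨
      ((s, b) = (l, false) ∧ g = FreeGroup.of l) := by
  rcases toWord_step g (s, b) with h1 | h1
  · left
    rw [h1]
    rcases hW : g.toWord with _ | ⟨a, L⟩
    · rw [hW] at h; simp at h
    · rw [hW] at h
      simpa using h
  · rcases hW : (g * FreeGroup.mk [(s, b)]).toWord with _ | ⟨a, L⟩
    · right
      rw [hW] at h1
      rw [h1] at h
      simp only [List.nil_append, List.head?_cons, Option.some.injEq, Prod.mk.injEq,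
        Bool.not_eq_true'] at h
      refine ⟨by ext <;> simp [h.1, h.2], ?_⟩
      apply FreeGroup.toWord_injective
      rw [h1, FreeGroup.toWord_of]
      simp [h.1, h.2]
    · left
      rw [hW] at h1
      rw [h1] at h
      simpa using h

theorem step_neg {ι : Type} [DecidableEq ι] (g : FreeGroup ι) (s l : ι) (b : Bool)
    (h : g.toWord.head? ≠ some (l, true)) :
    (g * FreeGroup.mk [(s, b)]).toWord.head? ≠ some (l, true) ∨
      ((s, b) = (l, true)) := by
  by_contra hcon
  push Not at hcon
  obtain ⟨hc1, hc2⟩ := hcon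
  have := step_pos (g * FreeGroup.mk [(s, b)]) s l (!b) hc1
  have hmul : g * FreeGroup.mk [(s, b)] * FreeGroup.mk [(s, !b)] = g := by
    rw [mul_assoc]
    have : FreeGroup.mk [(s, b)] * FreeGroup.mk [(s, !b)] = 1 := by
      rw [FreeGroup.mul_mk]
      have h4 : FreeGroup.Red.Step ([(s, b)] ++ [(s, !b)]) [] := by
        have := @FreeGroup.Red.Step.not ι [] [] s b
        simpa using this
      exact Quot.sound h4
    rw [this, mul_one]
  rw [hmul] at this
  rcases this with h1 | ⟨h1, -⟩
  · exact h h1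
  · apply hc2
    simp only [Prod.mk.injEq] at h1 ⊢
    refine ⟨h1.1, ?_⟩
    have := h1.2
    cases b <;> simp_all

theorem hs_mul {ι : Type} (S : Set ι) (u : FreeGroup ι) (l : ι) (hl : l ∉ S) (m : FreeGroup ι)
    (hm : m ∈ Subgroup.closure (FreeGroup.of '' S)) (w : FreeGroup ι) :
    w * m ∈ Hs u l ↔ w ∈ Hs u l := by
  classical
  revert w
  induction hm using Subgroup.closure_induction with
  | mem x hx =>
    obtain ⟨s, hs, rfl⟩ := hx
    have hsl : s ≠ l := by rintro rfl; exact hl hs
    intro w
    rw [mem_Hs_iff, mem_Hs_iff, ← mul_assoc]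
    constructor
    · intro h
      by_contra h2
      rcases step_neg (u⁻¹ * w) s l true h2 with h3 | h3
      · exact h3 h
      · simp only [Prod.mk.injEq, and_true] at h3
        exact hsl h3
    · intro h
      rcases step_pos (u⁻¹ * w) s l true h with h3 | ⟨h3, -⟩
      · exact h3
      · simp at h3
  | one => intro w; rw [mul_one]
  | mul x y _ _ hx hy => intro w; rw [← mul_assoc, hy, hx]
  | inv x _ hx => intro w; rw [← hx (w * x⁻¹)]; simp

theorem hs_finite {ι : Type} (c : FreeGroup ι) : ∃ N : ℕ, ∀ (u : FreeGroup ι) (l : ι),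
    {w | w ∈ Hs u l ∧ w * c ∉ Hs u l}.Finite ∧ {w | w ∈ Hs u l ∧ w * c ∉ Hs u l}.ncard ≤ N := by
  classical
  induction c using FreeGroup.induction_on with
  | C1 =>
    refine ⟨0, fun u l => ?_⟩
    have : {w | w ∈ Hs u l ∧ w * 1 ∉ Hs u l} = ∅ := by
      ext w; simp
    rw [this]; simp
  | of a =>
    refine ⟨0, fun u l => ?_⟩
    have : {w | w ∈ Hs u l ∧ w * FreeGroup.of a ∉ Hs u l} = ∅ := by
      ext w
      simp only [Set.mem_ofPred_eq, Set.mem_empty_iff_false, iff_false, not_and, not_not]
      intro h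
      rw [mem_Hs_iff] at h ⊢
      rw [← mul_assoc]
      rcases step_pos (u⁻¹ * w) a l true h with h3 | ⟨h3, -⟩
      · exact h3
      · simp at h3
    rw [this]; simp
  | inv_of a _ =>
    refine ⟨1, fun u l => ?_⟩
    have hsub : {w | w ∈ Hs u l ∧ w * (FreeGroup.of a)⁻¹ ∉ Hs u l} ⊆ {u * FreeGroup.of l} := by
      intro w hw
      obtain ⟨h, h2⟩ := hw
      rw [mem_Hs_iff] at h h2
      rw [← mul_assoc] at h2
      rcases step_pos (u⁻¹ * w) a l false h with h3 | ⟨h3, h4⟩
      · exact absurd h3 h2
      · rw [Set.mem_singleton_iff, ← h4]; group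
    refine ⟨(Set.finite_singleton _).subset hsub, ?_⟩
    calc _ ≤ ({u * FreeGroup.of l} : Set (FreeGroup ι)).ncard :=
          Set.ncard_le_ncard hsub (Set.finite_singleton _)
      _ = 1 := Set.ncard_singleton _
  | mul x y hx hy =>
    obtain ⟨N, hN⟩ := hx
    obtain ⟨M, hM⟩ := hy
    refine ⟨N + M, fun u l => ?_⟩
    obtain ⟨h1, h2⟩ := hN u l
    obtain ⟨h3, h4⟩ := hM u l
    have hsub : {w | w ∈ Hs u l ∧ w * (x * y) ∉ Hs u l} ⊆
        {w | w ∈ Hs u l ∧ w * x ∉ Hs u l} ∪
          ((fun v => v * x⁻¹) '' {w | w ∈ Hs u l ∧ w * y ∉ Hs u l}) := by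
      intro w hw
      obtain ⟨h5, h6⟩ := hw
      by_cases h7 : w * x ∈ Hs u l
      · right
        refine ⟨w * x, ⟨h7, ?_⟩, by simp⟩
        rw [mul_assoc]; exact h6
      · left; exact ⟨h5, h7⟩
    have hfin := h1.union (h3.image (fun v => v * x⁻¹))
    refine ⟨hfin.subset hsub, ?_⟩
    calc _ ≤ _ := Set.ncard_le_ncard hsub hfin
      _ ≤ _ := Set.ncard_union_le _ _
      _ ≤ N + M := add_le_add h2 ((Set.ncard_image_le h3).trans h4)

theorem mk_mem_closure {ι : Type} (S : Set ι) (L : List (ι × Bool)) (h : ∀ x ∈ L, x.1 ∈ S) :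
    FreeGroup.mk L ∈ Subgroup.closure (FreeGroup.of '' S) := by
  induction L with
  | nil => exact one_mem _
  | cons x L ih =>
    have : FreeGroup.mk (x :: L) = FreeGroup.mk [x] * FreeGroup.mk L := by
      rw [FreeGroup.mul_mk]; rfl
    rw [this]
    refine mul_mem ?_ (ih fun y hy => h y (List.mem_cons_of_mem _ hy))
    have hx : x.1 ∈ S := h x (by simp)
    obtain ⟨s, b⟩ := x
    have hs : FreeGroup.of s ∈ Subgroup.closure (FreeGroup.of '' S) :=
      Subgroup.subset_closure ⟨s, hx, rfl⟩
    cases b
    · have : FreeGroup.mk [(s, false)] = (FreeGroup.of s)⁻¹ := by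
        rw [FreeGroup.of, FreeGroup.inv_mk]; rfl
      rw [this]; exact inv_mem hs
    · exact hs

theorem hs_sep {ι : Type} (S : Set ι) (w : FreeGroup ι)
    (hw : w ∉ Subgroup.closure (FreeGroup.of '' S)) : ∃ (u : FreeGroup ι) (l : ι), l ∉ S ∧
      ((1 ∈ Hs u l ∧ w ∉ Hs u l) ∨ (1 ∉ Hs u l ∧ w ∈ Hs u l)) := by
  classical
  have h1 : ∃ x ∈ w.toWord, x.1 ∉ S := by
    by_contra hcon
    push Not at hcon
    apply hw
    rw [← FreeGroup.mk_toWord (x := w)]
    exact mk_mem_closure S _ hcon
  obtain ⟨⟨l, b⟩, hx, hlS⟩ := h1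
  obtain ⟨W1, W2, hW⟩ := List.append_of_mem hx
  have hr : FreeGroup.IsReduced w.toWord := FreeGroup.isReduced_toWord
  have hr1 : FreeGroup.IsReduced W1 := redSub hr ⟨[], _, by rw [hW]; simp; rfl⟩
  have hr2 : FreeGroup.IsReduced ((l, b) :: W2) := by
    refine redSub hr ?_
    rw [hW]
    exact ⟨W1, [], by simp⟩
  have hr3 : FreeGroup.IsReduced (W1 ++ [(l, b)]) := by
    refine redSub hr ?_
    rw [hW]
    exact ⟨[], W2, by simp⟩
  have hw' : w = FreeGroup.mk (W1 ++ (l, b) :: W2) := by rw [← hW, FreeGroup.mk_toWord]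
  cases b with
  | true =>
    refine ⟨FreeGroup.mk W1, l, hlS, Or.inr ⟨?_, ?_⟩⟩
    · rw [mem_Hs_iff, mul_one, FreeGroup.toWord_inv, FreeGroup.toWord_mk, hr1.reduce_eq]
      intro h
      rcases List.eq_nil_or_concat W1 with h0 | ⟨W, y, hWy⟩
      · rw [h0] at h; simp [FreeGroup.invRev] at h
      · rw [List.concat_eq_append] at hWy
        rw [hWy, FreeGroup.invRev_append] at h
        simp only [FreeGroup.invRev, List.map_cons, List.map_nil, List.reverse_cons,
          List.reverse_nil, List.nil_append, List.cons_append, List.head?_cons,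
          Option.some.injEq, Prod.mk.injEq, Bool.not_eq_true'] at h
        have hy : y = (l, false) := by ext <;> simp [h.1, h.2]
        subst hy
        rw [hWy] at hr3
        have h5 : FreeGroup.IsReduced [(l, false), (l, true)] := by
          refine redSub hr3 ⟨W, [], by simp⟩
        simp at h5
    · rw [mem_Hs_iff]
      have : (FreeGroup.mk W1)⁻¹ * w = FreeGroup.mk ((l, true) :: W2) := by
        rw [hw', ← FreeGroup.mul_mk]; group
      rw [this, FreeGroup.toWord_mk, hr2.reduce_eq]
      rfl
  | false =>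
    refine ⟨FreeGroup.mk (W1 ++ [(l, false)]), l, hlS, Or.inl ⟨?_, ?_⟩⟩
    · rw [mem_Hs_iff, mul_one, FreeGroup.toWord_inv, FreeGroup.toWord_mk, hr3.reduce_eq,
        FreeGroup.invRev_append]
      simp [FreeGroup.invRev]
    · rw [mem_Hs_iff]
      have : (FreeGroup.mk (W1 ++ [(l, false)]))⁻¹ * w = FreeGroup.mk W2 := by
        rw [hw']
        have : W1 ++ (l, false) :: W2 = (W1 ++ [(l, false)]) ++ W2 := by simp
        rw [this, ← FreeGroup.mul_mk (L₂ := W2), inv_mul_cancel_left]
      have hr4 : FreeGroup.IsReduced W2 := redSub hr2 ⟨[(l, false)], [], by simp⟩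
      rw [this, FreeGroup.toWord_mk, hr4.reduce_eq]
      intro h
      rcases W2 with _ | ⟨a, L⟩
      · simp at h
      · simp only [List.head?_cons, Option.some.injEq] at h
        subst h
        rw [FreeGroup.isReduced_cons_cons] at hr2
        simp at hr2

end Pool.Agent.Helper485_VF

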