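import Mathlib
import Pool.Agent.Helper485_VF.Defs
import Pool.Agent.Helper485_VF.HalfSpaces

set_option autoImplicit false

namespace Pool.Agent.Helper485_VF


/-! TARGET.
hs_hyp: f ≠ 1. Write f = v c v⁻¹ with c cyclically reduced and v ++ c ++ v⁻¹ reduced (Mathlib/GroupTheory/FreeGroup/CyclicallyReduced.lean). Let (l, ε) be the FIRST letter of c.
  ε = true: u = v: for k > 0, u⁻¹ f^k = c^k v⁻¹ is reduced as written (c ++ ... ++ c ++ v⁻¹) and starts with l. u⁻¹ f^{-k} = (c⁻¹)^k v⁻¹: c⁻¹ starts with the inverse of the last letter of c, which is not l because c is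
  cyclically reduced (if c ended with l⁻¹, c = l … l⁻¹ would not be cyclically reduced); the word (c⁻¹)^k ++ v⁻¹ is reduced (the last letter of c⁻¹ is l⁻¹, v⁻¹ must not start with l: v does not end with l⁻¹ since v ++ c is reduced).
  ε = false: apply the first case to f⁻¹ … more directly: choose for f⁻¹ = v c⁻¹ v⁻¹ the LAST letter of c⁻¹ is l; take u = v·(c⁻¹ without its last letter): u⁻¹ f^{-k} starts with l. Any correct choice of u, l is fine: it is also
  possible to argue softly: some power/axis argument with hs_sep and hs_finite. (Replacing f by f⁻¹ exchanges the two alternatives, so it is enough to find u, l when c or c⁻¹ contains a positive letter; c = c1 l c2, u = v c1 works for every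
  positive letter l of c, for the same reasons; if c has only negative letters then c⁻¹ has only positive ones.)
 malnormal: suppose m ≠ 1. Since c ∉ M := closure (of '' S), hs_sep gives u, l ∉ S with Hs u l containing exactly one of 1, c. For every k ∈ ℕ: m^k ∈ M and m^k c = c (c⁻¹ m c)^k with (c⁻¹ m c)^k ∈ M, so by hs_mul
  m^k ∈ Hs u l ↔ 1 ∈ Hs u l and m^k c ∈ Hs u l ↔ c ∈ Hs u l. So the infinitely many elements w = m^k (free groups are torsion free, m ≠ 1) all satisfy (w ∈ Hs u l, w c ∉ Hs u l) or all satisfy (w ∉, w c ∈), the second being the first for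
  w c and c⁻¹. This contradicts hs_finite.
-/

theorem hs_hyp_mem {ι : Type} (u w : FreeGroup ι) (l : ι) (L : List (ι × Bool))
    (hL : FreeGroup.IsReduced L) (h : u⁻¹ * w = FreeGroup.mk L) :
    w ∈ Hs u l ↔ ∃ L', L = (l, true) :: L' := by
  classical
  constructor
  · rintro ⟨L', hL', e⟩
    refine ⟨L', ?_⟩
    rw [h] at e
    have h1 := congrArg FreeGroup.toWord e
    rwa [FreeGroup.toWord_mk, FreeGroup.toWord_mk, hL.reduce_eq, hL'.reduce_eq] at h1
  · rintro ⟨L', rfl⟩
    exact ⟨L', hL, h⟩

theorem hs_hyp_invRev {ι : Type} {L : List (ι × Bool)} (h : FreeGroup.IsReduced L) :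
    FreeGroup.IsReduced (FreeGroup.invRev L) := by
  classical
  rw [FreeGroup.isReduced_iff_reduce_eq, FreeGroup.reduce_invRev, h.reduce_eq]

theorem hs_hyp_head {ι : Type} (L : List (ι × Bool)) :
    (FreeGroup.invRev L).head? = L.getLast?.map (fun g => (g.1, !g.2)) := by
  simp [FreeGroup.invRev]

theorem hs_hyp_cyc {ι : Type} {L : List (ι × Bool)} (h : FreeGroup.IsCyclicallyReduced L) :
    FreeGroup.IsCyclicallyReduced (FreeGroup.invRev L) := by
  refine ⟨hs_hyp_invRev h.isReduced, ?_⟩
  intro a ha b hb hab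
  have h1 : (FreeGroup.invRev L).getLast? = L.head?.map (fun g => (g.1, !g.2)) := by
    simp [FreeGroup.invRev]
  have h2 : (FreeGroup.invRev L).head? = L.getLast?.map (fun g => (g.1, !g.2)) := by
    simp [FreeGroup.invRev]
  rw [h1] at ha
  rw [h2] at hb
  obtain ⟨a', ha', rfl⟩ := Option.mem_map.1 ha
  obtain ⟨b', hb', rfl⟩ := Option.mem_map.1 hb
  have h3 := h.2 b' hb' a' ha' hab.symm
  simp only at h3 ⊢
  rw [h3]

theorem hs_hyp {ι : Type} (f : FreeGroup ι) (hf : f ≠ 1) : ∃ (u : FreeGroup ι) (l : ι),
    (∀ k : ℕ, 0 < k → f ^ k ∈ Hs u l ∧ (f⁻¹) ^ k ∉ Hs u l) ∨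
    (∀ k : ℕ, 0 < k → (f⁻¹) ^ k ∈ Hs u l ∧ f ^ k ∉ Hs u l) := by
  classical
  obtain ⟨v, hv⟩ : ∃ v, v = FreeGroup.reduceCyclically.conjugator f.toWord := ⟨_, rfl⟩
  obtain ⟨c, hc⟩ : ∃ c, c = FreeGroup.reduceCyclically f.toWord := ⟨_, rfl⟩
  have hword : v ++ c ++ FreeGroup.invRev v = f.toWord := by
    rw [hv, hc]
    exact FreeGroup.reduceCyclically.conj_conjugator_reduceCyclically _
  have hred : FreeGroup.IsReduced (v ++ c ++ FreeGroup.invRev v) := by
    rw [hword]
    exact FreeGroup.isReduced_toWord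
  have hcyc : FreeGroup.IsCyclicallyReduced c := by
    rw [hc]
    exact FreeGroup.reduceCyclically.isCyclicallyReduced FreeGroup.isReduced_toWord
  have hcyc' : FreeGroup.IsCyclicallyReduced (FreeGroup.invRev c) := hs_hyp_cyc hcyc
  have hfeq : f = FreeGroup.mk v * FreeGroup.mk c * (FreeGroup.mk v)⁻¹ := by
    rw [FreeGroup.inv_mk, FreeGroup.mul_mk, FreeGroup.mul_mk, hword, FreeGroup.mk_toWord]
  have hfinv : f⁻¹ = FreeGroup.mk v * (FreeGroup.mk c)⁻¹ * (FreeGroup.mk v)⁻¹ := by
    rw [hfeq]
    group
  -- reducedness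
  have hr1 : ∀ k : ℕ, FreeGroup.IsReduced ((List.replicate k c).flatten ++ FreeGroup.invRev v) := by
    intro k
    by_cases hk : k = 0
    · subst hk
      simp only [List.replicate_zero, List.flatten_nil, List.nil_append]
      exact redSub hred ⟨v ++ c, [], by simp⟩
    · have h1 := FreeGroup.IsReduced.append_flatten_replicate_append (L₁ := []) (L₂ := c)
        (L₃ := FreeGroup.invRev v) hcyc (redSub hred ⟨v, [], by simp⟩) hk
      simpa using h1
  have hr2 : ∀ k : ℕ, FreeGroup.IsReduced
      ((List.replicate k (FreeGroup.invRev c)).flatten ++ FreeGroup.invRev v) := by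
    intro k
    by_cases hk : k = 0
    · subst hk
      simp only [List.replicate_zero, List.flatten_nil, List.nil_append]
      exact redSub hred ⟨v ++ c, [], by simp⟩
    · have h0 : FreeGroup.IsReduced (FreeGroup.invRev (v ++ c)) :=
        hs_hyp_invRev (redSub hred ⟨[], FreeGroup.invRev v, by simp⟩)
      rw [FreeGroup.invRev_append] at h0
      have h1 := FreeGroup.IsReduced.append_flatten_replicate_append (L₁ := [])
        (L₂ := FreeGroup.invRev c)
        (L₃ := FreeGroup.invRev v) hcyc' (by simpa using h0) hk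
      simpa using h1
  rcases c with _ | ⟨⟨l, ε⟩, t⟩
  · exfalso
    apply hf
    rw [hfeq]
    have : (FreeGroup.mk ([] : List (ι × Bool))) = 1 := rfl
    rw [this]
    group
  · cases ε with
    | true =>
      refine ⟨FreeGroup.mk v, l, Or.inl fun k hk => ⟨?_, ?_⟩⟩
      · have e1 : (FreeGroup.mk v)⁻¹ * f ^ k =
            FreeGroup.mk ((List.replicate k ((l, true) :: t)).flatten ++ FreeGroup.invRev v) := by
          rw [hfeq, conj_pow, ← FreeGroup.mul_mk, ← FreeGroup.pow_mk, ← FreeGroup.inv_mk]
          group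
        rw [hs_hyp_mem _ _ _ _ (hr1 k) e1]
        obtain ⟨k', rfl⟩ := Nat.exists_eq_succ_of_ne_zero hk.ne'
        rw [List.replicate_succ, List.flatten_cons]
        exact ⟨_, rfl⟩
      · have e1 : (FreeGroup.mk v)⁻¹ * f⁻¹ ^ k =
            FreeGroup.mk ((List.replicate k (FreeGroup.invRev ((l, true) :: t))).flatten ++
              FreeGroup.invRev v) := by
          rw [hfinv, conj_pow, ← FreeGroup.mul_mk, ← FreeGroup.pow_mk, ← FreeGroup.inv_mk,
            ← FreeGroup.inv_mk]
          group
        rw [hs_hyp_mem _ _ _ _ (hr2 k) e1]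
        obtain ⟨k', rfl⟩ := Nat.exists_eq_succ_of_ne_zero hk.ne'
        rintro ⟨L', hL'⟩
        rw [List.replicate_succ, List.flatten_cons, List.append_assoc] at hL'
        have h2 : (FreeGroup.invRev ((l, true) :: t)).head? = some (l, true) := by
          have h3 : FreeGroup.invRev ((l, true) :: t) ≠ [] := by
            intro h4
            have := congrArg List.length h4
            simp [FreeGroup.invRev_length] at this
          have h5 := congrArg List.head? hL'
          rw [List.head?_append_of_ne_nil _ h3] at h5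
          simpa using h5
        have h4 : ((l, true) :: t).getLast? = some (l, false) := by
          have h5 : (FreeGroup.invRev ((l, true) :: t)).head? =
              ((l, true) :: t).getLast?.map (fun g => (g.1, !g.2)) := hs_hyp_head _
          rw [h2] at h5
          obtain ⟨g, hg1, hg2⟩ := Option.map_eq_some_iff.1 h5.symm
          rw [hg1]
          rcases g with ⟨g1, g2⟩
          simp only [Prod.mk.injEq] at hg2
          obtain ⟨rfl, hg2⟩ := hg2
          cases g2
          · rfl
          · simp at hg2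
        have h6 := hcyc.2 (l, false) h4 (l, true) (by simp) rfl
        simp at h6
    | false =>
      refine ⟨FreeGroup.mk v * (FreeGroup.mk t)⁻¹, l, Or.inr fun k hk => ⟨?_, ?_⟩⟩
      · obtain ⟨k', rfl⟩ := Nat.exists_eq_succ_of_ne_zero hk.ne'
        have e0 : FreeGroup.mk ((l, false) :: t) = FreeGroup.mk [(l, false)] * FreeGroup.mk t := by
          rw [FreeGroup.mul_mk]
          rfl
        have e00 : (FreeGroup.mk [(l, false)])⁻¹ = FreeGroup.mk [(l, true)] := by
          rw [FreeGroup.inv_mk]
          rfl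
        have e1 : (FreeGroup.mk v * (FreeGroup.mk t)⁻¹)⁻¹ * f⁻¹ ^ (k' + 1) =
            FreeGroup.mk ((l, true) :: ((List.replicate k'
              (FreeGroup.invRev ((l, false) :: t))).flatten ++ FreeGroup.invRev v)) := by
          have e2 : (l, true) :: ((List.replicate k'
              (FreeGroup.invRev ((l, false) :: t))).flatten ++ FreeGroup.invRev v) =
              [(l, true)] ++ ((List.replicate k'
              (FreeGroup.invRev ((l, false) :: t))).flatten ++ FreeGroup.invRev v) := rfl
          rw [e2, ← FreeGroup.mul_mk, ← FreeGroup.mul_mk, ← FreeGroup.pow_mk, ← FreeGroup.inv_mk,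
            ← FreeGroup.inv_mk, ← e00, hfinv, conj_pow, pow_succ', e0]
          generalize ((FreeGroup.mk [(l, false)] * FreeGroup.mk t)⁻¹) ^ k' = P
          group
        refine (hs_hyp_mem _ _ _ _ ?_ e1).2 ⟨_, rfl⟩
        have h1 := hr2 (k' + 1)
        rw [List.replicate_succ, List.flatten_cons] at h1
        have h2 : FreeGroup.invRev ((l, false) :: t) = FreeGroup.invRev t ++ [(l, true)] := by
          rw [FreeGroup.invRev_cons]
          rfl
        refine redSub h1 ⟨FreeGroup.invRev t, [], ?_⟩
        rw [h2]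
        simp
      · have e1 : (FreeGroup.mk v * (FreeGroup.mk t)⁻¹)⁻¹ * f ^ k =
            FreeGroup.mk (t ++ ((List.replicate k ((l, false) :: t)).flatten ++
              FreeGroup.invRev v)) := by
          rw [← FreeGroup.mul_mk, ← FreeGroup.mul_mk, ← FreeGroup.pow_mk, ← FreeGroup.inv_mk,
            hfeq, conj_pow]
          group
        have h1 := hr1 (k + 1)
        rw [List.replicate_succ, List.flatten_cons, List.append_assoc, List.cons_append] at h1
        rw [hs_hyp_mem _ _ _ _ (redSub h1 ⟨[(l, false)], [], by simp⟩) e1]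
        rintro ⟨L', hL'⟩
        rw [hL'] at h1
        have h2 := (FreeGroup.isReduced_cons_cons.1 h1).1 rfl
        simp at h2

theorem malnormal {ι : Type} (S : Set ι) (c m : FreeGroup ι)
    (hc : c ∉ Subgroup.closure (FreeGroup.of '' S))
    (hm : m ∈ Subgroup.closure (FreeGroup.of '' S))
    (hcm : c⁻¹ * m * c ∈ Subgroup.closure (FreeGroup.of '' S)) : m = 1 := by
  by_contra hm1
  have hinj : Function.Injective (fun k : ℕ => m ^ k) := by
    rw [injective_pow_iff_not_isOfFinOrder, isOfFinOrder_iff_eq_one]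
    exact hm1
  obtain ⟨u, l, hl, hcase⟩ := hs_sep S c hc
  have h1 : ∀ k : ℕ, m ^ k ∈ Hs u l ↔ (1 : FreeGroup ι) ∈ Hs u l := by
    intro k
    have := hs_mul S u l hl (m ^ k) (Subgroup.pow_mem _ hm k) 1
    rwa [one_mul] at this
  have h2 : ∀ k : ℕ, m ^ k * c ∈ Hs u l ↔ c ∈ Hs u l := by
    intro k
    have := hs_mul S u l hl ((c⁻¹ * m * c) ^ k) (Subgroup.pow_mem _ hcm k) c
    have e : c * (c⁻¹ * m * c) ^ k = m ^ k * c := by
      have e2 : (c⁻¹ * m * c) ^ k = c⁻¹ * m ^ k * c := by
        have := conj_pow (a := c⁻¹) (b := m) (i := k)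
        rwa [inv_inv] at this
      rw [e2]
      group
    rwa [e] at this
  rcases hcase with ⟨h3, h4⟩ | ⟨h3, h4⟩
  · obtain ⟨N, hN⟩ := hs_finite c
    refine (hN u l).1.not_infinite ((Set.infinite_range_of_injective hinj).mono ?_)
    rintro _ ⟨k, rfl⟩
    exact ⟨(h1 k).2 h3, fun h5 => h4 ((h2 k).1 h5)⟩
  · obtain ⟨N, hN⟩ := hs_finite c⁻¹
    have hinj2 : Function.Injective (fun k : ℕ => m ^ k * c) := by
      intro a b hab
      exact hinj (mul_right_cancel hab)
    refine (hN u l).1.not_infinite ((Set.infinite_range_of_injective hinj2).mono ?_)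
    rintro _ ⟨k, rfl⟩
    refine ⟨(h2 k).2 h4, fun h5 => h3 ((h1 k).1 ?_)⟩
    simpa using h5

end Pool.Agent.Helper485_VF
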