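import Mathlib
import Pool.Agent.Helper485_VF.Defs

set_option autoImplicit false

namespace Pool.Agent.Helper485_VF


theorem acyclic_of_height {V : Type} (G : SimpleGraph V) (h : V → ℕ)
    (h1 : ∀ u v, G.Adj u v → h u ≠ h v)
    (h2 : ∀ v u w, G.Adj v u → G.Adj v w → h u < h v → h w < h v → u = w) : G.IsAcyclic := by
  classical
  intro v c hc
  have hne : c.support.toFinset.Nonempty := ⟨v, by simp⟩
  obtain ⟨m, hm, hmax⟩ := Finset.exists_max_image c.support.toFinset h hne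
  have hm' : m ∈ c.support := by simpa using hm
  set c' := c.rotate m hm' with hc'
  have hcyc : c'.IsCycle := hc.rotate hm'
  have hsup : ∀ x, x ∈ c'.support → h x ≤ h m := by
    intro x hx
    refine hmax x ?_
    rw [List.mem_toFinset]
    by_cases hxm : x = m
    · subst hxm; exact hm'
    · have h5 : x ∈ c'.support.tail := by
        rw [← SimpleGraph.Walk.cons_tail_support] at hx
        rcases List.mem_cons.mp hx with h6 | h6
        · exact absurd h6 hxm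
        · exact h6
      have h6 := (c.support_rotate m hm').mem_iff.mp h5
      exact List.mem_of_mem_tail h6
  have hnn := hcyc.not_nil
  have a1 : G.Adj m c'.snd := c'.adj_snd hnn
  have a2 : G.Adj m c'.penultimate := (c'.adj_penultimate hnn).symm
  have m1 : c'.snd ∈ c'.support := List.mem_of_mem_tail (c'.snd_mem_tail_support hnn)
  have m2 : c'.penultimate ∈ c'.support :=
    List.mem_of_mem_dropLast (c'.penultimate_mem_dropLast_support hnn)
  have l1 := lt_of_le_of_ne (hsup _ m1) (h1 _ _ a1).symm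
  have l2 := lt_of_le_of_ne (hsup _ m2) (h1 _ _ a2).symm
  exact hcyc.snd_ne_penultimate (h2 m _ _ a1 a2 l1 l2)

/-- the vertices of the tree: ultrafilter-like orientations of the nested family -/
def OT {V : Type} (E : Set (Set V)) : Type :=
  {σ : Set (Set V) // σ ⊆ E ∧ (∀ C ∈ E, C ∈ σ ↔ Cᶜ ∉ σ) ∧ (∀ C ∈ σ, ∀ D ∈ E, C ⊆ D → D ∈ σ) ∧
    ∃ x, {C | C ∈ σ ∧ x ∉ C}.Finite}

theorem OT_fin {V : Type} {E : Set (Set V)} (hE : NFam E) (σ : OT E) (x : V) :
    {C | C ∈ σ.1 ∧ x ∉ C}.Finite := by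
  obtain ⟨hs, -, -, y, hy⟩ := σ.2
  refine (hy.union (hE.fin y x)).subset ?_
  rintro C ⟨hC, hx⟩
  by_cases h : y ∈ C
  · exact Or.inr ⟨hs hC, h, hx⟩
  · exact Or.inl ⟨hC, h⟩

theorem OT_diff {V : Type} {E : Set (Set V)} (hE : NFam E) (σ τ : OT E) (x : V) :
    {C | C ∈ E ∧ C ∈ σ.1 ∧ C ∉ τ.1}.Finite := by
  refine ((OT_fin hE σ x).union ((OT_fin hE τ x).image compl)).subset ?_
  rintro C ⟨hE', hC, hC'⟩
  by_cases h : x ∈ C
  · refine Or.inr ⟨Cᶜ, ⟨?_, by simpa using h⟩, by simp⟩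
    by_contra hc
    exact hC' ((τ.2.2.1 C hE').2 hc)
  · exact Or.inl ⟨hC, h⟩

/-- adjacency: differ in exactly one member -/
def OG {V : Type} (E : Set (Set V)) (hE : NFam E) : SimpleGraph (OT E) where
  Adj σ τ := ∃ C ∈ σ.1, C ∉ τ.1 ∧ ∀ D ∈ σ.1, D ∉ τ.1 → D = C
  symm := ⟨by
    rintro σ τ ⟨C, hC, hC', h⟩
    have hCE := σ.2.1 hC
    refine ⟨Cᶜ, ?_, ?_, ?_⟩
    · by_contra hc
      exact hC' ((τ.2.2.1 C hCE).2 hc)
    · exact (σ.2.2.1 C hCE).1 hC
    · intro D hD hD'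
      have hDE := τ.2.1 hD
      have h1 : Dᶜ ∈ σ.1 := by
        by_contra hc
        exact hD' ((σ.2.2.1 D hDE).2 hc)
      have h2 : Dᶜ ∉ τ.1 := (τ.2.2.1 D hDE).1 hD
      have := h _ h1 h2
      rw [← this, compl_compl]⟩
  loopless := ⟨by
    rintro σ ⟨C, hC, hC', -⟩
    exact hC' hC⟩

/-- the principal orientation -/
def OJ {V : Type} {E : Set (Set V)} (hE : NFam E) (x : V) : OT E :=
  ⟨{C | C ∈ E ∧ x ∈ C}, fun C hC => hC.1, by
    intro C hC
    constructor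
    · rintro ⟨-, h⟩ ⟨-, h'⟩
      exact h' h
    · intro h
      refine ⟨hC, ?_⟩
      by_contra hx
      exact h ⟨hE.compl C hC, hx⟩, by
    rintro C ⟨-, hx⟩ D hD hCD
    exact ⟨hD, hCD hx⟩, x, by
    have : {C | C ∈ {C | C ∈ E ∧ x ∈ C} ∧ x ∉ C} = (∅ : Set (Set V)) := by
      ext C
      simp only [Set.mem_setOf_eq, Set.mem_empty_iff_false, iff_false, not_and, not_not]
      rintro ⟨-, h⟩
      exact h
    rw [this]
    exact Set.finite_empty⟩

/-- the height -/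
noncomputable def OH {V : Type} {E : Set (Set V)} (x : V) (σ : OT E) : ℕ :=
  {C | C ∈ σ.1 ∧ x ∉ C}.ncard

theorem OG_mem {V : Type} {E : Set (Set V)} (hE : NFam E) {u v : OT E} {C : Set V}
    (hC : C ∈ u.1) (hC' : C ∉ v.1) (h : ∀ D ∈ u.1, D ∉ v.1 → D = C) (D : Set V) :
    D ∈ v.1 ↔ ((D ∈ u.1 ∧ D ≠ C) ∨ D = Cᶜ) := by
  have hCE := u.2.1 hC
  constructor
  · intro hD
    by_cases hDu : D ∈ u.1
    · left
      refine ⟨hDu, ?_⟩
      rintro rfl
      exact hC' hD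
    · right
      have hDE := v.2.1 hD
      have h1 : Dᶜ ∈ u.1 := by
        by_contra hc
        exact hDu ((u.2.2.1 D hDE).2 hc)
      have h2 : Dᶜ ∉ v.1 := (v.2.2.1 D hDE).1 hD
      have := h _ h1 h2
      rw [← this, compl_compl]
  · rintro (⟨h1, h2⟩ | rfl)
    · by_contra hc
      exact h2 (h D h1 hc)
    · by_contra hc
      exact hC' ((v.2.2.1 C hCE).2 hc)

theorem OH_lt {V : Type} {E : Set (Set V)} (hE : NFam E) (x : V) {u v : OT E} {C : Set V}
    (hC : C ∈ u.1) (hC' : C ∉ v.1) (h : ∀ D ∈ u.1, D ∉ v.1 → D = C) (hx : x ∉ C) :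
    OH x v < OH x u := by
  unfold OH
  refine Set.ncard_lt_ncard ?_ (OT_fin hE u x)
  rw [Set.ssubset_iff_of_subset]
  · exact ⟨C, ⟨hC, hx⟩, fun hc => hC' hc.1⟩
  · rintro D ⟨hD, hxD⟩
    refine ⟨?_, hxD⟩
    rcases (OG_mem hE hC hC' h D).1 hD with h1 | h1
    · exact h1.1
    · exfalso
      rw [h1] at hxD
      exact hxD hx

theorem OG_wit {V : Type} {E : Set (Set V)} (hE : NFam E) (x : V) {u v : OT E}
    (h : (OG E hE).Adj u v) (hlt : ¬ OH x u < OH x v) :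
    ∃ C ∈ u.1, C ∉ v.1 ∧ (∀ D ∈ u.1, D ∉ v.1 → D = C) ∧ x ∉ C := by
  obtain ⟨C, hC, hC', h1⟩ := h
  refine ⟨C, hC, hC', h1, ?_⟩
  intro hx
  obtain ⟨D, hD, hD', h2⟩ : (OG E hE).Adj v u := (OG E hE).adj_symm ⟨C, hC, hC', h1⟩
  have hDC : D = Cᶜ := by
    rcases (OG_mem hE hC hC' h1 D).1 hD with h3 | h3
    · exact absurd h3.1 hD'
    · exact h3
  refine hlt (OH_lt hE x hD hD' h2 ?_)
  rw [hDC]
  simpa using hx

theorem OG_min {V : Type} {E : Set (Set V)} {u v : OT E} {C : Set V}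
    (hC : C ∈ u.1) (hC' : C ∉ v.1) (h : ∀ D ∈ u.1, D ∉ v.1 → D = C) {F : Set V}
    (hF : F ∈ u.1) (hFC : F ⊆ C) : F = C := by
  by_contra hne
  have h1 : F ∈ v.1 := by
    by_contra hc
    exact hne (h F hF hc)
  exact hC' (v.2.2.2.1 F h1 C (u.2.1 hC) hFC)

theorem OG_acyclic {V : Type} {E : Set (Set V)} (hE : NFam E) (x : V) : (OG E hE).IsAcyclic := by
  refine acyclic_of_height (OG E hE) (OH x) ?_ ?_
  · intro u v h heq
    obtain ⟨C, hC, hC', h1, hx⟩ := OG_wit hE x h (by omega)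
    have := OH_lt hE x hC hC' h1 hx
    omega
  · intro v u w hu hw h1 h2
    obtain ⟨C, hC, hC', hC1, hxC⟩ := OG_wit hE x hu (by omega)
    obtain ⟨D, hD, hD', hD1, hxD⟩ := OG_wit hE x hw (by omega)
    have hCD : C = D := by
      rcases hE.nest C (v.2.1 hC) D (v.2.1 hD) with h | h | h | h
      · exact OG_min hD hD' hD1 hC h
      · exact (OG_min hC hC' hC1 hD h).symm
      · exfalso
        have h3 : C ⊆ Dᶜ := h.subset_compl_right
        have h4 : Dᶜ ∈ v.1 := v.2.2.2.1 C hC _ (hE.compl D (v.2.1 hD)) h3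
        exact (v.2.2.1 D (v.2.1 hD)).1 hD h4
      · exact absurd (h hxC) hxD
    subst hCD
    apply Subtype.ext
    ext F
    rw [OG_mem hE hC hC' hC1 F, OG_mem hE hD hD' hD1 F]

/-- flipping a minimal member -/
theorem OT_flip {V : Type} [Nonempty V] {E : Set (Set V)} (hE : NFam E) (σ : OT E) (x : V)
    (C : Set V) (hC : C ∈ σ.1) (hmin : ∀ D ∈ σ.1, D ⊆ C → D = C) :
    ∃ τ : OT E, C ∉ τ.1 ∧ ∀ D ∈ σ.1, D ∉ τ.1 → D = C := by
  have hCE := σ.2.1 hC
  have hCn : C ≠ Cᶜ := fun h => by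
    obtain ⟨y⟩ := ‹Nonempty V›
    by_cases hy : y ∈ C
    · have hy' := hy
      rw [h] at hy'
      exact hy' hy
    · exact hy (by rw [h]; exact hy)
  have key : ∀ D, D ∈ {D | D ∈ E ∧ ((D ∈ σ.1 ∧ D ≠ C) ∨ D = Cᶜ)} ↔
      (D ∈ E ∧ ((D ∈ σ.1 ∧ D ≠ C) ∨ D = Cᶜ)) := fun D => Iff.rfl
  refine ⟨⟨{D | D ∈ E ∧ ((D ∈ σ.1 ∧ D ≠ C) ∨ D = Cᶜ)}, fun D hD => hD.1, ?_, ?_, ?_⟩, ?_, ?_⟩
  · intro D hD
    rw [key, key]
    have hD' := hE.compl D hD
    by_cases h1 : D = C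
    · subst h1
      constructor
      · rintro ⟨-, h | h⟩
        · exact absurd rfl h.2
        · exact absurd h hCn
      · intro h
        exact absurd ⟨hD', Or.inr rfl⟩ h
    · by_cases h2 : D = Cᶜ
      · subst h2
        constructor
        · rintro - ⟨-, h | h⟩
          · rw [compl_compl] at h
            exact h.2 rfl
          · rw [compl_compl] at h
            exact hCn h
        · intro _
          exact ⟨hD, Or.inr rfl⟩
      · have e1 : Dᶜ ≠ C := fun h => h2 (by rw [← h, compl_compl])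
        have e2 : Dᶜ ≠ Cᶜ := fun h => h1 (compl_injective h)
        have := σ.2.2.1 D hD
        constructor
        · rintro ⟨-, h | h⟩ ⟨-, h' | h'⟩
          · exact this.1 h.1 h'.1
          · exact e2 h'
          · exact h2 h
          · exact h2 h
        · intro h
          refine ⟨hD, Or.inl ⟨?_, h1⟩⟩
          by_contra hc
          apply h
          refine ⟨hD', Or.inl ⟨?_, e1⟩⟩
          by_contra hc'
          exact hc (this.2 hc')
  · rintro F ⟨hFE, hF⟩ D hD hFD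
    refine ⟨hD, ?_⟩
    rcases hF with ⟨hF, hFC⟩ | rfl
    · left
      refine ⟨σ.2.2.2.1 F hF D hD hFD, ?_⟩
      rintro rfl
      exact hFC (hmin F hF hFD)
    · by_cases h2 : D = Cᶜ
      · exact Or.inr h2
      · left
        constructor
        · by_contra hc
          have h3 : Dᶜ ∈ σ.1 := by
            by_contra hc'
            exact hc ((σ.2.2.1 D hD).2 hc')
          have h4 : Dᶜ ⊆ C := by
            rw [Set.compl_subset_comm]
            exact hFD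
          have := hmin _ h3 h4
          exact h2 (by rw [← this, compl_compl])
        · rintro rfl
          obtain ⟨y, hy⟩ := hE.ne _ hFE
          exact hy (hFD hy)
  · refine ⟨x, ((OT_fin hE σ x).union (Set.finite_singleton Cᶜ)).subset ?_⟩
    rintro D ⟨⟨-, h | h⟩, hx⟩
    · exact Or.inl ⟨h.1, hx⟩
    · exact Or.inr h
  · rintro ⟨-, h | h⟩
    · exact h.2 rfl
    · exact hCn h
  · intro D hD hD'
    by_contra hne
    exact hD' ⟨σ.2.1 hD, Or.inl ⟨hD, hne⟩⟩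

theorem OG_reach {V : Type} [Nonempty V] {E : Set (Set V)} (hE : NFam E) (x : V) :
    ∀ (n : ℕ) (σ : OT E), OH x σ = n → (OG E hE).Reachable σ (OJ hE x) := by
  intro n
  induction n using Nat.strong_induction_on with
  | _ n ih =>
    intro σ hσ
    by_cases hS : {C | C ∈ σ.1 ∧ x ∉ C}.Nonempty
    · obtain ⟨C, hCm⟩ := (OT_fin hE σ x).exists_minimal hS
      have hC : C ∈ σ.1 := hCm.prop.1
      have hxC : x ∉ C := hCm.prop.2
      have hmin : ∀ D ∈ σ.1, D ⊆ C → D = C := by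
        intro D hD hDC
        have h1 : D ∈ {C | C ∈ σ.1 ∧ x ∉ C} := ⟨hD, fun h => hxC (hDC h)⟩
        exact Set.Subset.antisymm hDC (hCm.le_of_le h1 hDC)
      obtain ⟨τ, h1, h2⟩ := OT_flip hE σ x C hC hmin
      have hlt := OH_lt hE x hC h1 h2 hxC
      have hadj : (OG E hE).Adj σ τ := ⟨C, hC, h1, h2⟩
      exact hadj.reachable.trans (ih (OH x τ) (by omega) τ rfl)
    · have : σ = OJ hE x := by
        apply Subtype.ext
        ext C
        constructor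
        · intro hC
          refine ⟨σ.2.1 hC, ?_⟩
          by_contra hx
          exact hS ⟨C, hC, hx⟩
        · rintro ⟨hC, hx⟩
          by_contra hc
          have h1 : Cᶜ ∈ σ.1 := by
            by_contra hc'
            exact hc ((σ.2.2.1 C hC).2 hc')
          exact hS ⟨Cᶜ, h1, fun h => h hx⟩
      rw [this]

theorem OG_tree {V : Type} [Nonempty V] {E : Set (Set V)} (hE : NFam E) : (OG E hE).IsTree := by
  obtain ⟨x⟩ := ‹Nonempty V›
  have : Nonempty V := ⟨x⟩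
  have hne : Nonempty (OT E) := ⟨OJ hE x⟩
  refine ⟨?_, OG_acyclic hE x⟩
  refine ⟨fun u v => ?_⟩
  exact (OG_reach hE x _ u rfl).trans (OG_reach hE x _ v rfl).symm

open Pointwise in
/-- the action on orientations -/
@[reducible] def OA {G V : Type} [Group G] [MulAction G V] {E : Set (Set V)}
    (hG : ∀ g : G, ∀ C ∈ E, g • C ∈ E) : MulAction G (OT E) where
  smul g σ := ⟨{C | g⁻¹ • C ∈ σ.1}, by
    intro C hC
    have := hG g _ (σ.2.1 hC)
    rwa [smul_inv_smul] at this, by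
    intro C hC
    have := σ.2.2.1 (g⁻¹ • C) (hG g⁻¹ C hC)
    simp only [Set.mem_setOf_eq, Set.smul_set_compl]
    exact this, by
    intro C hC D hD hCD
    exact σ.2.2.2.1 _ hC _ (hG g⁻¹ D hD) (Set.smul_set_mono hCD), by
    obtain ⟨x, hx⟩ := σ.2.2.2.2
    refine ⟨g • x, (hx.image (fun C => g • C)).subset ?_⟩
    rintro C ⟨hC, hxC⟩
    refine ⟨g⁻¹ • C, ⟨hC, ?_⟩, smul_inv_smul g C⟩
    intro h
    exact hxC (by rwa [Set.mem_inv_smul_set_iff] at h)⟩
  one_smul σ := by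
    apply Subtype.ext
    ext C
    change (1 : G)⁻¹ • C ∈ σ.1 ↔ C ∈ σ.1
    simp
  mul_smul a b σ := by
    apply Subtype.ext
    ext C
    change (a * b)⁻¹ • C ∈ σ.1 ↔ b⁻¹ • (a⁻¹ • C) ∈ σ.1
    rw [mul_inv_rev, mul_smul]

/-! TARGET.
exists_tree. T := {σ : Set (Set V) // σ ⊆ E ∧ (∀ C ∈ E, C ∈ σ ↔ Cᶜ ∉ σ) ∧ (∀ C ∈ σ, ∀ D ∈ E, C ⊆ D → D ∈ σ) ∧ ∃ x, {C | C ∈ σ ∧ x ∉ C}.Finite},
 j x := {C ∈ E | x ∈ C}, s C := {σ | C ∈ σ}, g • σ := image of σ under the images by g (E is invariant under g and g⁻¹, so E is permuted),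
 Adj σ τ := ∃ C ∈ σ, C ∉ τ ∧ ∀ D ∈ σ, D ∉ τ → D = C (symmetric: use complements; then τ = σ \ {C} ∪ {Cᶜ}).
 For σ ∈ T and ANY x the set {C ∈ σ | x ∉ C} is finite (hE.fin), so for σ, τ ∈ T the set {C ∈ E | C ∈ σ, C ∉ τ} is finite.
 IsTree: fix x0, height h σ = ncard {C ∈ σ | x0 ∉ C}. The set {C ∈ σ | x0 ∉ C} is a chain: for C, D in it, C ⊆ D or D ⊆ C (Disjoint C D gives C ⊆ Dᶜ, so Dᶜ ∈ σ, no; Cᶜ ⊆ D gives x0 ∈ D, no).
 If h σ > 0 its least element C is minimal in σ (if D ∈ σ, D ⊆ C, D ≠ C then x0 ∉ D, contradiction to least), flipping it gives σ' = σ \ {C} ∪ {Cᶜ} ∈ T, adjacent, of height h σ - 1; h = 0 iff σ = j x0. So the graph is connected.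
 Acyclic: use the lemma Pool.Agent.Helper73.acyclic_of_height of the starting tree (file Helper73/Cayley.lean, copy the statement and proof, it is 35 lines): neighbours have different heights
 (they differ by flipping one C, the height changes by one) and a vertex has at most one lower neighbour (it is obtained by flipping a C ∈ σ with x0 ∉ C which is minimal in σ, and two such are comparable).
 Flipping C ∈ σ gives an element of T iff C is minimal in σ: upward closure of σ' = σ \ {C} ∪ {Cᶜ}: for D ∈ E with Cᶜ ⊆ D, D ≠ Cᶜ: Dᶜ ⊊ C so Dᶜ ∉ σ, D ∈ σ, D ≠ C (else Cᶜ ⊆ C, C = univ, Cᶜ = ∅ but members are nonempty).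
 Members of E are nonempty with nonempty complement.
-/

theorem exists_tree {G V : Type} [Group G] [MulAction G V] [Nonempty V] (E : Set (Set V))
    (hE : NFam E) (hG : ∀ g : G, ∀ C ∈ E, (fun x => g • x) '' C ∈ E) :
    ∃ (T : Type) (_ : MulAction G T) (Λ : SimpleGraph T) (j : V → T) (s : Set V → Set T),
      Λ.IsTree ∧ (∀ (g : G) (u v : T), Λ.Adj u v → Λ.Adj (g • u) (g • v)) ∧
      (∀ (g : G) (x : V), j (g • x) = g • j x) ∧
      (∀ C ∈ E, ∀ x : V, j x ∈ s C ↔ x ∈ C) ∧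
      (∀ g : G, ∀ C ∈ E, ∀ t : T, g • t ∈ s ((fun x => g • x) '' C) ↔ t ∈ s C) ∧
      (∀ u v : T, {C | C ∈ E ∧ u ∈ s C ∧ v ∉ s C}.Finite) ∧
      (∀ u v : T, Λ.Adj u v → ∃ C ∈ E, (u ∈ s C ∧ v ∉ s C) ∧
        ∀ D ∈ E, u ∈ s D → v ∉ s D → D = C) := by
  have hG' : ∀ g : G, ∀ C ∈ E, (letI := Set.smulSet (α := G) (β := V); g • C) ∈ E := hG
  letI := Set.smulSet (α := G) (β := V)
  letI act : MulAction G (OT E) := OA hG'
  have hmem : ∀ (g : G) (σ : OT E) (C : Set V), C ∈ (g • σ).1 ↔ g⁻¹ • C ∈ σ.1 := fun _ _ _ => Iff.rfl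
  have hinv : ∀ (g : G) (C : Set V), g⁻¹ • (g • C) = C := by
    intro g C
    letI := Set.mulActionSet (α := G) (β := V)
    exact inv_smul_smul g C
  have hinv' : ∀ (g : G) (C : Set V), g • (g⁻¹ • C) = C := by
    intro g C
    letI := Set.mulActionSet (α := G) (β := V)
    exact smul_inv_smul g C
  obtain ⟨x0⟩ := ‹Nonempty V›
  have hne : Nonempty V := ⟨x0⟩
  refine ⟨OT E, act, OG E hE, OJ hE, fun C => {σ | C ∈ σ.1}, OG_tree hE, ?_, ?_, ?_, ?_, ?_, ?_⟩
  · rintro g u v ⟨C, hC, hC', h⟩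
    refine ⟨g • C, ?_, ?_, ?_⟩
    · rw [hmem, hinv]; exact hC
    · rw [hmem, hinv]; exact hC'
    · intro D hD hD'
      rw [hmem] at hD hD'
      rw [← h _ hD hD', hinv']
  · intro g x
    apply Subtype.ext
    ext C
    rw [hmem]
    change (C ∈ E ∧ g • x ∈ C) ↔ (g⁻¹ • C ∈ E ∧ x ∈ g⁻¹ • C)
    rw [Set.mem_inv_smul_set_iff]
    constructor
    · rintro ⟨h1, h2⟩
      exact ⟨hG' g⁻¹ C h1, h2⟩
    · rintro ⟨h1, h2⟩
      have := hG' g _ h1
      rw [hinv'] at this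
      exact ⟨this, h2⟩
  · intro C hC x
    change (C ∈ E ∧ x ∈ C) ↔ x ∈ C
    exact ⟨fun h => h.2, fun h => ⟨hC, h⟩⟩
  · intro g C hC t
    change g⁻¹ • (g • C) ∈ t.1 ↔ C ∈ t.1
    rw [hinv]
  · intro u v
    exact OT_diff hE u v x0
  · rintro u v ⟨C, hC, hC', h⟩
    exact ⟨C, u.2.1 hC, ⟨hC, hC'⟩, fun D _ h1 h2 => h D h1 h2⟩


end Pool.Agent.Helper485_VF

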