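import Mathlib
import Pool.Agent.Helper485_VF.Defs
import Pool.Agent.Helper485_VF.Cuts

set_option autoImplicit false

namespace Pool.Agent.Helper485_VF


/-! ### Auxiliary notions for the nested family -/

section NF
variable {V : Type}

/-- size of the boundary -/
noncomputable def nfsz (Γ : SimpleGraph V) (C : Set V) : ℕ := (bd Γ C).ncard

/-- cuts crossing `C` -/
def nfCr (Γ : SimpleGraph V) (n : ℕ) (C : Set V) : Set (Set V) := {X | Cut Γ n X ∧ Crosses X C}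

/-- number of cuts crossing `C` -/
noncomputable def nfm (Γ : SimpleGraph V) (n : ℕ) (C : Set V) : ℕ := (nfCr Γ n C).ncard

/-- `C` separates the two ultrafilters -/
def nfSp (Γ : SimpleGraph V) (ω ω' : Ultrafilter V) (C : Set V) : Prop :=
  (bd Γ C).Finite ∧ C ∈ ω ∧ C ∉ ω'

/-- optimal separating sets -/
def nfOpt (Γ : SimpleGraph V) (n : ℕ) (ω ω' : Ultrafilter V) (C : Set V) : Prop :=
  nfSp Γ ω ω' C ∧ nfsz Γ C ≤ n ∧ (∀ D, nfSp Γ ω ω' D → nfsz Γ C ≤ nfsz Γ D) ∧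
    ∀ D, nfSp Γ ω ω' D → nfsz Γ D = nfsz Γ C → nfm Γ n C ≤ nfm Γ n D

theorem nf_bd_compl (Γ : SimpleGraph V) (C : Set V) : bd Γ Cᶜ = Prod.swap '' bd Γ C := by
  ext ⟨u, v⟩
  simp only [bd, Set.mem_setOf_eq, Set.mem_compl_iff, not_not, Set.mem_image, Prod.exists,
    Prod.swap_prod_mk, Prod.mk.injEq]
  constructor
  · rintro ⟨h1, h2, h3⟩
    exact ⟨v, u, ⟨h1.symm, h3, h2⟩, rfl, rfl⟩
  · rintro ⟨a, b, ⟨h1, h2, h3⟩, rfl, rfl⟩
    exact ⟨h1.symm, h3, h2⟩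

theorem nf_sz_compl (Γ : SimpleGraph V) (C : Set V) : nfsz Γ Cᶜ = nfsz Γ C := by
  unfold nfsz
  rw [nf_bd_compl, Set.ncard_image_of_injective _ Prod.swap_injective]

theorem nf_fin_compl {Γ : SimpleGraph V} {C : Set V} (h : (bd Γ C).Finite) :
    (bd Γ Cᶜ).Finite := by
  rw [nf_bd_compl]; exact h.image _

theorem nf_crosses_compl (X C : Set V) : Crosses X Cᶜ ↔ Crosses X C := by
  unfold Crosses
  rw [compl_compl]
  tauto

theorem nf_crosses_compl_left (X C : Set V) : Crosses Xᶜ C ↔ Crosses X C := by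
  unfold Crosses
  rw [compl_compl]
  tauto

theorem nf_crosses_symm (X C : Set V) (h : Crosses X C) : Crosses C X := by
  unfold Crosses at h ⊢
  rw [Set.inter_comm C X, Set.inter_comm C Xᶜ, Set.inter_comm Cᶜ X, Set.inter_comm Cᶜ Xᶜ]
  tauto

theorem nf_m_compl (Γ : SimpleGraph V) (n : ℕ) (C : Set V) : nfm Γ n Cᶜ = nfm Γ n C := by
  unfold nfm nfCr
  congr 1
  ext X
  simp only [Set.mem_setOf_eq, nf_crosses_compl]

theorem nf_Sp_compl {Γ : SimpleGraph V} {ω ω' : Ultrafilter V} {C : Set V}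
    (h : nfSp Γ ω ω' C) : nfSp Γ ω' ω Cᶜ := by
  obtain ⟨h1, h2, h3⟩ := h
  exact ⟨nf_fin_compl h1, Ultrafilter.compl_mem_iff_notMem.2 h3,
    fun h => Ultrafilter.compl_mem_iff_notMem.1 h h2⟩

theorem nf_Opt_compl {Γ : SimpleGraph V} {n : ℕ} {ω ω' : Ultrafilter V} {C : Set V}
    (h : nfOpt Γ n ω ω' C) : nfOpt Γ n ω' ω Cᶜ := by
  obtain ⟨h1, h2, h3, h4⟩ := h
  refine ⟨nf_Sp_compl h1, by rw [nf_sz_compl]; exact h2, fun D hD => ?_, fun D hD hs => ?_⟩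
  · rw [nf_sz_compl, ← nf_sz_compl Γ D]
    exact h3 _ (nf_Sp_compl hD)
  · rw [nf_m_compl, ← nf_m_compl Γ n D]
    apply h4 _ (nf_Sp_compl hD)
    rw [nf_sz_compl, hs, nf_sz_compl]

/-- the boundary of a proper nonempty set of a connected graph is nonempty -/
theorem nf_bd_nonempty {Γ : SimpleGraph V} (hΓ : Γ.Connected) {Y : Set V} (h1 : Y.Nonempty)
    (h2 : Yᶜ.Nonempty) : (bd Γ Y).Nonempty := by
  by_contra hcon
  rw [Set.not_nonempty_iff_eq_empty] at hcon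
  obtain ⟨x, hx⟩ := h1
  obtain ⟨y, hy⟩ := h2
  have key : ∀ (u v : V) (p : Γ.Walk u v), u ∈ Y → v ∈ Y := by
    intro u v p
    induction p with
    | nil => exact id
    | cons h p ih =>
      intro hu
      apply ih
      by_contra hv
      have : ((_, _) : V × V) ∈ bd Γ Y := ⟨h, hu, hv⟩
      rw [hcon] at this
      exact this
  obtain ⟨p⟩ := hΓ.preconnected x y
  exact hy (key x y p hx)

/-- (2) -/
theorem nf_conn {Γ : SimpleGraph V} (hΓ : Γ.Connected) {n : ℕ} {ω ω' : Ultrafilter V} {C : Set V}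
    (h : nfOpt Γ n ω ω' C) : Conn Γ C := by
  intro Y hYC hY hcl
  by_contra hne
  set Z : Set V := C \ Y with hZ
  have hZne : Z.Nonempty := by
    rw [hZ, Set.diff_nonempty]
    intro hsub
    exact hne (Set.Subset.antisymm hYC hsub)
  obtain ⟨y, hy⟩ := hY
  obtain ⟨z, hz⟩ := hZne
  have hbY : bd Γ Y ⊆ bd Γ C := by
    rintro ⟨u, v⟩ ⟨h1, h2, h3⟩
    exact ⟨h1, hYC h2, fun h4 => h3 (hcl u h2 v h4 h1)⟩
  have hbZ : bd Γ Z ⊆ bd Γ C := by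
    rintro ⟨u, v⟩ ⟨h1, h2, h3⟩
    refine ⟨h1, h2.1, fun h4 => ?_⟩
    by_cases h5 : v ∈ Y
    · exact h2.2 (hcl v h5 u h2.1 h1.symm)
    · exact h3 ⟨h4, h5⟩
  have hfin := h.1.1
  have hneY : (bd Γ Y).Nonempty := nf_bd_nonempty hΓ ⟨y, hy⟩ ⟨z, hz.2⟩
  have hneZ : (bd Γ Z).Nonempty := nf_bd_nonempty hΓ ⟨z, hz⟩ ⟨y, fun h => h.2 hy⟩
  have hun : C = Y ∪ Z := by rw [hZ, Set.union_diff_cancel hYC]
  have hω : Y ∈ ω ∨ Z ∈ ω := by
    have := h.1.2.1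
    rw [hun] at this
    exact Ultrafilter.union_mem_iff.1 this
  have hω' : ∀ K : Set V, K ⊆ C → K ∉ ω' := fun K hK hK' =>
    h.1.2.2 (Filter.mem_of_superset hK' hK)
  rcases hω with hK | hK
  · have h1 := h.2.2.1 Y ⟨hfin.subset hbY, hK, hω' Y hYC⟩
    obtain ⟨e, he⟩ := hneZ
    have h2 : (bd Γ Y).ncard < (bd Γ C).ncard := by
      apply Set.ncard_lt_ncard _ hfin
      rw [Set.ssubset_iff_of_subset hbY]
      exact ⟨e, hbZ he, fun h3 => he.2.1.2 h3.2.1⟩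
    exact absurd h1 (not_le.2 h2)
  · have h1 := h.2.2.1 Z ⟨hfin.subset hbZ, hK, hω' Z Set.diff_subset⟩
    obtain ⟨e, he⟩ := hneY
    have h2 : (bd Γ Z).ncard < (bd Γ C).ncard := by
      apply Set.ncard_lt_ncard _ hfin
      rw [Set.ssubset_iff_of_subset hbZ]
      exact ⟨e, hbY he, fun h3 => h3.2.1.2 he.2.1⟩
    exact absurd h1 (not_le.2 h2)

theorem nf_nonempty {ω : Ultrafilter V} {C : Set V} (h : C ∈ ω) : C.Nonempty :=
  Filter.nonempty_of_mem (f := (ω : Filter V)) h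

theorem nf_cut {Γ : SimpleGraph V} (hΓ : Γ.Connected) {n : ℕ} {ω ω' : Ultrafilter V} {C : Set V}
    (h : nfOpt Γ n ω ω' C) : Cut Γ n C := by
  have h' := nf_Opt_compl h
  exact ⟨nf_nonempty h.1.2.1, nf_nonempty h'.1.2.1, nf_conn hΓ h, nf_conn hΓ h', h.1.1, h.2.1⟩

/-- (3) -/
theorem nf_sub {Γ : SimpleGraph V} {C D : Set V} (hC : (bd Γ C).Finite) (hD : (bd Γ D).Finite) :
    (bd Γ (C ∩ D)).Finite ∧ (bd Γ (C ∪ D)).Finite ∧
      nfsz Γ (C ∩ D) + nfsz Γ (C ∪ D) ≤ nfsz Γ C + nfsz Γ D := by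
  have h1 : bd Γ (C ∩ D) ∪ bd Γ (C ∪ D) ⊆ bd Γ C ∪ bd Γ D := by
    rintro ⟨u, v⟩ (⟨a1, a2, a3⟩ | ⟨a1, a2, a3⟩)
    · by_cases h : v ∈ C
      · exact Or.inr ⟨a1, a2.2, fun h' => a3 ⟨h, h'⟩⟩
      · exact Or.inl ⟨a1, a2.1, h⟩
    · rcases a2 with a2 | a2
      · exact Or.inl ⟨a1, a2, fun h => a3 (Or.inl h)⟩
      · exact Or.inr ⟨a1, a2, fun h => a3 (Or.inr h)⟩
  have h2 : bd Γ (C ∩ D) ∩ bd Γ (C ∪ D) ⊆ bd Γ C ∩ bd Γ D := by
    rintro ⟨u, v⟩ ⟨⟨a1, a2, _⟩, ⟨_, _, b3⟩⟩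
    exact ⟨⟨a1, a2.1, fun h => b3 (Or.inl h)⟩, ⟨a1, a2.2, fun h => b3 (Or.inr h)⟩⟩
  have hf : (bd Γ C ∪ bd Γ D).Finite := hC.union hD
  have hf1 : (bd Γ (C ∩ D)).Finite := hf.subset (Set.subset_union_left.trans h1)
  have hf2 : (bd Γ (C ∪ D)).Finite := hf.subset (Set.subset_union_right.trans h1)
  refine ⟨hf1, hf2, ?_⟩
  unfold nfsz
  rw [← Set.ncard_union_add_ncard_inter _ _ hf1 hf2, ← Set.ncard_union_add_ncard_inter _ _ hC hD]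
  exact add_le_add (Set.ncard_le_ncard h1 hf) (Set.ncard_le_ncard h2 (hC.inter_of_left _))

theorem nf_not_crosses {X C : Set V} (h : ¬ Crosses X C) :
    (∀ v, v ∈ X → v ∉ C) ∨ (∀ v, v ∈ X → v ∈ C) ∨ (∀ v, v ∉ X → v ∉ C) ∨
      (∀ v, v ∉ X → v ∈ C) := by
  by_contra hcon
  push Not at hcon
  obtain ⟨⟨a, a1, a2⟩, ⟨b, b1, b2⟩, ⟨c, c1, c2⟩, ⟨d, d1, d2⟩⟩ := hcon
  exact h ⟨⟨a, a1, a2⟩, ⟨b, b1, b2⟩, ⟨c, c1, c2⟩, ⟨d, d1, d2⟩⟩

theorem nf_cr_union {C D X : Set V} (hCD : Crosses C D)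
    (h : Crosses X (C ∩ D) ∨ Crosses X (C ∪ D)) : Crosses X C ∨ Crosses X D := by
  by_contra hcon
  push Not at hcon
  obtain ⟨h1, h2⟩ := hcon
  have h1' := nf_not_crosses h1
  have h2' := nf_not_crosses h2
  obtain ⟨⟨p1, p1C, p1D⟩, ⟨p2, p2C, p2D⟩, ⟨p3, p3C, p3D⟩, ⟨p4, p4C, p4D⟩⟩ := hCD
  rcases h with h | h
  · obtain ⟨⟨q1, q1X, q1C, q1D⟩, ⟨q2, q2X, q2C⟩, ⟨q3, q3X, q3C, q3D⟩, ⟨q4, q4X, q4C⟩⟩ := h
    simp only [Set.mem_compl_iff, Set.mem_inter_iff, not_and] at *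
    rcases h1' with h1' | h1' | h1' | h1' <;> rcases h2' with h2' | h2' | h2' | h2' <;> grind
  · obtain ⟨⟨q1, q1X, q1C⟩, ⟨q2, q2X, q2C⟩, ⟨q3, q3X, q3C⟩, ⟨q4, q4X, q4C⟩⟩ := h
    simp only [Set.mem_compl_iff, Set.mem_union, not_or] at *
    rcases h1' with h1' | h1' | h1' | h1' <;> rcases h2' with h2' | h2' | h2' | h2' <;> grind

theorem nf_cr_inter {C D X : Set V} (h : Crosses X (C ∩ D)) (h' : Crosses X (C ∪ D)) :
    Crosses X C ∧ Crosses X D := by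
  obtain ⟨⟨q1, q1X, q1C, q1D⟩, _, ⟨q3, q3X, q3C, q3D⟩, _⟩ := h
  obtain ⟨_, ⟨r2, r2X, r2C⟩, _, ⟨r4, r4X, r4C⟩⟩ := h'
  simp only [Set.mem_compl_iff, Set.mem_union, not_or] at r2C r4C
  exact ⟨⟨⟨q1, q1X, q1C⟩, ⟨r2, r2X, r2C.1⟩, ⟨q3, q3X, q3C⟩, ⟨r4, r4X, r4C.1⟩⟩,
    ⟨⟨q1, q1X, q1D⟩, ⟨r2, r2X, r2C.2⟩, ⟨q3, q3X, q3D⟩, ⟨r4, r4X, r4C.2⟩⟩⟩

/-- (4) -/
theorem nf_m_lt {Γ : SimpleGraph V} (hΓ : Γ.Connected) {n : ℕ} {C D : Set V}
    (hC : Cut Γ n C) (hDf : (bd Γ D).Finite) (hCD : Crosses C D) :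
    nfm Γ n (C ∩ D) + nfm Γ n (C ∪ D) < nfm Γ n C + nfm Γ n D := by
  have hCf : (bd Γ C).Finite := hC.2.2.2.2.1
  obtain ⟨hf1, hf2, _⟩ := nf_sub hCf hDf
  have f1 : (nfCr Γ n (C ∩ D)).Finite := cross_finite Γ hΓ n _ hf1
  have f2 : (nfCr Γ n (C ∪ D)).Finite := cross_finite Γ hΓ n _ hf2
  have f3 : (nfCr Γ n C).Finite := cross_finite Γ hΓ n _ hCf
  have f4 : (nfCr Γ n D).Finite := cross_finite Γ hΓ n _ hDf
  unfold nfm
  rw [← Set.ncard_union_add_ncard_inter _ _ f1 f2, ← Set.ncard_union_add_ncard_inter _ _ f3 f4]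
  have h1 : nfCr Γ n (C ∩ D) ∪ nfCr Γ n (C ∪ D) ⊂ nfCr Γ n C ∪ nfCr Γ n D := by
    rw [Set.ssubset_iff_of_subset]
    · refine ⟨C, Or.inr ⟨hC, hCD⟩, ?_⟩
      rintro (⟨_, h⟩ | ⟨_, h⟩)
      · obtain ⟨_, _, ⟨v, hv1, hv2⟩, _⟩ := h
        exact hv1 hv2.1
      · obtain ⟨_, ⟨v, hv1, hv2⟩, _, _⟩ := h
        exact hv2 (Or.inl hv1)
    · rintro X (⟨hX, h⟩ | ⟨hX, h⟩)
      · rcases nf_cr_union hCD (Or.inl h) with h' | h'
        · exact Or.inl ⟨hX, h'⟩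
        · exact Or.inr ⟨hX, h'⟩
      · rcases nf_cr_union hCD (Or.inr h) with h' | h'
        · exact Or.inl ⟨hX, h'⟩
        · exact Or.inr ⟨hX, h'⟩
  have h2 : nfCr Γ n (C ∩ D) ∩ nfCr Γ n (C ∪ D) ⊆ nfCr Γ n C ∩ nfCr Γ n D := by
    rintro X ⟨⟨hX, h⟩, ⟨_, h'⟩⟩
    have := nf_cr_inter h h'
    exact ⟨⟨hX, this.1⟩, ⟨hX, this.2⟩⟩
  exact add_lt_add_of_lt_of_le (Set.ncard_lt_ncard h1 (f3.union f4))
    (Set.ncard_le_ncard h2 (f3.inter_of_left _))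

/-- `K` is not better than `C` -/
def nfDom (Γ : SimpleGraph V) (n : ℕ) (C K : Set V) : Prop :=
  nfsz Γ C ≤ nfsz Γ K ∧ (nfsz Γ K = nfsz Γ C → nfm Γ n C ≤ nfm Γ n K)

theorem nf_dom {Γ : SimpleGraph V} {n : ℕ} {ω ω' : Ultrafilter V} {C K : Set V}
    (h : nfOpt Γ n ω ω' C) (hK : nfSp Γ ω ω' K ∨ nfSp Γ ω' ω K) : nfDom Γ n C K := by
  rcases hK with hK | hK
  · exact ⟨h.2.2.1 K hK, h.2.2.2 K hK⟩
  · have hK' := nf_Sp_compl hK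
    have h1 := h.2.2.1 _ hK'
    have h2 := h.2.2.2 _ hK'
    rw [nf_sz_compl] at h1 h2
    rw [nf_m_compl] at h2
    exact ⟨h1, h2⟩

theorem nf_dom_compl {Γ : SimpleGraph V} {n : ℕ} {C K : Set V} (h : nfDom Γ n C K) :
    nfDom Γ n C Kᶜ := by
  unfold nfDom at h ⊢
  rw [nf_sz_compl, nf_m_compl]; exact h

theorem nf_dom_compl' {Γ : SimpleGraph V} {n : ℕ} {C K : Set V} (h : nfDom Γ n C K) :
    nfDom Γ n Cᶜ K := by
  unfold nfDom at h ⊢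
  rw [nf_sz_compl, nf_m_compl]; exact h

/-- the key contradiction -/
theorem nf_key {Γ : SimpleGraph V} (hΓ : Γ.Connected) {n : ℕ} {C D : Set V}
    (hC : Cut Γ n C) (hDf : (bd Γ D).Finite) (hCD : Crosses C D) (h1 : nfDom Γ n C (C ∩ D))
    (h2 : nfDom Γ n D (C ∪ D)) : False := by
  obtain ⟨_, _, h3⟩ := nf_sub hC.2.2.2.2.1 hDf
  have h4 := nf_m_lt hΓ hC hDf hCD
  obtain ⟨a1, a2⟩ := h1
  obtain ⟨b1, b2⟩ := h2
  have a3 := a2 (by omega)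
  have b3 := b2 (by omega)
  omega

theorem nf_cut_compl {Γ : SimpleGraph V} {n : ℕ} {C : Set V} (h : Cut Γ n C) : Cut Γ n Cᶜ := by
  obtain ⟨h1, h2, h3, h4, h5, h6⟩ := h
  refine ⟨h2, by rwa [compl_compl], h4, by rwa [compl_compl], nf_fin_compl h5, ?_⟩
  have := nf_sz_compl Γ C
  unfold nfsz at this
  rw [this]; exact h6

/-- the key contradiction for opposite corners, one dominated by `C`, the other one by `D` -/
theorem nf_key4 {Γ : SimpleGraph V} (hΓ : Γ.Connected) {n : ℕ} {C D : Set V}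
    (hC : Cut Γ n C) (hDf : (bd Γ D).Finite) (hCD : Crosses C D) :
    ¬ (nfDom Γ n C (C ∩ D) ∧ nfDom Γ n D (Cᶜ ∩ Dᶜ)) ∧
    ¬ (nfDom Γ n C (Cᶜ ∩ Dᶜ) ∧ nfDom Γ n D (C ∩ D)) ∧
    ¬ (nfDom Γ n C (C ∩ Dᶜ) ∧ nfDom Γ n D (Cᶜ ∩ D)) ∧
    ¬ (nfDom Γ n C (Cᶜ ∩ D) ∧ nfDom Γ n D (C ∩ Dᶜ)) := by
  refine ⟨?_, ?_, ?_, ?_⟩
  · rintro ⟨h1, h2⟩
    refine nf_key hΓ hC hDf hCD h1 ?_
    have := nf_dom_compl h2
    rwa [← Set.compl_union, compl_compl] at this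
  · rintro ⟨h1, h2⟩
    refine nf_key hΓ (nf_cut_compl hC) (nf_fin_compl hDf) (D := Dᶜ) ?_ (nf_dom_compl' h1) ?_
    · rw [nf_crosses_compl, nf_crosses_compl_left]; exact hCD
    · have := nf_dom_compl (nf_dom_compl' h2)
      rwa [Set.compl_inter] at this
  · rintro ⟨h1, h2⟩
    refine nf_key hΓ hC (nf_fin_compl hDf) (D := Dᶜ) ?_ h1 ?_
    · rw [nf_crosses_compl]; exact hCD
    · have := nf_dom_compl (nf_dom_compl' h2)
      rwa [Set.compl_inter, compl_compl] at this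
  · rintro ⟨h1, h2⟩
    refine nf_key hΓ (nf_cut_compl hC) hDf ?_ (nf_dom_compl' h1) ?_
    · rw [nf_crosses_compl_left]; exact hCD
    · have := nf_dom_compl h2
      rwa [Set.compl_inter, compl_compl] at this

/-- (5) -/
theorem nf_nested {Γ : SimpleGraph V} (hΓ : Γ.Connected) {n : ℕ} {ω1 ω2 ω3 ω4 : Ultrafilter V}
    {C D : Set V} (hC : nfOpt Γ n ω1 ω2 C) (hD : nfOpt Γ n ω3 ω4 D) : ¬ Crosses C D := by
  intro hCD
  have hCcut := nf_cut hΓ hC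
  have hDcut := nf_cut hΓ hD
  have hCf := hC.1.1
  have hDf := hD.1.1
  obtain ⟨k1, k2, k3, k4⟩ := nf_key4 hΓ hCcut hDf hCD
  have C1 : C ∈ ω1 := hC.1.2.1
  have C2 : Cᶜ ∈ ω2 := Ultrafilter.compl_mem_iff_notMem.2 hC.1.2.2
  have D3 : D ∈ ω3 := hD.1.2.1
  have D4 : Dᶜ ∈ ω4 := Ultrafilter.compl_mem_iff_notMem.2 hD.1.2.2
  have hsup : ∀ {ω : Ultrafilter V} {K L : Set V}, K ⊆ L → L ∉ ω → K ∉ ω :=
    fun hKL hL hK => hL (Filter.mem_of_superset hK hKL)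
  have C2n : C ∉ ω2 := hC.1.2.2
  have C1n : Cᶜ ∉ ω1 := fun h => Ultrafilter.compl_mem_iff_notMem.1 h C1
  have D4n : D ∉ ω4 := hD.1.2.2
  have D3n : Dᶜ ∉ ω3 := fun h => Ultrafilter.compl_mem_iff_notMem.1 h D3
  -- finiteness of the boundaries of the corners
  have f1 : (bd Γ (C ∩ D)).Finite := (nf_sub hCf hDf).1
  have f2 : (bd Γ (C ∩ Dᶜ)).Finite := (nf_sub hCf (nf_fin_compl hDf)).1
  have f3 : (bd Γ (Cᶜ ∩ D)).Finite := (nf_sub (nf_fin_compl hCf) hDf).1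
  have f4 : (bd Γ (Cᶜ ∩ Dᶜ)).Finite := (nf_sub (nf_fin_compl hCf) (nf_fin_compl hDf)).1
  have inter : ∀ {ω : Ultrafilter V} {K L : Set V}, K ∈ ω → L ∈ ω → K ∩ L ∈ ω :=
    fun hK hL => Filter.inter_mem hK hL
  have cm : ∀ {ω : Ultrafilter V} {K : Set V}, K ∉ ω → Kᶜ ∈ ω :=
    fun h => Ultrafilter.compl_mem_iff_notMem.2 h
  -- which corners split which pairs
  have A1 : ∀ L : Set V, L ∈ ω1 → (bd Γ (C ∩ L)).Finite → nfDom Γ n C (C ∩ L) := fun L hL hf =>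
    nf_dom hC (Or.inl ⟨hf, inter C1 hL, hsup Set.inter_subset_left C2n⟩)
  have A2 : ∀ L : Set V, L ∈ ω2 → (bd Γ (Cᶜ ∩ L)).Finite → nfDom Γ n C (Cᶜ ∩ L) := fun L hL hf =>
    nf_dom hC (Or.inr ⟨hf, inter C2 hL, hsup Set.inter_subset_left C1n⟩)
  have B1 : ∀ L : Set V, L ∈ ω3 → (bd Γ (L ∩ D)).Finite → nfDom Γ n D (L ∩ D) := fun L hL hf =>
    nf_dom hD (Or.inl ⟨hf, inter hL D3, hsup Set.inter_subset_right D4n⟩)
  have B2 : ∀ L : Set V, L ∈ ω4 → (bd Γ (L ∩ Dᶜ)).Finite → nfDom Γ n D (L ∩ Dᶜ) := fun L hL hf =>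
    nf_dom hD (Or.inr ⟨hf, inter hL D4, hsup Set.inter_subset_right D3n⟩)
  -- the case where both sets split both pairs
  have both : (D ∈ ω1 ∧ D ∉ ω2 ∨ D ∉ ω1 ∧ D ∈ ω2) → (C ∈ ω3 ∧ C ∉ ω4 ∨ C ∉ ω3 ∧ C ∈ ω4) →
      nfsz Γ C = nfsz Γ D ∧ nfm Γ n C = nfm Γ n D := by
    intro hd hc
    have e1 : nfDom Γ n C D := by
      apply nf_dom hC
      rcases hd with ⟨h1, h2⟩ | ⟨h1, h2⟩
      · exact Or.inl ⟨hDf, h1, h2⟩
      · exact Or.inr ⟨hDf, h2, h1⟩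
    have e2 : nfDom Γ n D C := by
      apply nf_dom hD
      rcases hc with ⟨h1, h2⟩ | ⟨h1, h2⟩
      · exact Or.inl ⟨hCf, h1, h2⟩
      · exact Or.inr ⟨hCf, h2, h1⟩
    obtain ⟨a1, a2⟩ := e1
    obtain ⟨b1, b2⟩ := e2
    have e3 : nfsz Γ C = nfsz Γ D := le_antisymm a1 b1
    exact ⟨e3, le_antisymm (a2 e3.symm) (b2 e3)⟩
  have conv : ∀ K : Set V, (nfsz Γ C = nfsz Γ D ∧ nfm Γ n C = nfm Γ n D) → nfDom Γ n C K →
      nfDom Γ n D K := by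
    rintro K ⟨h1, h2⟩ h3
    unfold nfDom at h3 ⊢
    rw [← h1, ← h2]; exact h3
  by_cases a : D ∈ ω1 <;> by_cases b : D ∈ ω2 <;> by_cases c : C ∈ ω3 <;> by_cases d : C ∈ ω4
  · exact k4 ⟨A2 D b f3, B2 C d f2⟩
  · exact k1 ⟨A1 D a f1, B2 Cᶜ (cm d) f4⟩
  · exact k4 ⟨A2 D b f3, B2 C d f2⟩
  · exact k1 ⟨A1 D a f1, B2 Cᶜ (cm d) f4⟩
  · exact k2 ⟨A2 Dᶜ (cm b) f4, B1 C c f1⟩
  · exact k1 ⟨A1 D a f1, B2 Cᶜ (cm d) f4⟩
  · exact k1 ⟨A1 D a f1, conv _ (both (Or.inl ⟨a, b⟩) (Or.inr ⟨c, d⟩)) (A2 Dᶜ (cm b) f4)⟩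
  · exact k1 ⟨A1 D a f1, B2 Cᶜ (cm d) f4⟩
  · exact k4 ⟨A2 D b f3, B2 C d f2⟩
  · exact k3 ⟨A1 Dᶜ (cm a) f2, conv _ (both (Or.inr ⟨a, b⟩) (Or.inl ⟨c, d⟩)) (A2 D b f3)⟩
  · exact k4 ⟨A2 D b f3, B2 C d f2⟩
  · exact k3 ⟨A1 Dᶜ (cm a) f2, B1 Cᶜ (cm c) f3⟩
  · exact k2 ⟨A2 Dᶜ (cm b) f4, B1 C c f1⟩
  · exact k2 ⟨A2 Dᶜ (cm b) f4, B1 C c f1⟩
  · exact k3 ⟨A1 Dᶜ (cm a) f2, B1 Cᶜ (cm c) f3⟩
  · exact k3 ⟨A1 Dᶜ (cm a) f2, B1 Cᶜ (cm c) f3⟩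

/-! ### Automorphisms -/

theorem nf_bd_image {Γ : SimpleGraph V} (π : Equiv.Perm V)
    (hπ : ∀ u v, Γ.Adj (π u) (π v) ↔ Γ.Adj u v) (C : Set V) :
    bd Γ (π '' C) = Prod.map π π '' bd Γ C := by
  ext ⟨u, v⟩
  obtain ⟨u, rfl⟩ := π.surjective u
  obtain ⟨v, rfl⟩ := π.surjective v
  have hmem : ∀ (w : V) (S : Set V), π w ∈ π '' S ↔ w ∈ S := fun w S =>
    π.injective.mem_set_image
  constructor
  · rintro ⟨h1, h2, h3⟩
    exact ⟨(u, v), ⟨(hπ u v).1 h1, (hmem u C).1 h2, fun h => h3 ((hmem v C).2 h)⟩, rfl⟩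
  · rintro ⟨⟨a, b⟩, ⟨h1, h2, h3⟩, h4⟩
    have h5 : π a = π u := congrArg Prod.fst h4
    have h6 : π b = π v := congrArg Prod.snd h4
    have ha := π.injective h5
    have hb := π.injective h6
    subst ha hb
    exact ⟨(hπ _ _).2 h1, (hmem _ C).2 h2, fun h => h3 ((hmem _ C).1 h)⟩

theorem nf_sz_image {Γ : SimpleGraph V} (π : Equiv.Perm V)
    (hπ : ∀ u v, Γ.Adj (π u) (π v) ↔ Γ.Adj u v) (C : Set V) :
    nfsz Γ (π '' C) = nfsz Γ C := by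
  unfold nfsz
  rw [nf_bd_image π hπ, Set.ncard_image_of_injective _ (π.injective.prodMap π.injective)]

theorem nf_fin_image {Γ : SimpleGraph V} (π : Equiv.Perm V)
    (hπ : ∀ u v, Γ.Adj (π u) (π v) ↔ Γ.Adj u v) {C : Set V} (h : (bd Γ C).Finite) :
    (bd Γ (π '' C)).Finite := by
  rw [nf_bd_image π hπ]; exact h.image _

theorem nf_conn_image {Γ : SimpleGraph V} (π : Equiv.Perm V)
    (hπ : ∀ u v, Γ.Adj (π u) (π v) ↔ Γ.Adj u v) {X : Set V} (h : Conn Γ X) :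
    Conn Γ (π '' X) := by
  intro Y hY hne hcl
  have h1 : π ⁻¹' Y = X := by
    apply h
    · intro v hv
      obtain ⟨w, hw, hw'⟩ := hY hv
      rwa [← π.injective hw']
    · obtain ⟨y, hy⟩ := hne
      obtain ⟨x, rfl⟩ := π.surjective y
      exact ⟨x, hy⟩
    · intro u hu v hv huv
      exact hcl (π u) hu (π v) (Set.mem_image_of_mem π hv) ((hπ u v).2 huv)
  rw [← h1, Set.image_preimage_eq _ π.surjective]

theorem nf_cut_image {Γ : SimpleGraph V} (π : Equiv.Perm V)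
    (hπ : ∀ u v, Γ.Adj (π u) (π v) ↔ Γ.Adj u v) {n : ℕ} {X : Set V} (h : Cut Γ n X) :
    Cut Γ n (π '' X) := by
  obtain ⟨h1, h2, h3, h4, h5, h6⟩ := h
  have hc : (π '' X)ᶜ = π '' Xᶜ := (Set.image_compl_eq π.bijective).symm
  refine ⟨h1.image π, ?_, nf_conn_image π hπ h3, ?_, nf_fin_image π hπ h5, ?_⟩
  · rw [hc]; exact h2.image π
  · rw [hc]; exact nf_conn_image π hπ h4
  · have := nf_sz_image π hπ X
    unfold nfsz at this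
    rw [this]; exact h6

theorem nf_crosses_image (π : Equiv.Perm V) {X C : Set V} (h : Crosses X C) :
    Crosses (π '' X) (π '' C) := by
  unfold Crosses at h ⊢
  rw [← Set.image_compl_eq π.bijective, ← Set.image_compl_eq π.bijective,
    ← Set.image_inter π.injective, ← Set.image_inter π.injective, ← Set.image_inter π.injective,
    ← Set.image_inter π.injective]
  exact ⟨h.1.image π, h.2.1.image π, h.2.2.1.image π, h.2.2.2.image π⟩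

theorem nf_inv {Γ : SimpleGraph V} {π : Equiv.Perm V}
    (hπ : ∀ u v, Γ.Adj (π u) (π v) ↔ Γ.Adj u v) :
    ∀ u v, Γ.Adj (π.symm u) (π.symm v) ↔ Γ.Adj u v := by
  intro u v
  rw [← hπ (π.symm u) (π.symm v), Equiv.apply_symm_apply, Equiv.apply_symm_apply]

theorem nf_cr_image {Γ : SimpleGraph V} (π : Equiv.Perm V)
    (hπ : ∀ u v, Γ.Adj (π u) (π v) ↔ Γ.Adj u v) (n : ℕ) (C : Set V) :
    nfCr Γ n (π '' C) = (fun X => π '' X) '' nfCr Γ n C := by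
  ext X
  constructor
  · rintro ⟨h1, h2⟩
    refine ⟨π.symm '' X, ⟨nf_cut_image π.symm (nf_inv hπ) h1, ?_⟩, ?_⟩
    · have := nf_crosses_image π.symm h2
      rwa [← Set.image_comp, show (π.symm ∘ π : V → V) = id from by funext x; simp,
        Set.image_id] at this
    · show π '' (π.symm '' X) = X
      rw [← Set.image_comp, show (π ∘ π.symm : V → V) = id from by funext x; simp, Set.image_id]
  · rintro ⟨Y, ⟨h1, h2⟩, rfl⟩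
    exact ⟨nf_cut_image π hπ h1, nf_crosses_image π h2⟩

theorem nf_m_image {Γ : SimpleGraph V} (π : Equiv.Perm V)
    (hπ : ∀ u v, Γ.Adj (π u) (π v) ↔ Γ.Adj u v) (n : ℕ) (C : Set V) :
    nfm Γ n (π '' C) = nfm Γ n C := by
  unfold nfm
  rw [nf_cr_image π hπ, Set.ncard_image_of_injective]
  exact Set.image_injective.2 π.injective

theorem nf_mem_map (π : Equiv.Perm V) (ω : Ultrafilter V) (C : Set V) :
    π '' C ∈ ω.map π ↔ C ∈ ω := by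
  rw [Ultrafilter.mem_map, Set.preimage_image_eq _ π.injective]

/-- (7) -/
theorem nf_Opt_image {Γ : SimpleGraph V} (π : Equiv.Perm V)
    (hπ : ∀ u v, Γ.Adj (π u) (π v) ↔ Γ.Adj u v) {n : ℕ} {ω ω' : Ultrafilter V} {C : Set V}
    (h : nfOpt Γ n ω ω' C) : nfOpt Γ n (ω.map π) (ω'.map π) (π '' C) := by
  obtain ⟨⟨h0, h0', h0''⟩, h2, h3, h4⟩ := h
  have hback : ∀ D : Set V, nfSp Γ (ω.map π) (ω'.map π) D →
      ∃ D' : Set V, D = π '' D' ∧ nfSp Γ ω ω' D' := by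
    rintro D ⟨d1, d2, d3⟩
    refine ⟨π ⁻¹' D, (Set.image_preimage_eq _ π.surjective).symm, ?_, ?_, ?_⟩
    · have := nf_fin_image π.symm (nf_inv hπ) d1
      rwa [Equiv.image_symm_eq_preimage] at this
    · exact Ultrafilter.mem_map.1 d2
    · exact fun h => d3 (Ultrafilter.mem_map.2 h)
  refine ⟨⟨nf_fin_image π hπ h0, (nf_mem_map π ω C).2 h0', fun h => h0'' ((nf_mem_map π ω' C).1 h)⟩,
    by rw [nf_sz_image π hπ]; exact h2, ?_, ?_⟩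
  · intro D hD
    obtain ⟨D', rfl, hD'⟩ := hback D hD
    rw [nf_sz_image π hπ, nf_sz_image π hπ]
    exact h3 D' hD'
  · intro D hD hs
    obtain ⟨D', rfl, hD'⟩ := hback D hD
    rw [nf_sz_image π hπ, nf_sz_image π hπ] at hs
    rw [nf_m_image π hπ, nf_m_image π hπ]
    exact h4 D' hD' hs

/-- (8) -/
theorem nf_exists {Γ : SimpleGraph V} {n : ℕ} {ω ω' : Ultrafilter V} {U : Set V}
    (hU : nfSp Γ ω ω' U) (hn : nfsz Γ U ≤ n) : ∃ C, nfOpt Γ n ω ω' C := by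
  classical
  have e1 : ∃ k, ∃ C, nfSp Γ ω ω' C ∧ nfsz Γ C = k := ⟨_, U, hU, rfl⟩
  obtain ⟨C1, hC1, hC1'⟩ := Nat.find_spec e1
  have hmin : ∀ D, nfSp Γ ω ω' D → Nat.find e1 ≤ nfsz Γ D := fun D hD =>
    Nat.find_min' e1 ⟨D, hD, rfl⟩
  have e2 : ∃ k, ∃ C, nfSp Γ ω ω' C ∧ nfsz Γ C = Nat.find e1 ∧ nfm Γ n C = k :=
    ⟨_, C1, hC1, hC1', rfl⟩
  obtain ⟨C2, hC2, hC2', hC2''⟩ := Nat.find_spec e2
  refine ⟨C2, hC2, ?_, ?_, ?_⟩
  · rw [hC2']; exact (hmin U hU).trans hn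
  · intro D hD
    rw [hC2']; exact hmin D hD
  · intro D hD hs
    rw [hC2'']
    exact Nat.find_min' e2 ⟨D, hD, by rw [hs, hC2'], rfl⟩

end NF

/-! TARGET.
nested_family. Put Sp ω ω' C := (bd Γ C).Finite ∧ C ∈ ω ∧ C ∉ ω', sz C := (bd Γ C).ncard, Cr C := {X | Cut Γ n X ∧ Crosses X C}, m C := (Cr C).ncard (finite if bd C is finite, by cross_finite).
 Opt ω ω' C := Sp ω ω' C ∧ sz C ≤ n ∧ (∀ D, Sp ω ω' D → sz C ≤ sz D) ∧ (∀ D, Sp ω ω' D → sz D = sz C → m C ≤ m D).   E := {C | ∃ ω ω', Opt ω ω' C}.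
 Facts. (1) bd Cᶜ is the swap of bd C; m Cᶜ = m C; Sp ω ω' C ↔ Sp ω' ω Cᶜ (ultrafilters). So E is closed under complements; members are nonempty.
 (2) C of minimal size in Sp ω ω' is Conn, and Cᶜ too: if Y ⊂ C is proper, nonempty, without edges to C \ Y then bd C ⊇ bd Y ⊔ bd (C \ Y) disjointly; both are nonempty (Γ connected);
  Y ∈ ω or C \ Y ∈ ω, that part still satisfies Sp and is smaller. So members of E are Cut Γ n.
 (3) sz (C ∩ D) + sz (C ∪ D) ≤ sz C + sz D for finite boundaries: use ncard_union_add_ncard_inter, bd (C ∩ D) ∪ bd (C ∪ D) ⊆ bd C ∪ bd D,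
  bd (C ∩ D) ∩ bd (C ∪ D) ⊆ bd C ∩ bd D.
 (4) if C, D are Cut n and cross then m (C ∩ D) + m (C ∪ D) < m C + m D: Cr (C ∩ D) ∪ Cr (C ∪ D) ⊆ Cr C ∪ Cr D (if X crosses neither C nor D, then, C and D crossing each other,
  X or Xᶜ lies in a corner C^± ∩ D^±, so X crosses no corner), Cr (C ∩ D) ∩ Cr (C ∪ D) ⊆ Cr C ∩ Cr D (if X does not cross C, one of X, Xᶜ is inside C or Cᶜ, hence disjoint from one of the two
  opposite corners), and C ∈ Cr D is in neither Cr (C ∩ D) nor Cr (C ∪ D).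
 (5) nestedness: not nested = Crosses. Let Opt ω1 ω2 C, Opt ω3 ω4 D, Crosses C D. For a corner K write K splits (ω,ω') if exactly one of K ∈ ω, K ∈ ω' holds; then K or Kᶜ satisfies Sp.
  KEY: if K, K' are opposite corners (K = C ∩ D and K' = Cᶜ ∩ Dᶜ, or K = C ∩ Dᶜ and K' = Cᶜ ∩ D), K splits (ω1,ω2), K' splits (ω3,ω4), then False: sz K ≥ sz C, sz K' ≥ sz D and (3)
  give equalities, optimality gives m K ≥ m C, m K' ≥ m D, contradicting (4) (use (3),(4) for the pair C, D or C, Dᶜ; sz and m are invariant under complements).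
  Let A1, A2 be the corners containing ω1, ω2 (A1 ⊆ C, A2 ⊆ Cᶜ), B1, B2 the corners containing ω3, ω4 (B1 ⊆ D, B2 ⊆ Dᶜ). A1, A2 split (ω1,ω2); B1, B2 split (ω3,ω4).
  Booleans a = (D ∈ ω1), b = (D ∈ ω2), c = (C ∈ ω3), d = (C ∈ ω4). If ¬a ∧ ¬c, or a ∧ ¬d, or ¬b ∧ c, or b ∧ d, some Ai is opposite to some Bj: KEY. Otherwise (a,b,c,d) = (T,F,F,T) or (F,T,T,F):
  then D splits (ω1,ω2) and C splits (ω3,ω4), so sz C = sz D, m C = m D, and the opposite corners A1, A2 both split (ω1,ω2), so both have sz ≥ sz C, m ≥ m C when sz equal, again contradicting (3), (4).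
 (6) finitely many members separate x from y: sep_finite. (7) invariance under automorphisms π: Ultrafilter.map π; sz, m, Sp transport; do it for π and π⁻¹.
 (8) existence: given ω, ω', U with sz U ≤ n choose C with minimal sz, then minimal m (Nat.find / exists_minimal / WellFounded.min).
-/

theorem nested_family {V : Type} (Γ : SimpleGraph V) (hΓ : Γ.Connected) (n : ℕ) :
    ∃ E : Set (Set V), NFam E ∧ (∀ C ∈ E, (bd Γ C).Finite) ∧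
      (∀ π : Equiv.Perm V, (∀ u v, Γ.Adj (π u) (π v) ↔ Γ.Adj u v) → ∀ C ∈ E, π '' C ∈ E) ∧
      (∀ (ω ω' : Ultrafilter V) (U : Set V), (bd Γ U).Finite → (bd Γ U).ncard ≤ n → U ∈ ω →
        U ∉ ω' → ∃ C ∈ E, C ∈ ω ∧ C ∉ ω') := by
  refine ⟨{C | ∃ ω ω', nfOpt Γ n ω ω' C}, ⟨?_, ?_, ?_, ?_⟩, ?_, ?_, ?_⟩
  · rintro C ⟨ω, ω', h⟩
    exact nf_nonempty h.1.2.1
  · rintro C ⟨ω, ω', h⟩
    exact ⟨ω', ω, nf_Opt_compl h⟩
  · rintro C ⟨ω1, ω2, hC⟩ D ⟨ω3, ω4, hD⟩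
    have h := nf_not_crosses (nf_nested hΓ hC hD)
    rcases h with h | h | h | h
    · right; right; left
      exact Set.disjoint_left.2 h
    · left; exact h
    · right; left
      intro v hv
      by_contra hcon
      exact h v hcon hv
    · right; right; right
      exact h
  · intro x y
    apply (sep_finite Γ hΓ n x y).subset
    rintro C ⟨⟨ω, ω', h⟩, hx, hy⟩
    exact ⟨nf_cut hΓ h, hx, hy⟩
  · rintro C ⟨ω, ω', h⟩
    exact h.1.1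
  · rintro π hπ C ⟨ω, ω', h⟩
    exact ⟨_, _, nf_Opt_image π hπ h⟩
  · intro ω ω' U h1 h2 h3 h4
    obtain ⟨C, hC⟩ := nf_exists (Γ := Γ) (n := n) (ω := ω) (ω' := ω') ⟨h1, h3, h4⟩ h2
    exact ⟨C, ⟨ω, ω', hC⟩, hC.1.2.1, hC.1.2.2⟩

end Pool.Agent.Helper485_VF
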