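import Mathlib
import Pool.Agent.Helper485_VF.Defs
import Pool.Agent.Helper485_VF.Nested
import Pool.Agent.Helper485_VF.NTree
import Pool.Agent.Helper485_VF.Hyp

set_option autoImplicit false

namespace Pool.Agent.Helper485_VF


/-! TARGET.
M := closure (of '' S); p x represents a coset p(x) M, and p(f x) M = e(f) p(x) M. For u, l with l ∉ S put U := {x | p x ∈ Hs u l}; by hs_mul, for f ∈ F: f x ∈ U ↔ e f * p x ∈ Hs u l.
 UNIFORM BOUND: there is n with (bd Γ U).Finite, ncard ≤ n for all u and all l ∉ S: an element (x,y) of bd U is (f q.1, f q.2) with f ∈ F, q ∈ P (hcov), and then w = e f * p q.1 satisfies w ∈ Hs u l and w * c_q ∉ Hs u l,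
  c_q := (p q.1)⁻¹ * p q.2. By hs_finite at most N(c_q) such w, and f is determined by w (e injective). n := Σ_{q ∈ P} N(c_q).
 Apply nested_family with this n to get E, and exists_tree to E and G (Γ is G-invariant; image under g : use the permutation MulAction.toPerm g). Get T, Λ, j, s.
 F is torsion free (embeds in a free group). STAB: if f ∈ F, f ≠ 1, C ∈ E then f '' C ≠ C, and the sets f^k '' C, k ∈ ℕ, are pairwise different: if f^k '' C = C with k > 0, f^k permutes the finite set bd Γ C, nonempty because Γ is connected and C ≠ ∅, Cᶜ ≠ ∅;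
  so some power f^{km}, m > 0, fixes an edge, so f^{km} = 1 by hfree, so f = 1.
 Edge stabilisers: if f u = u, f v = v, Λ.Adj u v: the C ∈ E with u ∈ s C, v ∉ s C is unique, f '' C has the same property, so f '' C = C, so f = 1.
 Separation: if (p x)⁻¹ * p y ∉ M, hs_sep for w = (p x)⁻¹ p y gives u, l; with u' = p x * u the set U of (u', l) contains exactly one of x, y. Apply the ultrafilter property of E to the principal ultrafilters (pure x, pure y, or exchanged): some C ∈ E contains exactly one of x, y, so j x ≠ j y.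
 Hyperbolicity (S = ∅, M = ⊥, so p (f x) = e f * p x): let f ∈ F, f ≠ 1, f t = t for a t ∈ T. Take any x ∈ V, g = p x, and apply hs_hyp to g⁻¹ * e f * g ≠ 1: get u, l; U := set of (g u, l). First alternative (the second is the same with f⁻¹): f^k x ∈ U, f^{-k} x ∉ U for k > 0. Let ω be an ultrafilter
  containing all tails {f^k x | k ≥ K} (Ultrafilter.of (Filter.map (fun k : ℕ => f^k • x) Filter.atTop)), ω' the same for f⁻¹. U ∈ ω, U ∉ ω', so there is C ∈ E with C ∈ ω, C ∉ ω'. Hence f^k x ∈ C for infinitely many k, f^{-k} x ∉ C for infinitely many k. If t ∈ s C: for those k, f^{-k} j x ∉ s C and f^{-k} t = t ∈ s C; so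
  j x ∉ s (f^k '' C), t ∈ s (f^k '' C) for infinitely many k, infinitely many different sets by STAB, contradiction to the finiteness of {C ∈ E | t ∈ s C, j x ∉ s C}. If t ∉ s C: for infinitely many k, f^k j x ∈ s C, f^k t ∉ s C, so j x ∈ s (f^{-k} '' C), t ∉ s (f^{-k} '' C): same contradiction.
-/

namespace VF5

theorem hs_trans {ι : Type} (g u w : FreeGroup ι) (l : ι) : g * w ∈ Hs (g * u) l ↔ w ∈ Hs u l := by
  unfold Hs
  have h : (g * u)⁻¹ * (g * w) = u⁻¹ * w := by group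
  simp only [Set.mem_setOf_eq, h]

section

variable {G V ι : Type} [Group G] [MulAction G V] {F : Subgroup G} {e : F →* FreeGroup ι}
  {S : Set ι} {Γ : SimpleGraph V} {p : V → FreeGroup ι}

/-- the preimage of a half-space -/
def UU (p : V → FreeGroup ι) (u : FreeGroup ι) (l : ι) : Set V := {x | p x ∈ Hs u l}

theorem mem_UU_smul (hp : ∀ (f : F) (x : V), (p ((f : G) • x))⁻¹ * (e f * p x) ∈
      Subgroup.closure (FreeGroup.of '' S)) {u : FreeGroup ι} {l : ι} (hl : l ∉ S) (f : F) (x : V) :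
    (f : G) • x ∈ UU p u l ↔ e f * p x ∈ Hs u l := by
  have h1 := hs_mul S u l hl _ (hp f x) (p ((f : G) • x))
  rw [mul_inv_cancel_left] at h1
  exact h1.symm

theorem bound (he : Function.Injective e)
    (hp : ∀ (f : F) (x : V), (p ((f : G) • x))⁻¹ * (e f * p x) ∈
      Subgroup.closure (FreeGroup.of '' S))
    (P : Set (V × V)) (hP : P.Finite)
    (hcov : ∀ x y, Γ.Adj x y → ∃ f ∈ F, ∃ q ∈ P, x = f • q.1 ∧ y = f • q.2) :
    ∃ n : ℕ, ∀ (u : FreeGroup ι) (l : ι), l ∉ S →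
      (bd Γ (UU p u l)).Finite ∧ (bd Γ (UU p u l)).ncard ≤ n := by
  classical
  choose N hN using fun c : FreeGroup ι => hs_finite c
  refine ⟨∑ q ∈ hP.toFinset, N ((p q.1)⁻¹ * p q.2), fun u l hl => ?_⟩
  let W : V × V → Set (FreeGroup ι) := fun q =>
    {w | w ∈ Hs u l ∧ w * ((p q.1)⁻¹ * p q.2) ∉ Hs u l}
  let φ : V × V → FreeGroup ι → V × V := fun q w =>
    if h : ∃ f : F, e f * p q.1 = w then ((h.choose : G) • q.1, (h.choose : G) • q.2) else q
  have hφ : ∀ (q : V × V) (f : F), φ q (e f * p q.1) = ((f : G) • q.1, (f : G) • q.2) := by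
    intro q f
    have h : ∃ f' : F, e f' * p q.1 = e f * p q.1 := ⟨f, rfl⟩
    have h1 : h.choose = f := he (mul_right_cancel h.choose_spec)
    change (if h : ∃ f' : F, e f' * p q.1 = e f * p q.1 then
      ((h.choose : G) • q.1, (h.choose : G) • q.2) else q) = _
    rw [dif_pos h, h1]
  have hW : ∀ q, (W q).Finite ∧ (W q).ncard ≤ N ((p q.1)⁻¹ * p q.2) := fun q => hN _ u l
  let A : V × V → Finset (V × V) := fun q => ((hW q).1.image (φ q)).toFinset
  have hA : ∀ q, (A q).card ≤ N ((p q.1)⁻¹ * p q.2) := by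
    intro q
    have h1 : (A q).card = (φ q '' W q).ncard := by
      rw [Set.ncard_eq_toFinset_card _ ((hW q).1.image (φ q))]
    rw [h1]
    exact (Set.ncard_image_le (hW q).1).trans (hW q).2
  have hsub : bd Γ (UU p u l) ⊆ ((hP.toFinset.biUnion A : Finset (V × V)) : Set (V × V)) := by
    rintro ⟨x, y⟩ ⟨h1, h2, h3⟩
    obtain ⟨f, hf, q, hq, hx, hy⟩ := hcov x y h1
    change x ∈ UU p u l at h2
    change y ∉ UU p u l at h3
    rw [hx] at h2
    rw [hy] at h3
    have h4 := (mem_UU_smul hp hl ⟨f, hf⟩ q.1).1 h2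
    have h5 : e ⟨f, hf⟩ * p q.2 ∉ Hs u l := fun h => h3 ((mem_UU_smul hp hl ⟨f, hf⟩ q.2).2 h)
    rw [Finset.mem_coe, Finset.mem_biUnion]
    refine ⟨q, hP.mem_toFinset.2 hq, ?_⟩
    rw [Set.Finite.mem_toFinset]
    refine ⟨e ⟨f, hf⟩ * p q.1, ⟨h4, ?_⟩, ?_⟩
    · have h6 : e ⟨f, hf⟩ * p q.1 * ((p q.1)⁻¹ * p q.2) = e ⟨f, hf⟩ * p q.2 := by group
      rw [h6]
      exact h5
    · rw [hφ, hx, hy]
  refine ⟨(Finset.finite_toSet _).subset hsub, ?_⟩
  calc (bd Γ (UU p u l)).ncard ≤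
      ((hP.toFinset.biUnion A : Finset (V × V)) : Set (V × V)).ncard :=
        Set.ncard_le_ncard hsub (Finset.finite_toSet _)
    _ = (hP.toFinset.biUnion A).card := Set.ncard_coe_finset _
    _ ≤ ∑ q ∈ hP.toFinset, (A q).card := Finset.card_biUnion_le
    _ ≤ _ := Finset.sum_le_sum fun q _ => hA q

theorem pow_ne (he : Function.Injective e) {f : G} (hf : f ∈ F) (hf1 : f ≠ 1) {k : ℕ}
    (hk : 0 < k) : f ^ k ≠ 1 := by
  classical
  intro h
  have h1 : (⟨f, hf⟩ : F) ^ k = 1 := Subtype.ext h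
  have h2 : e ⟨f, hf⟩ ^ k = 1 := by rw [← map_pow, h1, map_one]
  have h3 : e ⟨f, hf⟩ = 1 := (pow_eq_one_iff_left hk.ne').1 h2
  have h4 : (⟨f, hf⟩ : F) = 1 := he (by rw [h3, map_one])
  exact hf1 (congrArg Subtype.val h4)

/-- **Stabilizers of the sets.** -/
theorem stab (he : Function.Injective e) (hΓ : Γ.Connected)
    (hadj : ∀ (g : G) (x y : V), Γ.Adj x y → Γ.Adj (g • x) (g • y))
    (hfree : ∀ f ∈ F, ∀ x y, Γ.Adj x y → f • x = x → f • y = y → f = 1)
    {C : Set V} (hC : C.Nonempty) (hC' : Cᶜ.Nonempty) (hfin : (bd Γ C).Finite) {f : G}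
    (hf : f ∈ F) (hf1 : f ≠ 1) {k : ℕ} (hk : 0 < k) : (fun x => f ^ k • x) '' C ≠ C := by
  intro h
  set g := f ^ k with hg
  have hgF : g ∈ F := F.pow_mem hf k
  have hg1 : g ≠ 1 := pow_ne he hf hf1 hk
  have hmem : ∀ x, g • x ∈ C ↔ x ∈ C := by
    intro x
    conv_lhs => rw [← h]
    constructor
    · rintro ⟨y, hy, hyx⟩
      have h1 : y = x := MulAction.injective g hyx
      rwa [← h1]
    · intro hx
      exact ⟨x, hx, rfl⟩
  obtain ⟨a, ha⟩ := hC
  obtain ⟨b, hb⟩ := hC'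
  obtain ⟨w⟩ := hΓ.preconnected a b
  obtain ⟨d, -, hd1, hd2⟩ := w.exists_boundary_dart C ha hb
  have hbd : ∀ m : ℕ, (g ^ m • d.fst, g ^ m • d.snd) ∈ bd Γ C := by
    intro m
    induction m with
    | zero =>
      rw [pow_zero, one_smul, one_smul]
      exact ⟨d.adj, hd1, hd2⟩
    | succ m ih =>
      obtain ⟨h1, h2, h3⟩ := ih
      refine ⟨?_, ?_, ?_⟩
      · change Γ.Adj (g ^ (m + 1) • d.fst) (g ^ (m + 1) • d.snd)
        rw [pow_succ', mul_smul, mul_smul]
        exact hadj g _ _ h1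
      · change g ^ (m + 1) • d.fst ∈ C
        rw [pow_succ', mul_smul, hmem]
        exact h2
      · change g ^ (m + 1) • d.snd ∉ C
        rw [pow_succ', mul_smul, hmem]
        exact h3
  have hninj : ¬ Function.Injective fun m : ℕ => (g ^ m • d.fst, g ^ m • d.snd) := by
    intro hinj
    have h1 : (Set.range fun m : ℕ => (g ^ m • d.fst, g ^ m • d.snd)).Infinite :=
      Set.infinite_range_of_injective hinj
    exact h1 (hfin.subset (by rintro _ ⟨m, rfl⟩; exact hbd m))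
  have key : ∀ m m' : ℕ, m < m' →
      ((g ^ m • d.fst, g ^ m • d.snd) : V × V) = (g ^ m' • d.fst, g ^ m' • d.snd) → False := by
    intro m m' hmm heq
    obtain ⟨c, rfl⟩ : ∃ c, m' = m + c := ⟨m' - m, by omega⟩
    have hc : 0 < c := by omega
    have h1 := congrArg Prod.fst heq
    have h2 := congrArg Prod.snd heq
    change g ^ m • d.fst = g ^ (m + c) • d.fst at h1
    change g ^ m • d.snd = g ^ (m + c) • d.snd at h2
    rw [pow_add, mul_smul] at h1 h2
    have h3 := MulAction.injective (g ^ m) h1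
    have h4 := MulAction.injective (g ^ m) h2
    exact pow_ne he hgF hg1 hc (hfree _ (F.pow_mem hgF c) _ _ d.adj h3.symm h4.symm)
  apply hninj
  intro m m' heq
  rcases lt_trichotomy m m' with h1 | h1 | h1
  · exact (key m m' h1 heq).elim
  · exact h1
  · exact (key m' m h1 heq.symm).elim

theorem image_mul (g h : G) (C : Set V) :
    (fun x => (g * h) • x) '' C = (fun x => g • x) '' ((fun x => h • x) '' C) := by
  rw [Set.image_image]
  simp only [mul_smul]

theorem stab_inj (he : Function.Injective e) (hΓ : Γ.Connected)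
    (hadj : ∀ (g : G) (x y : V), Γ.Adj x y → Γ.Adj (g • x) (g • y))
    (hfree : ∀ f ∈ F, ∀ x y, Γ.Adj x y → f • x = x → f • y = y → f = 1)
    {C : Set V} (hC : C.Nonempty) (hC' : Cᶜ.Nonempty) (hfin : (bd Γ C).Finite) {f : G}
    (hf : f ∈ F) (hf1 : f ≠ 1) : Function.Injective fun k : ℕ => (fun x => f ^ k • x) '' C := by
  have key : ∀ m m' : ℕ, m < m' → (fun x => f ^ m • x) '' C = (fun x => f ^ m' • x) '' C →
      False := by
    intro m m' hmm heq
    obtain ⟨c, rfl⟩ : ∃ c, m' = m + c := ⟨m' - m, by omega⟩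
    have hc : 0 < c := by omega
    rw [pow_add, image_mul] at heq
    have h1 : Function.Injective fun D : Set V => (fun x => f ^ m • x) '' D :=
      Set.image_injective.2 (MulAction.injective _)
    exact stab he hΓ hadj hfree hC hC' hfin hf hf1 hc (h1 heq).symm
  intro m m' heq
  rcases lt_trichotomy m m' with h1 | h1 | h1
  · exact (key m m' h1 heq).elim
  · exact h1
  · exact (key m' m h1 heq.symm).elim

end

end VF5

open VF5 in
theorem tree_thm {G V ι : Type} [Group G] [MulAction G V] (F : Subgroup G)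
    (e : F →* FreeGroup ι) (he : Function.Injective e) (S : Set ι) (Γ : SimpleGraph V)
    (hΓ : Γ.Connected) (hadj : ∀ (g : G) (x y : V), Γ.Adj x y → Γ.Adj (g • x) (g • y))
    (p : V → FreeGroup ι)
    (hp : ∀ (f : F) (x : V), (p ((f : G) • x))⁻¹ * (e f * p x) ∈
      Subgroup.closure (FreeGroup.of '' S))
    (P : Set (V × V)) (hP : P.Finite)
    (hcov : ∀ x y, Γ.Adj x y → ∃ f ∈ F, ∃ q ∈ P, x = f • q.1 ∧ y = f • q.2)
    (hfree : ∀ f ∈ F, ∀ x y, Γ.Adj x y → f • x = x → f • y = y → f = 1) :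
    ∃ (T : Type) (_ : MulAction G T) (Λ : SimpleGraph T) (j : V → T),
      Λ.IsTree ∧ (∀ (g : G) (u v : T), Λ.Adj u v → Λ.Adj (g • u) (g • v)) ∧
      (∀ (g : G) (x : V), j (g • x) = g • j x) ∧
      (∀ f ∈ F, ∀ u v, Λ.Adj u v → f • u = u → f • v = v → f = 1) ∧
      (∀ x y, (p x)⁻¹ * p y ∉ Subgroup.closure (FreeGroup.of '' S) → j x ≠ j y) ∧
      (S = ∅ → ∀ f ∈ F, f ≠ 1 → ∀ t : T, f • t ≠ t) := by
  classical
  obtain ⟨n, hn⟩ := bound he hp P hP hcov
  obtain ⟨E, hE, hfinE, hperm, hsepE⟩ := nested_family Γ hΓ n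
  have hadj' : ∀ (g : G) (x y : V), Γ.Adj (g • x) (g • y) ↔ Γ.Adj x y := by
    intro g x y
    refine ⟨fun h => ?_, hadj g x y⟩
    have h1 := hadj g⁻¹ _ _ h
    rwa [inv_smul_smul, inv_smul_smul] at h1
  have hG : ∀ g : G, ∀ C ∈ E, (fun x => g • x) '' C ∈ E := fun g C hC =>
    hperm (MulAction.toPerm g) (hadj' g) C hC
  haveI : Nonempty V := hΓ.nonempty
  obtain ⟨T, iT, Λ, j, s, hT, hΛ, hj, hsj, hsg, hfinT, hedge⟩ := exists_tree (G := G) E hE hG
  have hCc : ∀ C ∈ E, Cᶜ.Nonempty := fun C hC => hE.ne _ (hE.compl C hC)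
  have hstab1 : ∀ f ∈ F, f ≠ 1 → ∀ C ∈ E, (fun x => f • x) '' C ≠ C := by
    intro f hf hf1 C hC
    have h1 := stab he hΓ hadj hfree (hE.ne C hC) (hCc C hC) (hfinE C hC) hf hf1 one_pos
    simpa only [pow_one] using h1
  -- the main argument
  have main : ∀ f ∈ F, f ≠ 1 → ∀ t : T, f • t = t → ∀ (x : V) (U : Set V), (bd Γ U).Finite →
      (bd Γ U).ncard ≤ n → (∀ k : ℕ, 0 < k → f ^ k • x ∈ U) →
      (∀ k : ℕ, 0 < k → (f⁻¹) ^ k • x ∉ U) → False := by
    intro f hf hf1 t ht x U hU1 hU2 h1 h2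
    have htk : ∀ k : ℕ, f ^ k • t = t := by
      intro k
      induction k with
      | zero => rw [pow_zero, one_smul]
      | succ k ih => rw [pow_succ, mul_smul, ht, ih]
    have htk' : ∀ k : ℕ, (f⁻¹) ^ k • t = t := by
      intro k
      rw [inv_pow, inv_smul_eq_iff, htk]
    let ω : Ultrafilter V := Ultrafilter.of (Filter.map (fun k : ℕ => f ^ k • x) Filter.atTop)
    let ω' : Ultrafilter V :=
      Ultrafilter.of (Filter.map (fun k : ℕ => (f⁻¹) ^ k • x) Filter.atTop)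
    have hω : ∀ A : Set V, (∀ᶠ k : ℕ in Filter.atTop, f ^ k • x ∈ A) → A ∈ ω := fun A hA =>
      Ultrafilter.of_le (Filter.map (fun k : ℕ => f ^ k • x) Filter.atTop) (Filter.mem_map.2 hA)
    have hω' : ∀ A : Set V, (∀ᶠ k : ℕ in Filter.atTop, (f⁻¹) ^ k • x ∈ A) → A ∈ ω' :=
      fun A hA => Ultrafilter.of_le (Filter.map (fun k : ℕ => (f⁻¹) ^ k • x) Filter.atTop)
        (Filter.mem_map.2 hA)
    have hUω : U ∈ ω := hω U (Filter.eventually_atTop.2 ⟨1, fun k hk => h1 k hk⟩)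
    have hUω' : U ∉ ω' := by
      rw [← Ultrafilter.compl_mem_iff_notMem]
      exact hω' Uᶜ (Filter.eventually_atTop.2 ⟨1, fun k hk => h2 k hk⟩)
    obtain ⟨C, hC, hCω, hCω'⟩ := hsepE ω ω' U hU1 hU2 hUω hUω'
    by_cases htC : t ∈ s C
    · -- infinitely many negative powers are outside of `C`
      have h3 : {k : ℕ | (f⁻¹) ^ k • x ∉ C}.Infinite := by
        rw [← Nat.frequently_atTop_iff_infinite]
        intro h4
        refine hCω' (hω' C (h4.mono fun k hk => ?_))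
        exact not_not.1 hk
      have h4 : ((fun k : ℕ => (fun x => f ^ k • x) '' C) '' {k : ℕ | (f⁻¹) ^ k • x ∉ C}).Infinite :=
        h3.image (stab_inj he hΓ hadj hfree (hE.ne C hC) (hCc C hC) (hfinE C hC) hf hf1).injOn
      refine h4 ((hfinT t (j x)).subset ?_)
      rintro _ ⟨k, hk, rfl⟩
      refine ⟨hG _ C hC, ?_, ?_⟩
      · have h5 := (hsg (f ^ k) C hC t).2 htC
        rwa [htk] at h5
      · intro h5
        have h6 : j x = f ^ k • j ((f⁻¹) ^ k • x) := by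
          rw [← hj, inv_pow, smul_inv_smul]
        rw [h6, hsg (f ^ k) C hC, hsj C hC] at h5
        exact hk h5
    · have h3 : {k : ℕ | f ^ k • x ∈ C}.Infinite := by
        rw [← Nat.frequently_atTop_iff_infinite]
        intro h4
        have h5 : Cᶜ ∈ ω := hω Cᶜ h4
        exact (Ultrafilter.compl_mem_iff_notMem.1 h5) hCω
      have hf' : f⁻¹ ∈ F := F.inv_mem hf
      have hf1' : f⁻¹ ≠ 1 := inv_ne_one.2 hf1
      have h4 : ((fun k : ℕ => (fun x => (f⁻¹) ^ k • x) '' C) '' {k : ℕ | f ^ k • x ∈ C}).Infinite :=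
        h3.image (stab_inj he hΓ hadj hfree (hE.ne C hC) (hCc C hC) (hfinE C hC) hf' hf1').injOn
      refine h4 ((hfinT (j x) t).subset ?_)
      rintro _ ⟨k, hk, rfl⟩
      refine ⟨hG _ C hC, ?_, ?_⟩
      · have h6 : j x = (f⁻¹) ^ k • j (f ^ k • x) := by
          rw [← hj, inv_pow, inv_smul_smul]
        rw [h6, hsg ((f⁻¹) ^ k) C hC, hsj C hC]
        exact hk
      · intro h5
        have h6 : t = (f⁻¹) ^ k • t := (htk' k).symm
        rw [h6, hsg ((f⁻¹) ^ k) C hC] at h5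
        exact htC h5
  refine ⟨T, iT, Λ, j, hT, hΛ, hj, fun f hf u v huv hu hv => ?_, fun x y hxy hj' => ?_,
    fun hS f hf hf1 t ht => ?_⟩
  · -- edge stabilizers
    by_contra hf1
    obtain ⟨C, hC, ⟨h1, h2⟩, h3⟩ := hedge u v huv
    refine hstab1 f hf hf1 C hC (h3 _ (hG f C hC) ?_ ?_)
    · have h4 := (hsg f C hC u).2 h1
      rwa [hu] at h4
    · intro h4
      rw [← hv] at h4
      exact h2 ((hsg f C hC v).1 h4)
  · -- separation
    obtain ⟨u, l, hl, h1⟩ := hs_sep S _ hxy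
    have hx : x ∈ UU p (p x * u) l ↔ 1 ∈ Hs u l := by
      have h2 := hs_trans (p x) u 1 l
      rw [mul_one] at h2
      exact h2
    have hy : y ∈ UU p (p x * u) l ↔ (p x)⁻¹ * p y ∈ Hs u l := by
      have h2 := hs_trans (p x) u ((p x)⁻¹ * p y) l
      rw [mul_inv_cancel_left] at h2
      exact h2
    obtain ⟨hf1, hf2⟩ := hn (p x * u) l hl
    rcases h1 with ⟨h2, h3⟩ | ⟨h2, h3⟩
    · obtain ⟨C, hC, h4, h5⟩ := hsepE (pure x) (pure y) _ hf1 hf2
        (Ultrafilter.mem_pure.2 (hx.2 h2)) (fun h => h3 (hy.1 (Ultrafilter.mem_pure.1 h)))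
      rw [Ultrafilter.mem_pure] at h4 h5
      rw [← hsj C hC] at h4 h5
      rw [hj'] at h4
      exact h5 h4
    · obtain ⟨C, hC, h4, h5⟩ := hsepE (pure y) (pure x) _ hf1 hf2
        (Ultrafilter.mem_pure.2 (hy.2 h3)) (fun h => h2 (hx.1 (Ultrafilter.mem_pure.1 h)))
      rw [Ultrafilter.mem_pure] at h4 h5
      rw [← hsj C hC] at h4 h5
      rw [hj'] at h5
      exact h5 h4
  · -- hyperbolicity
    obtain ⟨x⟩ := hΓ.nonempty
    subst hS
    have hpe : ∀ (f : F) (x : V), p ((f : G) • x) = e f * p x := by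
      intro f x
      have h1 := hp f x
      rw [Set.image_empty, Subgroup.closure_empty, Subgroup.mem_bot, inv_mul_eq_one] at h1
      exact h1
    have hh1 : (p x)⁻¹ * e ⟨f, hf⟩ * p x ≠ 1 := by
      intro h1
      have h2 : e ⟨f, hf⟩ = 1 := by
        have h3 : e ⟨f, hf⟩ = p x * ((p x)⁻¹ * e ⟨f, hf⟩ * p x) * (p x)⁻¹ := by group
        rw [h3, h1]
        group
      have h4 : (⟨f, hf⟩ : F) = 1 := he (by rw [h2, map_one])
      exact hf1 (congrArg Subtype.val h4)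
    obtain ⟨u, l, hul⟩ := hs_hyp _ hh1
    have hpos : ∀ k : ℕ, f ^ k • x ∈ UU p (p x * u) l ↔
        ((p x)⁻¹ * e ⟨f, hf⟩ * p x) ^ k ∈ Hs u l := by
      intro k
      have h1 := hpe (⟨f, hf⟩ ^ k) x
      have h2 : e (⟨f, hf⟩ ^ k) * p x = p x * ((p x)⁻¹ * e ⟨f, hf⟩ * p x) ^ k := by
        rw [map_pow]
        have h3 : ((p x)⁻¹ * e ⟨f, hf⟩ * p x) ^ k = (p x)⁻¹ * e ⟨f, hf⟩ ^ k * p x := by
          have h4 := conj_pow (a := (p x)⁻¹) (b := e ⟨f, hf⟩) (i := k)
          rwa [inv_inv] at h4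
        rw [h3]
        group
      change p (f ^ k • x) ∈ Hs _ _ ↔ _
      change p (f ^ k • x) = _ at h1
      rw [h1, h2, hs_trans]
    have hneg : ∀ k : ℕ, (f⁻¹) ^ k • x ∈ UU p (p x * u) l ↔
        ((p x)⁻¹ * e ⟨f, hf⟩ * p x)⁻¹ ^ k ∈ Hs u l := by
      intro k
      have h1 := hpe (⟨f, hf⟩⁻¹ ^ k) x
      have h2 : e (⟨f, hf⟩⁻¹ ^ k) * p x = p x * ((p x)⁻¹ * e ⟨f, hf⟩ * p x)⁻¹ ^ k := by
        rw [map_pow, map_inv]
        have h3 : ((p x)⁻¹ * e ⟨f, hf⟩ * p x)⁻¹ ^ k = (p x)⁻¹ * (e ⟨f, hf⟩)⁻¹ ^ k * p x := by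
          have h4 := conj_pow (a := (p x)⁻¹) (b := (e ⟨f, hf⟩)⁻¹) (i := k)
          rw [inv_inv] at h4
          rw [← h4]
          congr 1
          group
        rw [h3]
        group
      change p ((f⁻¹) ^ k • x) ∈ Hs _ _ ↔ _
      change p ((f⁻¹) ^ k • x) = _ at h1
      rw [h1, h2, hs_trans]
    obtain ⟨hf1', hf2'⟩ := hn (p x * u) l (Set.notMem_empty l)
    rcases hul with h1 | h1
    · exact main f hf hf1 t ht x _ hf1' hf2' (fun k hk => (hpos k).2 (h1 k hk).1)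
        fun k hk h => (h1 k hk).2 ((hneg k).1 h)
    · refine main f⁻¹ (F.inv_mem hf) (inv_ne_one.2 hf1) t (by rw [inv_smul_eq_iff, ht]) x _ hf1' hf2'
        (fun k hk => (hneg k).2 (h1 k hk).1) fun k hk h => ?_
      rw [inv_inv] at h
      exact (h1 k hk).2 ((hpos k).1 h)

end Pool.Agent.Helper485_VF
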