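import Mathlib
import Pool.Agent.Helper485_VF.Defs
import Pool.Agent.Helper485_VF.TreeThm
import Pool.Agent.H40R2.Zd.Serre

set_option autoImplicit false

namespace Pool.Agent.Helper485_VF



namespace VF6

open Pool.Agent.H40R2.Zd

/-- the Cayley graph of a group with respect to a set -/
def cg (G : Type) [Group G] (S : Set G) : SimpleGraph G where
  Adj x y := x ≠ y ∧ x⁻¹ * y ∈ S ∪ S⁻¹
  symm := ⟨by
    rintro x y ⟨h, h'⟩
    refine ⟨h.symm, ?_⟩
    have e : y⁻¹ * x = (x⁻¹ * y)⁻¹ := by group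
    rw [e]
    rcases h' with h' | h'
    · exact Or.inr (by simpa using h')
    · exact Or.inl (by simpa using h')⟩
  loopless := ⟨by
    rintro x ⟨h, -⟩
    exact h rfl⟩

theorem cg_reach {G : Type} [Group G] (S : Set G) {g : G} (hg : g ∈ Subgroup.closure S) :
    ∀ x : G, (cg G S).Reachable x (x * g) := by
  induction hg using Subgroup.closure_induction with
  | mem s hs =>
    intro x
    by_cases h : x = x * s
    · rw [← h]
    · refine SimpleGraph.Adj.reachable ⟨h, Or.inl ?_⟩
      simpa using hs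
  | one => intro x; rw [mul_one]
  | mul a b _ _ ha hb =>
    intro x
    rw [← mul_assoc]
    exact (ha x).trans (hb (x * a))
  | inv a _ ha =>
    intro x
    have := ha (x * a⁻¹)
    rw [inv_mul_cancel_right] at this
    exact this.symm

theorem cg_conn {G : Type} [Group G] (S : Set G) (hS : Subgroup.closure S = ⊤) :
    (cg G S).Connected := by
  have : Nonempty G := ⟨1⟩
  refine ⟨fun x y => ?_⟩
  have h := cg_reach S (g := x⁻¹ * y) (by rw [hS]; trivial) x
  rwa [mul_inv_cancel_left] at h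

/-- a tree with a free action of the kernel -/
theorem exists_tree {G Q : Type} [Group G] [Group Q] [Finite Q] (π : G →* Q)
    (hπ : Function.Surjective π) (hG : Group.FG G) (hF : IsFreeGroup π.ker) :
    ∃ (T : Type) (_ : MulAction G T) (Λ : SimpleGraph T), Λ.IsTree ∧
      (∀ (g : G) (u v : T), Λ.Adj u v → Λ.Adj (g • u) (g • v)) ∧
      (∀ f ∈ π.ker, f ≠ 1 → ∀ t : T, f • t ≠ t) := by
  obtain ⟨S, hS⟩ := hG.out
  choose r hr using hπ
  let e : π.ker →* FreeGroup (IsFreeGroup.Generators π.ker) :=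
    (IsFreeGroup.toFreeGroup π.ker).toMonoidHom
  have he : Function.Injective e := (IsFreeGroup.toFreeGroup π.ker).injective
  have hk : ∀ g : G, g * (r (π g))⁻¹ ∈ π.ker := by
    intro g
    rw [MonoidHom.mem_ker, map_mul, map_inv, hr, mul_inv_cancel]
  let P : Set (G × G) := (fun q : Q × G => (r q.1, r q.1 * q.2)) ''
    (Set.univ ×ˢ ((S : Set G) ∪ (S : Set G)⁻¹))
  obtain ⟨T, iT, Λ, j, h1, h2, -, -, -, h6⟩ := tree_thm (V := G) π.ker e he ∅ (cg G (S : Set G))
    (cg_conn _ hS) (by
      rintro g x y ⟨h, h'⟩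
      refine ⟨fun h0 => h (mul_left_cancel h0), ?_⟩
      have : (g • x)⁻¹ * (g • y) = x⁻¹ * y := by
        simp only [smul_eq_mul]
        group
      rw [this]
      exact h') (fun g => e ⟨g * (r (π g))⁻¹, hk g⟩) (by
      intro f x
      have hf : π (f : G) = 1 := f.2
      have h0 : e ⟨(f : G) • x * (r (π ((f : G) • x)))⁻¹, hk _⟩ =
          e f * e ⟨x * (r (π x))⁻¹, hk x⟩ := by
        rw [← map_mul]
        congr 1
        apply Subtype.ext
        change (f : G) * x * (r (π ((f : G) * x)))⁻¹ = (f : G) * (x * (r (π x))⁻¹)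
        rw [map_mul, hf, one_mul, mul_assoc]
      simp only [h0]
      rw [inv_mul_cancel]
      exact Subgroup.one_mem _) P
    (((Set.finite_univ).prod (S.finite_toSet.union S.finite_toSet.inv)).image _) (by
      rintro x y ⟨-, h⟩
      refine ⟨x * (r (π x))⁻¹, hk x, (r (π x), r (π x) * (x⁻¹ * y)),
        ⟨(π x, x⁻¹ * y), ⟨trivial, h⟩, rfl⟩, ?_, ?_⟩
      · simp
      · simp [mul_assoc]) (by
      intro f _ x y _ hx _
      exact mul_eq_right.1 hx)
  exact ⟨T, iT, Λ, h1, h2, h6 rfl⟩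

section
variable {G Q T : Type} [Group G] [Group Q] [MulAction G T] (π : G →* Q)

theorem dmk_key {g g' : G} (h : π g = π g') (u v : T) :
    dmk π.ker (g • u) (g • v) = dmk π.ker (g' • u) (g' • v) := by
  have hk : g' * g⁻¹ ∈ π.ker := by
    rw [MonoidHom.mem_ker, map_mul, map_inv, h, mul_inv_cancel]
  apply Quotient.sound
  refine ⟨⟨g' * g⁻¹, hk⟩, ?_, ?_⟩
  · change (g' * g⁻¹) • g • u = g' • u
    rw [smul_smul, inv_mul_cancel_right]
  · change (g' * g⁻¹) • g • v = g' • v
    rw [smul_smul, inv_mul_cancel_right]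

theorem dmk_one {g : G} (h : π g = 1) (u v : T) :
    dmk π.ker (g • u) (g • v) = dmk π.ker u v := by
  have := dmk_key π (g := g) (g' := 1) (by rw [h, map_one]) u v
  rwa [one_smul, one_smul] at this

variable (r : Q → G) (hr : ∀ q, π (r q) = q)

/-- the action of `Q` on the pairs modulo the kernel -/
@[reducible] def qact : MulAction Q (PD π.ker T) where
  smul q := Quotient.map (fun p => (r q • p.1, r q • p.2)) (by
    rintro ⟨u, v⟩ ⟨u', v'⟩ ⟨γ, h1, h2⟩
    have hk : r q * (γ : G) * (r q)⁻¹ ∈ π.ker := (MonoidHom.normal_ker π).conj_mem _ γ.2 _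
    have h1' : (γ : G) • u = u' := h1
    have h2' : (γ : G) • v = v' := h2
    refine ⟨⟨_, hk⟩, ?_, ?_⟩
    · change (r q * (γ : G) * (r q)⁻¹) • r q • u = r q • u'
      rw [← h1', smul_smul, inv_mul_cancel_right, mul_smul]
    · change (r q * (γ : G) * (r q)⁻¹) • r q • v = r q • v'
      rw [← h2', smul_smul, inv_mul_cancel_right, mul_smul])
  one_smul := by
    rintro ⟨u, v⟩
    exact dmk_one π (hr 1) u v
  mul_smul a b := by
    rintro ⟨u, v⟩
    change dmk π.ker (r (a * b) • u) (r (a * b) • v) = dmk π.ker (r a • r b • u) (r a • r b • v)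
    rw [smul_smul, smul_smul]
    exact dmk_key π (by rw [map_mul, hr, hr, hr]) u v

theorem qact_dmk (g : G) (u v : T) :
    (qact π r hr).smul (π g) (dmk π.ker u v) = dmk π.ker (g • u) (g • v) := by
  change dmk π.ker (r (π g) • u) (r (π g) • v) = _
  exact dmk_key π (hr _) u v

/-- translation of walks -/
theorem wt_trans {Λ : SimpleGraph T}
    (hadj : ∀ (g : G) (u v : T), Λ.Adj u v → Λ.Adj (g • u) (g • v)) (g : G) {u v : T}
    (w : Λ.Walk u v) :
    wt π.ker Λ (w.map (⟨fun x => g • x, fun {a b} h => hadj g a b h⟩ : Λ →g Λ)) =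
      @pact Q (PD π.ker T) _ (qact π r hr) (π g) (wt π.ker Λ w) := by
  letI := qact (T := T) π r hr
  induction w with
  | nil => rw [wt_nil, map_one]; rfl
  | @cons a b d h w ih =>
    rw [SimpleGraph.Walk.map_cons, wt_cons, wt_cons, ih, map_mul, map_mul, map_inv, pact_of,
      pact_of]
    have e1 : (π g) • dmk π.ker a b = dmk π.ker (g • a) (g • b) := qact_dmk π r hr g a b
    have e2 : (π g) • dmk π.ker b a = dmk π.ker (g • b) (g • a) := qact_dmk π r hr g b a
    rw [e1, e2]
    rfl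

end

end VF6

theorem embed {G Q : Type} [Group G] [Group Q] [Finite Q] (π : G →* Q)
    (hπ : Function.Surjective π) (hG : Group.FG G) (hF : IsFreeGroup π.ker) :
    ∃ (X : Type) (_ : MulAction Q X) (θ : G →* WW Q X), Function.Injective θ ∧
      ∀ g, (θ g).right = π g := by
  obtain ⟨T, iT, Λ, hT, hadj, hfree⟩ := VF6.exists_tree π hπ hG hF
  choose r hr using hπ
  letI iX := VF6.qact (T := T) π r hr
  have hfree' : ∀ γ : π.ker, ∀ v : T, γ • v = v → γ = 1 := by
    intro γ v h
    by_contra hne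
    exact hfree γ γ.2 (fun h0 => hne (Subtype.ext h0)) v h
  have hinv : ∀ γ : π.ker, ∀ u v : T, Λ.Adj u v → ¬ (γ • u = v ∧ γ • v = u) := by
    rintro γ u v h ⟨h1, h2⟩
    have h3 : γ * γ = 1 := by
      apply hfree' _ u
      rw [mul_smul, h1, h2]
    have h4 : γ = 1 := by
      have h5 : (IsFreeGroup.toFreeGroup π.ker γ) ^ 2 = 1 ^ 2 := by
        rw [one_pow, pow_two, ← map_mul, h3, map_one]
      have h6 := pow_left_injective (n := 2) two_ne_zero h5
      have h7 : IsFreeGroup.toFreeGroup π.ker γ = IsFreeGroup.toFreeGroup π.ker 1 := by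
        rw [map_one]; exact h6
      exact (IsFreeGroup.toFreeGroup π.ker).injective h7
    rw [h4, one_smul] at h1
    exact h.ne h1
  obtain ⟨t0⟩ : Nonempty T := hT.connected.nonempty
  have hw : ∀ u : T, Nonempty (Λ.Walk t0 u) := fun u => hT.connected.preconnected t0 u
  let w0 : ∀ u : T, Λ.Walk t0 u := fun u => Classical.choice (hw u)
  let c : T → FreeGroup (Pool.Agent.H40R2.Zd.PD π.ker T) := fun u =>
    Pool.Agent.H40R2.Zd.wt π.ker Λ (w0 u)
  have hc : ∀ (u : T) (p : Λ.Walk t0 u), c u = Pool.Agent.H40R2.Zd.wt π.ker Λ p :=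
    fun u p => Pool.Agent.H40R2.Zd.wt_eq hT _ _
  let θ : G →* WW Q (Pool.Agent.H40R2.Zd.PD π.ker T) :=
    MonoidHom.mk' (fun g => ⟨c (g • t0), π g⟩) (by
      intro g g'
      apply SemidirectProduct.ext
      · change c ((g * g') • t0) = c (g • t0) * pact Q _ (π g) (c (g' • t0))
        rw [mul_smul, hc (g • g' • t0) ((w0 (g • t0)).append
          ((w0 (g' • t0)).map (⟨fun x => g • x, fun {a b} h => hadj g a b h⟩ : Λ →g Λ))),
          Pool.Agent.H40R2.Zd.wt_append, VF6.wt_trans π r hr hadj]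
      · exact map_mul π g g')
  refine ⟨Pool.Agent.H40R2.Zd.PD π.ker T, iX, θ, ?_, fun g => rfl⟩
  rw [injective_iff_map_eq_one]
  intro g hg
  have h1 : c (g • t0) = 1 := congrArg SemidirectProduct.left hg
  have h2 : π g = 1 := congrArg SemidirectProduct.right hg
  classical
  have h4 : t0 = g • t0 := by
    apply Pool.Agent.H40R2.Zd.eq_of_wt_one (N := π.ker) hfree' hinv (w0 (g • t0)).bypass
      (w0 (g • t0)).bypass_isPath
    rw [← hc]
    exact h1
  have h5 := hfree' ⟨g, h2⟩ t0 h4.symm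
  exact congrArg Subtype.val h5

end Pool.Agent.Helper485_VF
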