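import Mathlib
import Pool.Agent.Helper485_VF.Defs

set_option autoImplicit false

/-!
# Gluing homomorphisms along a tree
-/

namespace Pool.Agent.Helper485_VF

section walks

variable {T A : Type} [Group A] {Λ : SimpleGraph T}

/-- the value of a walk -/
def wv (Λ : SimpleGraph T) (c : T → T → A) : ∀ {u v : T}, Λ.Walk u v → A
  | _, _, .nil => 1
  | u, _, .cons (v := v) _ p => wv Λ c p * c u v

theorem wv_append (c : T → T → A) {u v w : T} (p : Λ.Walk u v) (q : Λ.Walk v w) :
    wv Λ c (p.append q) = wv Λ c q * wv Λ c p := by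
  induction p with
  | nil => simp [wv]
  | cons h p ih => rw [SimpleGraph.Walk.cons_append]; simp only [wv]; rw [ih, mul_assoc]

theorem wv_eq_path (hT : Λ.IsTree) (c : T → T → A)
    (hc : ∀ u v, Λ.Adj u v → c v u * c u v = 1) {u v : T} (p : Λ.Walk u v) :
    ∀ q : Λ.Walk u v, q.IsPath → wv Λ c p = wv Λ c q := by
  classical
  have huniq : ∀ {a b : T} (p q : Λ.Walk a b), p.IsPath → q.IsPath → p = q := by
    intro a b p q hp hq
    have := hT.isAcyclic.path_unique ⟨p, hp⟩ ⟨q, hq⟩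
    exact congrArg Subtype.val this
  induction p with
  | nil =>
    intro q hq
    rw [huniq q SimpleGraph.Walk.nil hq SimpleGraph.Walk.IsPath.nil]
  | @cons u v w h p ih =>
    intro q hq
    have hq'p : (p.bypass).IsPath := p.bypass_isPath
    show wv Λ c p * c u v = _
    rw [ih p.bypass hq'p]
    by_cases hu : u ∈ p.bypass.support
    · have h1 := p.bypass.take_spec hu
      have h2 : p.bypass.takeUntil u hu = SimpleGraph.Walk.cons h.symm SimpleGraph.Walk.nil := by
        apply huniq _ _ (hq'p.takeUntil hu)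
        simp [h.ne']
      have h3 : p.bypass.dropUntil u hu = q := huniq _ _ (hq'p.dropUntil hu) hq
      rw [← h1, wv_append, h2, h3]
      show wv Λ c q * (1 * c v u) * c u v = _
      rw [one_mul, mul_assoc, hc u v h, mul_one]
    · have h1 : SimpleGraph.Walk.cons h p.bypass = q := by
        apply huniq _ _ _ hq
        rw [SimpleGraph.Walk.cons_isPath_iff]
        exact ⟨hq'p, hu⟩
      rw [← h1]
      rfl

theorem wv_eq (hT : Λ.IsTree) (c : T → T → A)
    (hc : ∀ u v, Λ.Adj u v → c v u * c u v = 1) {u v : T} (p q : Λ.Walk u v) :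
    wv Λ c p = wv Λ c q := by
  classical
  rw [wv_eq_path hT c hc p q.bypass q.bypass_isPath, wv_eq_path hT c hc q q.bypass q.bypass_isPath]

theorem exists_potential (hT : Λ.IsTree) (c : T → T → A)
    (hc : ∀ u v, Λ.Adj u v → c v u * c u v = 1) (o : T) :
    ∃ φ : T → A, φ o = 1 ∧ ∀ u v, Λ.Adj u v → φ v = c u v * φ u := by
  have hw : ∀ u : T, Nonempty (Λ.Walk o u) := fun u => hT.connected.preconnected o u
  let w0 : ∀ u : T, Λ.Walk o u := fun u => Classical.choice (hw u)
  refine ⟨fun u => wv Λ c (w0 u), ?_, ?_⟩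
  · show wv Λ c (w0 o) = 1
    rw [wv_eq hT c hc (w0 o) SimpleGraph.Walk.nil]
    rfl
  · intro u v huv
    show wv Λ c (w0 v) = c u v * wv Λ c (w0 u)
    rw [wv_eq hT c hc (w0 v) ((w0 u).append (SimpleGraph.Walk.cons huv SimpleGraph.Walk.nil)),
      wv_append]
    show (1 * c u v) * _ = _
    rw [one_mul]

end walks

theorem conn_const {T : Type} {Λ : SimpleGraph T} (hc : Λ.Connected) {M : Type} (f : T → M)
    (h : ∀ u v, Λ.Adj u v → f v = f u) (u v : T) : f v = f u := by
  obtain ⟨p⟩ := hc.preconnected u v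
  induction p with
  | nil => rfl
  | cons h' p ih => rw [ih, h _ _ h']

theorem glue {G T A : Type} [Group G] [MulAction G T] [Group A] (Λ : SimpleGraph T)
    (hΛ : Λ.IsTree) (hadj : ∀ (g : G) (u v : T), Λ.Adj u v → Λ.Adj (g • u) (g • v))
    (n : G →* A) (σ : G → T → A) (hσ : ∀ g h v, σ (g * h) v = σ g (h • v) * σ h v)
    (t : T → T → A)
    (ht : ∀ g u v, Λ.Adj u v → t (g • u) (g • v) = n g * t u v * (σ g u)⁻¹) (o : T) :
    ∃ (φ : T → A) (θ : G →* A), φ o = 1 ∧
      (∀ u v, Λ.Adj u v → φ v = (t v u)⁻¹ * t u v * φ u) ∧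
      ∀ g v, θ g = (φ (g • v))⁻¹ * σ g v * φ v := by
  obtain ⟨φ, h1, h2⟩ := exists_potential hΛ (fun u v => (t v u)⁻¹ * t u v)
    (fun u v _ => by group) o
  have h3 : ∀ g v, (φ (g • v))⁻¹ * σ g v * φ v = (φ (g • o))⁻¹ * σ g o * φ o := by
    intro g v
    refine conn_const hΛ.connected (fun v => (φ (g • v))⁻¹ * σ g v * φ v) ?_ o v
    intro u v huv
    show (φ (g • v))⁻¹ * σ g v * φ v = (φ (g • u))⁻¹ * σ g u * φ u
    rw [h2 u v huv, h2 _ _ (hadj g u v huv), ht g u v huv, ht g v u huv.symm]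
    group
  refine ⟨φ, MonoidHom.mk' (fun g => (φ (g • o))⁻¹ * σ g o * φ o) ?_, h1, h2, ?_⟩
  · intro g h
    show (φ ((g * h) • o))⁻¹ * σ (g * h) o * φ o =
      ((φ (g • o))⁻¹ * σ g o * φ o) * ((φ (h • o))⁻¹ * σ h o * φ o)
    rw [← h3 g (h • o), hσ, mul_smul]
    group
  · intro g v
    exact (h3 g v).symm

end Pool.Agent.Helper485_VF
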