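import Mathlib
import Pool.Agent.Helper485_VF.Defs
import Pool.Agent.Helper485_VF.CayTree
import Pool.Agent.Helper475.RSTree

set_option autoImplicit false

namespace Pool.Agent.Helper485_VF


/-! TARGET.
E acts on the vertices of cay X by ρ e u := (α e).left * pact Q X (α e).right u (see wact). It preserves adjacency: pact q (u * of x) = pact q u * of (q • x). No inversions: if v = u * of x and ρ e exchanges u and v then ρ e v = ρ e u * of (q • x), i.e. u = v * of (q • x) = u * of x * of (q • x), so of x * of (q • x) = 1, impossible
 (e.g. map all generators to 1 ∈ ℤ: 2 ≠ 0). So by Pool.Agent.Helper475.RSTree.serre (starting tree; Serre: a finitely generated torsion group acting on a tree without inversions fixes a vertex) there is p with (α e).left * pact q p = p for all e. Then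
 α e * inl p = inl ((α e).left * pact q p) * inr q = inl p * inr q.
-/

theorem saturated {E Q X : Type} [Group E] [Finite E] [Group Q] [MulAction Q X]
    (α : E →* WW Q X) : ∃ p : FreeGroup X, ∀ e : E,
      α e * SemidirectProduct.inl p = SemidirectProduct.inl p * SemidirectProduct.inr (α e).right := by
  classical
  let _ : MulAction (WW Q X) (FreeGroup X) := wact Q X
  let ρ : E →* Equiv.Perm (FreeGroup X) := (MulAction.toPermHom (WW Q X) (FreeGroup X)).comp α
  have hρ : ∀ e u, ρ e u = (α e).left * pact Q X (α e).right u := fun e u => rfl
  have hstep : ∀ e u (x : X), ρ e (u * FreeGroup.of x) =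
      ρ e u * FreeGroup.of ((α e).right • x) := by
    intro e u x
    rw [hρ, hρ, map_mul, pact_of, mul_assoc]
  have hfix : ∃ v, ∀ g, ρ g v = v := by
    have _ := Fintype.ofFinite E
    refine Pool.Agent.Helper475.RSTree.serre (FreeGroup X) (cay X) (cay_tree X) ρ ?_ ?_
      (fun g => isOfFinOrder_of_finite g) Finset.univ (by simp)
    · rintro g u v ⟨x, h | h⟩
      · exact ⟨(α g).right • x, Or.inl (by rw [h, hstep])⟩
      · exact ⟨(α g).right • x, Or.inr (by rw [h, hstep])⟩
    · -- no inversions
      have key : ∀ g u (x : X), ρ g u = u * FreeGroup.of x → ρ g (u * FreeGroup.of x) = u →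
          False := by
        intro g u x h1 h2
        rw [hstep, h1, mul_assoc] at h2
        have h3 : FreeGroup.of x * FreeGroup.of ((α g).right • x) = 1 := by
          have := mul_eq_left.1 h2
          exact this
        have h4 := congrArg (FreeGroup.lift (fun _ : X => Multiplicative.ofAdd (1 : ℤ))) h3
        simp only [map_mul, FreeGroup.lift_apply_of, map_one] at h4
        have h5 : (1 : ℤ) + 1 = 0 := congrArg Multiplicative.toAdd h4
        omega
      rintro g u v ⟨x, h | h⟩ ⟨h1, h2⟩
      · subst h
        exact key g u x h1 h2
      · subst h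
        exact key g v x h2 h1
  obtain ⟨p, hp⟩ := hfix
  refine ⟨p, fun e => ?_⟩
  have h := hp e
  rw [hρ] at h
  apply SemidirectProduct.ext
  · simp [h]
  · simp

end Pool.Agent.Helper485_VF
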