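import Mathlib
import Pool.Agent.Helper485_VF.Defs
import Pool.Agent.Helper485_VF.TreeThm

set_option autoImplicit false

namespace Pool.Agent.Helper485_VF


/-! TARGET.
V := G ⧸ G0 with left multiplication. M := closure (of '' S). F acts transitively on V because G = F G0 (hsup, F normal): every coset is f G0, f ∈ F; p (f G0) := e f for a chosen f ∈ F; two choices differ by right multiplication with an element of F ∩ G0, i.e. e-image in M (h0).
 So hp holds and (p x)⁻¹ p y ∈ M iff x = y; hence j is injective.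
 Graph: replace every φ ∈ Φ by φ' ∈ F with φ G0 = φ' G0; Adj (x, y) : x ≠ y and ∃ g : G, ∃ φ ∈ Φ, (x = g G0, y = g φ G0) or the reverse. G-invariant. Connected: G0 ⊔ closure Φ = ⊤ (the set of g with g G0 reachable from G0 ... use: the set {g | ∀ x, Reachable x₀ ...}; e.g. show
  that {g : G | Reachable (1 G0) (g G0)} is a subgroup containing G0 and Φ: if g, h are in it, h G0 reachable from G0, translate by g: g h G0 reachable from g G0.)
 Finitely many F-orbits of edges: g = f q with q in the image of a finite set of coset representatives R ⊂ G of F (G = F R, F of finite index); P := {(q G0, q φ G0)} ∪ reverses, q ∈ R, φ ∈ Φ.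
 hfree: f fixes x = a G0 and y = b G0 (a, b ∈ F chosen), x ≠ y: a⁻¹ f a ∈ F ∩ G0, b⁻¹ f b ∈ F ∩ G0; in FreeGroup ι: m := e (a⁻¹ f a) ∈ M, c := e (a⁻¹ b) ∉ M, c⁻¹ m c = e (b⁻¹ f b) ∈ M; malnormal gives m = 1, f = 1.
 o := j (1 G0); g o = o iff g G0 = G0 iff g ∈ G0.
-/

theorem tree_rel {G ι : Type} [Group G] (F : Subgroup G) [F.Normal] [F.FiniteIndex]
    (e : F ≃* FreeGroup ι) (S : Set ι) (G0 : Subgroup G)
    (h0 : ∀ f : F, (f : G) ∈ G0 ↔ e f ∈ Subgroup.closure (FreeGroup.of '' S))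
    (hsup : G0 ⊔ F = ⊤) (Φ : Set G) (hΦ : Φ.Finite) (hgen : G0 ⊔ Subgroup.closure Φ = ⊤) :
    ∃ (T : Type) (_ : MulAction G T) (Λ : SimpleGraph T) (o : T),
      Λ.IsTree ∧ (∀ (g : G) (u v : T), Λ.Adj u v → Λ.Adj (g • u) (g • v)) ∧
      (∀ f ∈ F, ∀ u v, Λ.Adj u v → f • u = u → f • v = v → f = 1) ∧
      (∀ g : G, g • o = o ↔ g ∈ G0) := by
  classical
  -- every coset of `G0` has a representative in `F`
  have hrep : ∀ x : G ⧸ G0, ∃ f : F, ((f : G) : G ⧸ G0) = x := by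
    intro x
    obtain ⟨g, rfl⟩ := QuotientGroup.mk_surjective x
    have hg : g ∈ ((G0 ⊔ F : Subgroup G) : Set G) := by rw [hsup]; exact Subgroup.mem_top g
    rw [Subgroup.mul_normal] at hg
    obtain ⟨a, ha, f, hf, rfl⟩ := hg
    refine ⟨⟨a * f * a⁻¹, Subgroup.Normal.conj_mem inferInstance f hf a⟩, ?_⟩
    rw [QuotientGroup.eq]
    have : (a * f * a⁻¹)⁻¹ * (a * f) = a := by group
    show (a * f * a⁻¹)⁻¹ * (a * f) ∈ G0
    rw [this]; exact ha
  choose s hs using hrep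
  let M : Subgroup (FreeGroup ι) := Subgroup.closure (FreeGroup.of '' S)
  have hmk : ∀ (g a : G), g • ((a : G) : G ⧸ G0) = ((g * a : G) : G ⧸ G0) := fun g a => rfl
  let p : G ⧸ G0 → FreeGroup ι := fun x => e (s x)
  have hne : ∀ x y : G ⧸ G0, x ≠ y → (p x)⁻¹ * p y ∉ M := by
    intro x y hxy hm
    apply hxy
    have h1 : (p x)⁻¹ * p y = e ((s x)⁻¹ * s y) := by simp [p]
    rw [h1] at hm
    have h2 := (h0 _).2 hm
    rw [← hs x, ← hs y, QuotientGroup.eq]
    simpa using h2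
  let Γ : SimpleGraph (G ⧸ G0) :=
    { Adj := fun x y => x ≠ y ∧ ∃ g : G, ∃ φ ∈ Φ,
        (x = ((g : G) : G ⧸ G0) ∧ y = ((g * φ : G) : G ⧸ G0)) ∨
        (y = ((g : G) : G ⧸ G0) ∧ x = ((g * φ : G) : G ⧸ G0))
      symm := ⟨by
        rintro x y ⟨hxy, g, φ, hφ, h⟩
        exact ⟨hxy.symm, g, φ, hφ, h.symm⟩⟩
      loopless := ⟨by
        rintro x ⟨hx, _⟩
        exact hx rfl⟩ }
  have hadj : ∀ (g : G) (x y : G ⧸ G0), Γ.Adj x y → Γ.Adj (g • x) (g • y) := by
    rintro g x y ⟨hxy, a, φ, hφ, h⟩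
    refine ⟨fun h' => hxy (MulAction.injective g h'), g * a, φ, hφ, ?_⟩
    rcases h with ⟨h1, h2⟩ | ⟨h1, h2⟩
    · left; rw [h1, h2, hmk, hmk, mul_assoc]; exact ⟨rfl, rfl⟩
    · right; rw [h1, h2, hmk, hmk, mul_assoc]; exact ⟨rfl, rfl⟩
  have htr : ∀ (g : G) (x y : G ⧸ G0), Γ.Reachable x y → Γ.Reachable (g • x) (g • y) := by
    intro g x y h
    exact h.map (⟨fun z => g • z, fun {a b} hab => hadj g a b hab⟩ : Γ →g Γ)
  let o0 : G ⧸ G0 := ((1 : G) : G ⧸ G0)
  let H : Subgroup G :=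
    { carrier := {g | Γ.Reachable o0 ((g : G) : G ⧸ G0)}
      one_mem' := SimpleGraph.Reachable.refl _
      mul_mem' := by
        intro a b ha hb
        have h1 := htr a _ _ hb
        have e1 : a • o0 = ((a : G) : G ⧸ G0) := by
          show a • ((1 : G) : G ⧸ G0) = _
          rw [hmk, mul_one]
        rw [e1, hmk] at h1
        exact SimpleGraph.Reachable.trans ha h1
      inv_mem' := by
        intro a ha
        have h1 := htr a⁻¹ _ _ ha
        have e1 : a⁻¹ • o0 = ((a⁻¹ : G) : G ⧸ G0) := by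
          show a⁻¹ • ((1 : G) : G ⧸ G0) = _
          rw [hmk, mul_one]
        rw [e1, hmk, inv_mul_cancel] at h1
        exact h1.symm }
  have hH : H = ⊤ := by
    rw [eq_top_iff, ← hgen]
    refine sup_le ?_ ?_
    · intro a ha
      show Γ.Reachable o0 ((a : G) : G ⧸ G0)
      have : ((a : G) : G ⧸ G0) = o0 := by
        rw [QuotientGroup.eq]
        simpa using ha
      rw [this]
    · rw [Subgroup.closure_le]
      intro φ hφ
      show Γ.Reachable o0 ((φ : G) : G ⧸ G0)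
      by_cases h : o0 = ((φ : G) : G ⧸ G0)
      · rw [← h]
      · apply SimpleGraph.Adj.reachable
        refine ⟨h, 1, φ, hφ, Or.inl ⟨rfl, ?_⟩⟩
        rw [one_mul]
  have hreach : ∀ x : G ⧸ G0, Γ.Reachable o0 x := by
    intro x
    obtain ⟨g, rfl⟩ := QuotientGroup.mk_surjective x
    have : g ∈ H := by rw [hH]; exact Subgroup.mem_top g
    exact this
  have hΓ : Γ.Connected := by
    haveI : Nonempty (G ⧸ G0) := ⟨o0⟩
    exact ⟨fun x y => (hreach x).symm.trans (hreach y)⟩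
  have hp : ∀ (f : F) (x : G ⧸ G0), (p ((f : G) • x))⁻¹ * (e.toMonoidHom f * p x) ∈ M := by
    intro f x
    have h1 : (p ((f : G) • x))⁻¹ * (e.toMonoidHom f * p x) =
        e ((s ((f : G) • x))⁻¹ * (f * s x)) := by simp [p]
    rw [h1]
    refine (h0 _).1 ?_
    have h2 : ((s ((f : G) • x) : G) : G ⧸ G0) = (((f : G) * (s x : G) : G) : G ⧸ G0) := by
      rw [hs, ← hmk, hs]
    rw [QuotientGroup.eq] at h2
    simpa using h2
  haveI hfin : Finite (G ⧸ F) := Subgroup.finite_quotient_of_finiteIndex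
  let out : G ⧸ F → G := fun q => Quotient.out q
  let R : Set G := Set.range out
  have hR : R.Finite := Set.finite_range out
  have hRF : ∀ g : G, ∃ f ∈ F, ∃ q ∈ R, g = f * q := by
    intro g
    have h1 : ((out ((g : G) : G ⧸ F) : G) : G ⧸ F) = ((g : G) : G ⧸ F) :=
      QuotientGroup.out_eq' _
    generalize hr : out ((g : G) : G ⧸ F) = r at h1
    refine ⟨g * r⁻¹, ?_, r, ⟨((g : G) : G ⧸ F), hr⟩, by group⟩
    rw [QuotientGroup.eq] at h1
    have h2 := Subgroup.Normal.conj_mem (inferInstance : F.Normal) _ h1 r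
    have h3 : r * (r⁻¹ * g) * r⁻¹ = g * r⁻¹ := by group
    rw [h3] at h2
    exact h2
  let P : Set ((G ⧸ G0) × (G ⧸ G0)) :=
    ((fun z : G × G => (((z.1 : G) : G ⧸ G0), ((z.1 * z.2 : G) : G ⧸ G0))) '' (R ×ˢ Φ)) ∪
    ((fun z : G × G => (((z.1 * z.2 : G) : G ⧸ G0), ((z.1 : G) : G ⧸ G0))) '' (R ×ˢ Φ))
  have hP : P.Finite := ((hR.prod hΦ).image _).union ((hR.prod hΦ).image _)
  have hcov : ∀ x y, Γ.Adj x y → ∃ f ∈ F, ∃ q ∈ P, x = f • q.1 ∧ y = f • q.2 := by
    rintro x y ⟨hxy, a, φ, hφ, h⟩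
    obtain ⟨f, hf, q, hq, rfl⟩ := hRF a
    rcases h with ⟨h1, h2⟩ | ⟨h1, h2⟩
    · refine ⟨f, hf, _, Or.inl ⟨(q, φ), ⟨hq, hφ⟩, rfl⟩, ?_, ?_⟩
      · rw [h1]; exact (hmk f q).symm
      · rw [h2]; show _ = f • ((q * φ : G) : G ⧸ G0); rw [hmk, mul_assoc]
    · refine ⟨f, hf, _, Or.inr ⟨(q, φ), ⟨hq, hφ⟩, rfl⟩, ?_, ?_⟩
      · rw [h2]; show _ = f • ((q * φ : G) : G ⧸ G0); rw [hmk, mul_assoc]
      · rw [h1]; exact (hmk f q).symm
  have hfree : ∀ f ∈ F, ∀ x y, Γ.Adj x y → f • x = x → f • y = y → f = 1 := by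
    intro f hf x y hxy hx hy
    have hkey : ∀ z : G ⧸ G0, f • z = z → e ((s z)⁻¹ * ⟨f, hf⟩ * s z) ∈ M := by
      intro z hz
      refine (h0 _).1 ?_
      have h2 : ((s z : G) : G ⧸ G0) = ((f * (s z : G) : G) : G ⧸ G0) := by
        rw [← hmk, hs, hz]
      rw [QuotientGroup.eq] at h2
      simpa [mul_assoc] using h2
    have hx' := hkey x hx
    have hy' := hkey y hy
    have hc := hne x y hxy.1
    have hm := malnormal S ((p x)⁻¹ * p y) (e ((s x)⁻¹ * ⟨f, hf⟩ * s x)) hc hx' (by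
      have : ((p x)⁻¹ * p y)⁻¹ * e ((s x)⁻¹ * ⟨f, hf⟩ * s x) * ((p x)⁻¹ * p y) =
          e ((s y)⁻¹ * ⟨f, hf⟩ * s y) := by
        simp only [p, map_mul, map_inv]
        group
      rw [this]; exact hy')
    have h3 : (s x)⁻¹ * ⟨f, hf⟩ * s x = 1 := by
      apply e.injective
      rw [hm, map_one]
    have h4 : (⟨f, hf⟩ : F) = 1 := by
      have h5 : (⟨f, hf⟩ : F) = s x * ((s x)⁻¹ * ⟨f, hf⟩ * s x) * (s x)⁻¹ := by group
      rw [h5, h3]; group
    exact congrArg Subtype.val h4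
  obtain ⟨T, instT, Λ, j, hT, hΛ, hj, hfr, hsep, _⟩ := tree_thm F e.toMonoidHom e.injective S Γ hΓ hadj p hp P hP
    hcov hfree
  refine ⟨T, instT, Λ, j o0, hT, hΛ, hfr, fun g => ?_⟩
  have hgo : g • j o0 = j ((g : G) : G ⧸ G0) := by
    rw [← hj]
    show j (g • ((1 : G) : G ⧸ G0)) = _
    rw [hmk, mul_one]
  rw [hgo]
  constructor
  · intro h
    by_contra hg
    have hne' : ((g : G) : G ⧸ G0) ≠ o0 := by
      intro h'
      apply hg
      have h'' := h'.symm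
      rw [QuotientGroup.eq] at h''
      simpa using h''
    exact hsep _ _ (hne _ _ hne') h
  · intro hg
    have : ((g : G) : G ⧸ G0) = o0 := by
      have : o0 = ((g : G) : G ⧸ G0) := by
        rw [QuotientGroup.eq]
        simpa using hg
      exact this.symm
    rw [this]

end Pool.Agent.Helper485_VF
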