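import Mathlib
import Pool.Agent.Helper485_VF.Defs
import Pool.Agent.Helper485_VF.TreeRel
import Pool.Agent.Helper485_VF.Glue
import Pool.Agent.Helper485_VF.Saturated

set_option autoImplicit false

namespace Pool.Agent.Helper485_VF


/-! TARGET.
π.ker has finite index (Q finite). Take T, Λ, o from tree_rel with F = π.ker. n : G →* WW Q X, n g := inr (π g).
 For v in the orbit of o choose g_v ∈ F with g_v • o = v, g_o = 1 (possible: v = g o, g = f g0 with f ∈ F, g0 ∈ G0 since G0 ⊔ F = ⊤ and F is normal, g0 o = o).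
 σ g v := θ0 (g_{g v}⁻¹ * g * g_v) for v in the orbit of o (the argument fixes o, so it is in G0), σ g v := n g for all other v. It satisfies σ (g h) v = σ g (h v) * σ h v, and (σ g v).right = π g.
 t: for every G-orbit of ordered adjacent pairs choose a representative (u0,v0). Its stabiliser E in G meets F trivially (tree_rel), so it is finite (embeds into Q), and e ↦ σ e u0 is a homomorphism on E (e u0 = u0). saturated gives p with σ e u0 * inl p = inl p * inr (π e); t0 := (inl p)⁻¹ satisfies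
  n e * t0 = t0 * σ e u0 for e ∈ E. For (u,v) = g (u0,v0) put t u v := n g * t0 * (σ g u0)⁻¹; independent of the choice of g, so t (g u) (g v) = n g * t u v * (σ g u)⁻¹ for all adjacent u, v. (t u v).right = 1.
 glue gives φ, θ. θ g = σ g o = θ0 g for g ∈ G0 (v = o, φ o = 1, g_o = 1). (φ v).right = 1 for all v (right is a homomorphism, φ v = (t v u)⁻¹ t u v φ u for adjacent, Λ connected, φ o = 1), so (θ g).right = π g.
-/

theorem extend_aux_finite {G Q T : Type} [Group G] [Group Q] [Finite Q] [MulAction G T] (π : G →* Q)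
    (p : T × T) (h : ∀ f ∈ π.ker, f • p.1 = p.1 → f • p.2 = p.2 → f = 1) :
    Finite (MulAction.stabilizer G p) := by
  refine Finite.of_injective (fun e : MulAction.stabilizer G p => π (e : G)) ?_
  intro a b hab
  have h1 : (a⁻¹ * b : MulAction.stabilizer G p) ∈ (MulAction.stabilizer G p).subtype.ker := by
    rw [MonoidHom.mem_ker]
    have hs : ((a⁻¹ * b : MulAction.stabilizer G p) : G) • p = p := (a⁻¹ * b).2
    refine h _ ?_ ?_ ?_
    · rw [MonoidHom.mem_ker]
      simp only [Subgroup.subtype_apply, Subgroup.coe_mul, Subgroup.coe_inv, map_mul, map_inv]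
      simp only at hab
      rw [hab]
      simp
    · exact congrArg Prod.fst hs
    · exact congrArg Prod.snd hs
  rw [MonoidHom.mem_ker] at h1
  have h2 : a⁻¹ * b = 1 := Subtype.ext h1
  exact inv_mul_eq_one.1 h2

theorem extend_aux_t {G Q X T : Type} [Group G] [Group Q] [Finite Q] [MulAction Q X]
    [MulAction G T] (π : G →* Q) (Λ : SimpleGraph T)
    (hfree : ∀ f ∈ π.ker, ∀ u v, Λ.Adj u v → f • u = u → f • v = v → f = 1)
    (σ : G → T → WW Q X) (hσ : ∀ g h v, σ (g * h) v = σ g (h • v) * σ h v)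
    (hσr : ∀ g v, (σ g v).right = π g) :
    ∃ t0 : T × T → WW Q X, ∀ p : T × T, Λ.Adj p.1 p.2 → (t0 p).right = 1 ∧
      ∀ e : G, e • p = p → SemidirectProduct.inr (π e) * t0 p = t0 p * σ e p.1 := by
  have key : ∀ p : T × T, ∃ x : WW Q X, Λ.Adj p.1 p.2 → x.right = 1 ∧
      ∀ e : G, e • p = p → SemidirectProduct.inr (π e) * x = x * σ e p.1 := by
    intro p
    by_cases hp : Λ.Adj p.1 p.2
    · haveI : Finite (MulAction.stabilizer G p) :=
        extend_aux_finite π p fun f hf h1 h2 => hfree f hf p.1 p.2 hp h1 h2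
      have hone : ∀ v, σ 1 v = 1 := by
        intro v
        have h := hσ 1 1 v
        rw [one_smul, one_mul] at h
        exact left_eq_mul.1 h
      let α : MulAction.stabilizer G p →* WW Q X :=
        { toFun := fun e => σ (e : G) p.1
          map_one' := hone p.1
          map_mul' := fun a b => by
            have hb : (b : G) • p = p := b.2
            have hb1 : (b : G) • p.1 = p.1 := congrArg Prod.fst hb
            change σ ((a : G) * (b : G)) p.1 = _
            rw [hσ, hb1] }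
      obtain ⟨q, hq⟩ := saturated α
      refine ⟨(SemidirectProduct.inl q)⁻¹, fun _ => ⟨?_, fun e he => ?_⟩⟩
      · simp
      · have h := hq ⟨e, he⟩
        change σ e p.1 * SemidirectProduct.inl q =
          SemidirectProduct.inl q * SemidirectProduct.inr (σ e p.1).right at h
        rw [hσr] at h
        rw [mul_inv_eq_iff_eq_mul, mul_assoc, h]
        group
    · exact ⟨1, fun h => absurd h hp⟩
  choose t0 ht0 using key
  exact ⟨t0, ht0⟩

theorem extend_aux_t2 {G Q X T : Type} [Group G] [Group Q] [Finite Q] [MulAction Q X]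
    [MulAction G T] (π : G →* Q) (Λ : SimpleGraph T)
    (hadj : ∀ (g : G) (u v : T), Λ.Adj u v → Λ.Adj (g • u) (g • v))
    (hfree : ∀ f ∈ π.ker, ∀ u v, Λ.Adj u v → f • u = u → f • v = v → f = 1)
    (σ : G → T → WW Q X) (hσ : ∀ g h v, σ (g * h) v = σ g (h • v) * σ h v)
    (hσr : ∀ g v, (σ g v).right = π g) :
    ∃ t : T → T → WW Q X, (∀ u v, Λ.Adj u v → (t u v).right = 1) ∧
      ∀ g u v, Λ.Adj u v → t (g • u) (g • v) =
        SemidirectProduct.inr (π g) * t u v * (σ g u)⁻¹ := by
  classical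
  obtain ⟨t0, ht0⟩ := extend_aux_t π Λ hfree σ hσ hσr
  let rep : T × T → T × T := fun p => (Quotient.mk (MulAction.orbitRel G (T × T)) p).out
  have hrep : ∀ p, ∃ g : G, g • rep p = p := by
    intro p
    have h : (MulAction.orbitRel G (T × T)).r (rep p) p := Quotient.mk_out p
    have h2 : rep p ∈ MulAction.orbit G p := h
    obtain ⟨g, hg⟩ := h2
    refine ⟨g⁻¹, ?_⟩
    simp only at hg
    rw [← hg, inv_smul_smul]
  have hrepg : ∀ (g : G) p, rep (g • p) = rep p := by
    intro g p
    have : Quotient.mk (MulAction.orbitRel G (T × T)) (g • p) =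
        Quotient.mk (MulAction.orbitRel G (T × T)) p := by
      apply Quotient.sound
      exact ⟨g, rfl⟩
    simp only [rep, this]
  choose gp hgp using hrep
  have hadjrep : ∀ p : T × T, Λ.Adj p.1 p.2 → Λ.Adj (rep p).1 (rep p).2 := by
    intro p hp
    have h := hadj (gp p)⁻¹ p.1 p.2 hp
    have h1 : (gp p)⁻¹ • p = rep p := by
      rw [inv_smul_eq_iff]
      exact (hgp p).symm
    have h2 : (gp p)⁻¹ • p.1 = (rep p).1 := congrArg Prod.fst h1
    have h3 : (gp p)⁻¹ • p.2 = (rep p).2 := congrArg Prod.snd h1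
    rwa [h2, h3] at h
  let t : T → T → WW Q X := fun u v =>
    SemidirectProduct.inr (π (gp (u, v))) * t0 (rep (u, v)) * (σ (gp (u, v)) (rep (u, v)).1)⁻¹
  have hind : ∀ p : T × T, Λ.Adj p.1 p.2 → ∀ g : G, g • rep p = p →
      t p.1 p.2 = SemidirectProduct.inr (π g) * t0 (rep p) * (σ g (rep p).1)⁻¹ := by
    intro p hp g hg
    have he : (g⁻¹ * gp p) • rep p = rep p := by
      rw [mul_smul, hgp p, inv_smul_eq_iff]
      exact hg.symm
    have h1 := (ht0 (rep p) (hadjrep p hp)).2 _ he
    have he1 : (g⁻¹ * gp p) • (rep p).1 = (rep p).1 := congrArg Prod.fst he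
    have hg' : gp p = g * (g⁻¹ * gp p) := by group
    change SemidirectProduct.inr (π (gp p)) * t0 (rep p) * (σ (gp p) (rep p).1)⁻¹ = _
    rw [hg', hσ, he1, map_mul, map_mul, mul_assoc (SemidirectProduct.inr (π g)), h1, mul_inv_rev]
    group
  refine ⟨t, fun u v huv => ?_, fun g u v huv => ?_⟩
  · have h1 := (ht0 (rep (u, v)) (hadjrep (u, v) huv)).1
    change (SemidirectProduct.inr (π (gp (u, v))) * t0 (rep (u, v)) *
      (σ (gp (u, v)) (rep (u, v)).1)⁻¹).right = 1
    rw [SemidirectProduct.mul_right, SemidirectProduct.mul_right, SemidirectProduct.inv_right,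
      hσr, h1, SemidirectProduct.right_inr]
    simp
  · have h1 := hind (g • (u, v)) (hadj g u v huv) (g * gp (u, v)) (by
      rw [hrepg, mul_smul, hgp])
    change t (g • u) (g • v) = _ at h1
    rw [h1, hrepg, hσ, map_mul, map_mul, mul_inv_rev]
    have h2 : gp (u, v) • (rep (u, v)).1 = u := congrArg Prod.fst (hgp (u, v))
    rw [h2]
    change _ = SemidirectProduct.inr (π g) * (SemidirectProduct.inr (π (gp (u, v))) *
      t0 (rep (u, v)) * (σ (gp (u, v)) (rep (u, v)).1)⁻¹) * (σ g u)⁻¹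
    group

theorem extend_aux_sigma {G Q X T : Type} [Group G] [Group Q] [Finite Q] [MulAction Q X]
    [MulAction G T] (π : G →* Q) (G0 : Subgroup G) (hsup : G0 ⊔ π.ker = ⊤) (o : T)
    (ho : ∀ g : G, g • o = o ↔ g ∈ G0)
    (θ0 : G0 →* WW Q X) (hθ0 : ∀ g : G0, (θ0 g).right = π g) :
    ∃ σ : G → T → WW Q X, (∀ g h v, σ (g * h) v = σ g (h • v) * σ h v) ∧
      (∀ g v, (σ g v).right = π g) ∧ ∀ g : G0, σ g o = θ0 g := by
  classical
  have hex : ∀ v : T, ∃ g : G, v ∈ MulAction.orbit G o → (π g = 1 ∧ g • o = v) ∧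
      (v = o → g = 1) := by
    intro v
    by_cases hv : v = o
    · exact ⟨1, fun _ => ⟨⟨map_one _, by rw [hv, one_smul]⟩, fun _ => rfl⟩⟩
    · by_cases hvo : v ∈ MulAction.orbit G o
      · obtain ⟨g, hg⟩ := hvo
        simp only at hg
        have hgm : g ∈ π.ker ⊔ G0 := by rw [sup_comm, hsup]; trivial
        rw [Subgroup.mem_sup_of_normal_left] at hgm
        obtain ⟨f, hf, g0, hg0, rfl⟩ := hgm
        refine ⟨f, fun _ => ⟨⟨hf, ?_⟩, fun h => absurd h hv⟩⟩
        rw [mul_smul, (ho g0).2 hg0] at hg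
        exact hg
      · exact ⟨1, fun h => absurd h hvo⟩
  choose gv hgv using hex
  let ext : G → WW Q X := fun g => if h : g ∈ G0 then θ0 ⟨g, h⟩ else 1
  have hext : ∀ g (h : g ∈ G0), ext g = θ0 ⟨g, h⟩ := fun g h => dif_pos h
  have hextm : ∀ a b, a ∈ G0 → b ∈ G0 → ext (a * b) = ext a * ext b := by
    intro a b ha hb
    rw [hext a ha, hext b hb, hext _ (G0.mul_mem ha hb), ← map_mul]
    rfl
  have hoo : o ∈ MulAction.orbit G o := MulAction.mem_orbit_self o
  have horb : ∀ (g : G) v, v ∈ MulAction.orbit G o → g • v ∈ MulAction.orbit G o := by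
    rintro g v ⟨h, rfl⟩
    exact ⟨g * h, mul_smul _ _ _⟩
  have hmem : ∀ (g : G) v, v ∈ MulAction.orbit G o → (gv (g • v))⁻¹ * g * gv v ∈ G0 := by
    intro g v hv
    rw [← ho, mul_smul, mul_smul, (hgv v hv).1.2, inv_smul_eq_iff, (hgv _ (horb g v hv)).1.2]
  let σ : G → T → WW Q X := fun g v =>
    if v ∈ MulAction.orbit G o then ext ((gv (g • v))⁻¹ * g * gv v)
    else SemidirectProduct.inr (π g)
  refine ⟨σ, fun g h v => ?_, fun g v => ?_, fun g => ?_⟩
  · by_cases hv : v ∈ MulAction.orbit G o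
    · have hhv := horb h v hv
      simp only [σ, if_pos hv, if_pos hhv]
      rw [← hextm _ _ (hmem g _ hhv) (hmem h v hv), mul_smul]
      congr 1
      group
    · have hhv : h • v ∉ MulAction.orbit G o := fun hh => by
        apply hv
        have := horb h⁻¹ _ hh
        rwa [inv_smul_smul] at this
      simp only [σ, if_neg hv, if_neg hhv, map_mul]
  · by_cases hv : v ∈ MulAction.orbit G o
    · simp only [σ, if_pos hv]
      rw [hext _ (hmem g v hv), hθ0]
      simp only [map_mul, map_inv]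
      rw [(hgv v hv).1.1, (hgv _ (horb g v hv)).1.1]
      simp
    · simp only [σ, if_neg hv, SemidirectProduct.right_inr]
  · have h1 : (g : G) • o = o := (ho g).2 g.2
    simp only [σ, if_pos hoo, h1]
    rw [(hgv o hoo).2 rfl]
    simp only [inv_one, one_mul, mul_one]
    exact hext g g.2

theorem extend {G Q X : Type} [Group G] [Group Q] [Finite Q] [MulAction Q X] (π : G →* Q)
    {ι : Type} (e : π.ker ≃* FreeGroup ι) (S : Set ι) (G0 : Subgroup G)
    (h0 : ∀ f : π.ker, (f : G) ∈ G0 ↔ e f ∈ Subgroup.closure (FreeGroup.of '' S))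
    (hsup : G0 ⊔ π.ker = ⊤) (Φ : Set G) (hΦ : Φ.Finite) (hgen : G0 ⊔ Subgroup.closure Φ = ⊤)
    (θ0 : G0 →* WW Q X) (hθ0 : ∀ g : G0, (θ0 g).right = π g) :
    ∃ θ : G →* WW Q X, (∀ g : G0, θ g = θ0 g) ∧ ∀ g, (θ g).right = π g := by
  classical
  obtain ⟨T, _, Λ, o, hΛ, hadj, hfree, ho⟩ := tree_rel π.ker e S G0 h0 hsup Φ hΦ hgen
  obtain ⟨σ, hσ, hσr, hσo⟩ := extend_aux_sigma π G0 hsup o ho θ0 hθ0
  obtain ⟨t, htr, ht⟩ := extend_aux_t2 π Λ hadj hfree σ hσ hσr
  obtain ⟨φ, θ, hφo, hφ, hθ⟩ := glue Λ hΛ hadj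
    ((SemidirectProduct.inr : Q →* WW Q X).comp π) σ hσ t ht o
  have hφr : ∀ v, (φ v).right = 1 := by
    intro v
    obtain ⟨w⟩ := hΛ.1.preconnected o v
    have : ∀ (a b : T), Λ.Walk a b → (φ a).right = 1 → (φ b).right = 1 := by
      intro a b w
      induction w with
      | nil => exact id
      | cons h _ ih =>
        intro ha
        apply ih
        rw [hφ _ _ h]
        simp only [SemidirectProduct.mul_right, SemidirectProduct.inv_right, ha, htr _ _ h,
          htr _ _ h.symm, inv_one, one_mul]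
    exact this o v w (by rw [hφo]; rfl)
  refine ⟨θ, fun g => ?_, fun g => ?_⟩
  · rw [hθ g o, (ho g).2 g.2, hφo, hσo]
    simp
  · rw [hθ g o]
    simp only [SemidirectProduct.mul_right, SemidirectProduct.inv_right, hφr, hσr, inv_one, one_mul,
      mul_one]

end Pool.Agent.Helper485_VF
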