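import Mathlib
import Pool.Agent.Helper485_VF.Defs
import Pool.Agent.Helper485_VF.Extend

set_option autoImplicit false

namespace Pool.Agent.Helper485_VF


/-! TARGET.
Translate: R0 is the graph of a homomorphism θ0 : G0 →* WW Q X over Q (Fun: the fibre over 1 is trivial, so for g ∈ G0 = dom R0 there is exactly one w with (g,w) ∈ R0). Apply extend to the group G1 (subtype), π restricted to G1, its kernel = (G1 ⊓ π.ker) as a subgroup of G1; FFac (G0 ⊓ ker) (G1 ⊓ ker)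
 gives ι, b : ι → G, S with FreeGroup.lift b injective with range closure (range b) = G1 ⊓ π.ker, closure (b '' S) = G0 ⊓ π.ker, so an isomorphism e : ker ≃* FreeGroup ι with e f ∈ closure (of '' S) ↔ f ∈ G0. G0.subgroupOf G1 ⊔ ker = ⊤ from hQ (modular law: g1 = g0 f, f ∈ ker, then f = g0⁻¹ g1 ∈ G1),
 Φ ⊆ G1 generates with G0. The result θ : G1 →* WW Q X has graph R1 = {(g, θ g) | g ∈ G1} as a subgroup of G × WW Q X; R0 ≤ R1, Fun, dom R1 = G1.
-/

theorem extend_fun {G Q X : Type} [Group G] [Group Q] [Finite Q] [MulAction Q X] (π : G →* Q)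
    (G0 G1 : Subgroup G) (h01 : G0 ≤ G1) (hQ : G1 ≤ G0 ⊔ π.ker)
    (hff : FFac (G0 ⊓ π.ker) (G1 ⊓ π.ker)) (Φ : Set G) (hΦ : Φ.Finite)
    (hgen : G1 = G0 ⊔ Subgroup.closure Φ) (R0 : Subgroup (G × WW Q X)) (hR0 : Fun π R0)
    (hd : dom R0 = G0) : ∃ R1 : Subgroup (G × WW Q X), R0 ≤ R1 ∧ Fun π R1 ∧ dom R1 = G1 := by
  classical
  obtain ⟨hR1, hR2⟩ := hR0
  -- the homomorphism with graph R0
  have huniq : ∀ (g : G) (w w' : WW Q X), (g, w) ∈ R0 → (g, w') ∈ R0 → w = w' := by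
    intro g w w' h h'
    have h1 : (g, w)⁻¹ * (g, w') ∈ R0 := R0.mul_mem (R0.inv_mem h) h'
    have h2 : (g, w)⁻¹ * (g, w') = ((1 : G), w⁻¹ * w') := by
      rw [Prod.inv_mk, Prod.mk_mul_mk, inv_mul_cancel]
    rw [h2] at h1
    have h3 := hR1 _ h1
    exact (inv_mul_eq_one.1 h3)
  have hex : ∀ g : G0, ∃ w : WW Q X, ((g : G), w) ∈ R0 := by
    intro g
    have h1 : (g : G) ∈ dom R0 := by rw [hd]; exact g.2
    obtain ⟨⟨a, w⟩, hp, hpa⟩ := h1
    have h2 : a = (g : G) := hpa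
    rw [h2] at hp
    exact ⟨w, hp⟩
  choose F hF using hex
  let θ0 : G0 →* WW Q X :=
    { toFun := F
      map_one' := hR1 _ (by simpa using hF 1)
      map_mul' := fun x y => huniq _ _ _ (hF (x * y)) (by
        have := R0.mul_mem (hF x) (hF y)
        simpa using this) }
  have hθ0R : ∀ g : G0, ((g : G), θ0 g) ∈ R0 := hF
  have hθ0r : ∀ g : G0, (θ0 g).right = π g := fun g => hR2 _ (hF g)
  -- the kernel of the restriction
  obtain ⟨ι, b, S, hinj, hC, hA⟩ := hff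
  let π1 : G1 →* Q := π.comp G1.subtype
  have hbmem : ∀ i, b i ∈ G1 ⊓ π.ker := by
    intro i
    rw [← hC]
    exact Subgroup.subset_closure ⟨i, rfl⟩
  let f : FreeGroup ι →* π1.ker := FreeGroup.lift fun i =>
    (⟨⟨b i, (hbmem i).1⟩, (hbmem i).2⟩ : π1.ker)
  have hf : ∀ x, (((f x : π1.ker) : G1) : G) = FreeGroup.lift b x := by
    intro x
    have h1 : (G1.subtype.comp π1.ker.subtype).comp f = FreeGroup.lift b := by
      apply FreeGroup.ext_hom
      intro i
      simp [f]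
    exact DFunLike.congr_fun h1 x
  have hfinj : Function.Injective f := by
    intro x y hxy
    apply hinj
    rw [← hf x, ← hf y, hxy]
  have hrange : ∀ T : Set ι, Subgroup.closure (b '' T) =
      (Subgroup.closure (FreeGroup.of '' T)).map (FreeGroup.lift b) := by
    intro T
    rw [MonoidHom.map_closure, Set.image_image]
    simp
  have hfsurj : Function.Surjective f := by
    intro y
    have h1 : ((y : G1) : G) ∈ G1 ⊓ π.ker := ⟨(y : G1).2, y.2⟩
    rw [← hC, ← Set.image_univ, hrange] at h1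
    obtain ⟨x, _, hx⟩ := h1
    refine ⟨x, ?_⟩
    apply Subtype.ext
    apply Subtype.ext
    rw [hf]
    exact hx
  let e : π1.ker ≃* FreeGroup ι := (MulEquiv.ofBijective f ⟨hfinj, hfsurj⟩).symm
  have he : ∀ y : π1.ker, FreeGroup.lift b (e y) = ((y : G1) : G) := by
    intro y
    rw [← hf]
    have : f (e y) = y := (MulEquiv.ofBijective f ⟨hfinj, hfsurj⟩).apply_symm_apply y
    rw [this]
  have h0 : ∀ y : π1.ker, (y : G1) ∈ G0.subgroupOf G1 ↔
      e y ∈ Subgroup.closure (FreeGroup.of '' S) := by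
    intro y
    rw [Subgroup.mem_subgroupOf]
    constructor
    · intro hy
      have h1 : ((y : G1) : G) ∈ G0 ⊓ π.ker := ⟨hy, y.2⟩
      rw [← hA, hrange] at h1
      obtain ⟨x, hx, hxy⟩ := h1
      have h2 : x = e y := hinj (by rw [he]; exact hxy)
      rw [← h2]
      exact hx
    · intro hy
      have h1 : ((y : G1) : G) ∈ Subgroup.closure (b '' S) := by
        rw [hrange]
        exact ⟨e y, hy, he y⟩
      rw [hA] at h1
      exact h1.1
  have hsup : G0.subgroupOf G1 ⊔ π1.ker = ⊤ := by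
    rw [eq_top_iff]
    rintro ⟨g, hg⟩ -
    have h1 := hQ hg
    rw [← SetLike.mem_coe, Subgroup.mul_normal] at h1
    obtain ⟨g0, hg0, k, hk, hgk⟩ := h1
    have hk1 : k ∈ G1 := by
      have h2 : k = g0⁻¹ * g := by rw [← hgk]; simp
      rw [h2]
      exact G1.mul_mem (G1.inv_mem (h01 hg0)) hg
    have h3 : (⟨g, hg⟩ : G1) = ⟨g0, h01 hg0⟩ * ⟨k, hk1⟩ := Subtype.ext hgk.symm
    rw [h3]
    refine Subgroup.mul_mem _ (Subgroup.mem_sup_left ?_) (Subgroup.mem_sup_right ?_)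
    · rw [Subgroup.mem_subgroupOf]; exact hg0
    · exact hk
  have hΦG : Φ ⊆ G1 := by
    intro x hx
    rw [hgen]
    exact Subgroup.mem_sup_right (Subgroup.subset_closure hx)
  have hgen1 : G0.subgroupOf G1 ⊔ Subgroup.closure ((fun x : G1 => (x : G)) ⁻¹' Φ) = ⊤ := by
    apply Subgroup.map_injective G1.subtype_injective
    rw [Subgroup.map_sup, MonoidHom.map_closure, Subgroup.subgroupOf_map_subtype,
      inf_eq_left.2 h01, ← MonoidHom.range_eq_map, Subgroup.range_subtype]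
    have h1 : (G1.subtype : G1 → G) '' ((fun x : G1 => (x : G)) ⁻¹' Φ) = Φ := by
      ext x
      constructor
      · rintro ⟨y, hy, rfl⟩
        exact hy
      · intro hx
        exact ⟨⟨x, hΦG hx⟩, hx, rfl⟩
    rw [h1]
    exact hgen.symm
  obtain ⟨θ, hθ1, hθ2⟩ := extend π1 e S (G0.subgroupOf G1) h0 hsup
    ((fun x : G1 => (x : G)) ⁻¹' Φ) (hΦ.preimage Subtype.val_injective.injOn) hgen1
    (θ0.comp (Subgroup.subgroupOfEquivOfLe h01).toMonoidHom)
    (fun g => hθ0r _)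
  refine ⟨(G1.subtype.prod θ).range, ?_, ⟨?_, ?_⟩, ?_⟩
  · rintro ⟨g, w⟩ hgw
    have hg0 : g ∈ G0 := by
      rw [← hd]
      exact ⟨(g, w), hgw, rfl⟩
    refine ⟨⟨g, h01 hg0⟩, ?_⟩
    have h1 : θ ⟨g, h01 hg0⟩ = w := by
      have h2 := hθ1 ⟨⟨g, h01 hg0⟩, by rw [Subgroup.mem_subgroupOf]; exact hg0⟩
      have h3 := hθ0R ⟨g, hg0⟩
      have h4 : (θ0.comp (Subgroup.subgroupOfEquivOfLe h01).toMonoidHom)
        ⟨⟨g, h01 hg0⟩, by rw [Subgroup.mem_subgroupOf]; exact hg0⟩ = θ0 ⟨g, hg0⟩ := rfl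
      rw [h4] at h2
      exact h2.trans (huniq g _ _ h3 hgw)
    rw [MonoidHom.prod_apply, h1]
    rfl
  · rintro w ⟨g, hg⟩
    rw [MonoidHom.prod_apply, Prod.mk.injEq] at hg
    have h1 : g = 1 := Subtype.ext hg.1
    rw [← hg.2, h1, map_one]
  · rintro p ⟨g, rfl⟩
    exact hθ2 g
  · unfold dom
    rw [MonoidHom.map_range]
    have h1 : (MonoidHom.fst G (WW Q X)).comp (G1.subtype.prod θ) = G1.subtype := rfl
    rw [h1, Subgroup.range_subtype]

end Pool.Agent.Helper485_VF
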