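import Mathlib
import Pool.Agent.Helper485_VF.Defs
import Pool.Agent.H97R3.VR.Main
import Pool.Agent.Helper270.Tree

set_option autoImplicit false

namespace Pool.Agent.Helper485_VF
open Pool.Agent.H97R3.VR (IsVirtualRetract)

/-! TARGET.
Use Pool.Agent.H97R3.VR.main' (file Pool/Agent/H97R3/VR/Main.lean of the starting tree; read its definitions Btw, IsMedian, Square, IsConvex, Step, Par, IsSpecialAction, Dat): it needs a median graph X (here Λ), N of finite index with IsSpecialAction X N, a convex H-invariant C, nonempty, and a finite T with H T ⊇ C.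
 (1) a tree is a median graph and has no squares (Square x y w z: x,w both adjacent to y and to z, y ≠ z, x ≠ w gives a cycle / two different paths). Facts on distances in trees: Pool/Agent/Helper270/Tree.lean (parent_unique, geod_unique, junction, ...), Helper475/RSA1.lean. Mathlib: SimpleGraph.IsTree.existsUnique_path, dist_eq_dist_add_one_of_adj.
 (2) fix v0 and let N := {f ∈ F | Even (Λ.dist v0 (f • v0))}: the elements g of G with dist v0 (g v0) even form a subgroup of index ≤ 2 (a tree is bipartite: dist v0 v mod 2 changes along edges; automorphisms preserve or exchange the classes), so N has finite index. For n ∈ N and adjacent x, y: n x ≠ y (parity: dist x (n x) is even for every x).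
 (3) IsSpecialAction Λ N: free from hfree; Par Λ N (x,y) (x',y') without squares means (x',y') = n (x,y) or n (y,x) for an n ∈ N (induct over EqvGen); so (x,y) ~ (x,z) gives n x = x, n = 1, y = z, or n x = z, n y = x, impossible by parity. nointer: there are no squares.
 (4) C := {m | ∃ h h' ∈ H, Btw Λ (h • v0) (h' • v0) m}. Convex (tree), H-invariant, contains v0. H generated by a finite set Σ: T := {m | ∃ s ∈ Σ ∪ Σ⁻¹ ∪ {1}, Btw Λ v0 (s • v0) m}, finite (a geodesic interval of a tree is finite: dist + 1 elements, determined by the distance to v0). For m between h v0 and h' v0 write h⁻¹ h' = s_1 … s_k; in a tree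
  the path from h v0 to h' v0 is contained in the union of the paths from h s_1…s_{i-1} v0 to h s_1…s_i v0, so a translate of m is in T. (Alternatively any other convex H-cocompact C.)
-/


section treefacts

open Pool.Agent.H97R3.VR (IsMedian Square IsConvex Step Par IsSpecialAction Dat)

variable {T : Type} {Λ : SimpleGraph T}

theorem lr_concat (hΛ : Λ.IsTree) {u v' v : T} (hadj : Λ.Adj v' v)
    (hd : Λ.dist u v = Λ.dist u v' + 1) : ∀ (k : ℕ) (w : T), Λ.dist v w = k →
    Λ.dist w v' = Λ.dist w v + 1 → Λ.dist u w = Λ.dist u v + Λ.dist v w := by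
  intro k
  induction k with
  | zero =>
    intro w hw _
    have : v = w := hΛ.connected.dist_eq_zero_iff.1 hw
    subst this
    simp
  | succ k ih =>
    intro w hw hw2
    obtain ⟨w', hadj', hw'⟩ := Pool.Agent.H97R3.VR.exists_pred hΛ.connected hw
    have hdw1 : Λ.dist w w' = 1 := SimpleGraph.dist_eq_one_iff_adj.2 hadj'.symm
    have c1 : Λ.dist w v = Λ.dist v w := SimpleGraph.dist_comm
    have c2 : Λ.dist w' v = Λ.dist v w' := SimpleGraph.dist_comm
    have h3 : Λ.dist w' v' = Λ.dist w' v + 1 := by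
      have t1 : Λ.dist w v' ≤ Λ.dist w w' + Λ.dist w' v' := hΛ.connected.dist_triangle
      rcases hΛ.dist_eq_dist_add_one_of_adj w' hadj with h | h
      · exact h
      · omega
    have h4 := ih w' hw' h3
    rcases hΛ.dist_eq_dist_add_one_of_adj u hadj' with h5 | h5
    · -- w is closer to u than w'
      exfalso
      rcases Nat.eq_zero_or_pos k with h0 | h0
      · subst h0
        have : v = w' := hΛ.connected.dist_eq_zero_iff.1 hw'
        subst this
        have h6 := Pool.Agent.Helper270.Tree.parent_unique hΛ hadj hadj'.symm hd h5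
        subst h6
        simp at hw2
      · obtain ⟨j, rfl⟩ : ∃ j, k = j + 1 := ⟨k - 1, by omega⟩
        obtain ⟨w'', hadj'', hw''⟩ := Pool.Agent.H97R3.VR.exists_pred hΛ.connected hw'
        have t2 : Λ.dist u w'' ≤ Λ.dist u v + Λ.dist v w'' := hΛ.connected.dist_triangle
        have h6 : Λ.dist u w' = Λ.dist u w'' + 1 := by
          rcases hΛ.dist_eq_dist_add_one_of_adj u hadj'' with h7 | h7
          · omega
          · exact h7
        have h7 := Pool.Agent.Helper270.Tree.parent_unique hΛ hadj'' hadj'.symm h6 h5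
        subst h7
        omega
    · omega

theorem lr_concat' (hΛ : Λ.IsTree) {u v' v w : T} (hadj : Λ.Adj v' v)
    (hd : Λ.dist u v = Λ.dist u v' + 1) (hw : Λ.dist w v' = Λ.dist w v + 1) :
    H97R3.VR.Btw Λ u w v := by
  have := lr_concat hΛ hadj hd _ w rfl hw
  unfold H97R3.VR.Btw
  omega

theorem lr_median (hΛ : Λ.IsTree) (w : T) : ∀ (n : ℕ) (u v : T), Λ.dist u v = n →
    ∃ m, H97R3.VR.Btw Λ u v m ∧ H97R3.VR.Btw Λ v w m ∧ H97R3.VR.Btw Λ u w m := by
  intro n
  induction n with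
  | zero =>
    intro u v h
    have : u = v := hΛ.connected.dist_eq_zero_iff.1 h
    subst this
    refine ⟨u, ?_, ?_, ?_⟩ <;> unfold H97R3.VR.Btw <;> simp
  | succ n ih =>
    intro u v h
    obtain ⟨v', hadj, hv'⟩ := Pool.Agent.H97R3.VR.exists_pred hΛ.connected h
    have h1 : Λ.dist v' v = 1 := SimpleGraph.dist_eq_one_iff_adj.2 hadj
    have h1' : Λ.dist v v' = 1 := SimpleGraph.dist_eq_one_iff_adj.2 hadj.symm
    rcases hΛ.dist_eq_dist_add_one_of_adj w hadj with h2 | h2
    · refine ⟨v, ?_, ?_, lr_concat' hΛ hadj (by omega) h2⟩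
      · unfold H97R3.VR.Btw
        simp
      · unfold H97R3.VR.Btw
        simp
    · obtain ⟨m, h3, h4, h5⟩ := ih u v' hv'
      unfold H97R3.VR.Btw at h3 h4 h5
      have t1 : Λ.dist m v ≤ Λ.dist m v' + Λ.dist v' v := hΛ.connected.dist_triangle
      have t2 : Λ.dist u v ≤ Λ.dist u m + Λ.dist m v := hΛ.connected.dist_triangle
      have t3 : Λ.dist v m ≤ Λ.dist v v' + Λ.dist v' m := hΛ.connected.dist_triangle
      have t4 : Λ.dist v w ≤ Λ.dist v m + Λ.dist m w := hΛ.connected.dist_triangle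
      have c1 : Λ.dist v' w = Λ.dist w v' := SimpleGraph.dist_comm
      have c2 : Λ.dist v w = Λ.dist w v := SimpleGraph.dist_comm
      refine ⟨m, ?_, ?_, h5⟩
      · unfold H97R3.VR.Btw
        omega
      · unfold H97R3.VR.Btw
        omega

theorem lr_isMedian (hΛ : Λ.IsTree) : IsMedian Λ where
  conn := hΛ.connected
  med := by
    intro u v w
    obtain ⟨m, h1, h2, h3⟩ := lr_median hΛ w _ u v rfl
    refine ⟨m, ⟨h1, h2, h3⟩, ?_⟩
    rintro m' ⟨h1', h2', h3'⟩
    unfold H97R3.VR.Btw at *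
    have c1 : Λ.dist v m = Λ.dist m v := SimpleGraph.dist_comm
    have c2 : Λ.dist v m' = Λ.dist m' v := SimpleGraph.dist_comm
    exact Pool.Agent.Helper270.Tree.geod_unique hΛ h1' h1 (by omega)

/-- triangles have even perimeter -/
theorem lr_parity (hΛ : Λ.IsTree) (a b c : T) :
    (Λ.dist a b + Λ.dist b c + Λ.dist a c) % 2 = 0 := by
  obtain ⟨m, h1, h2, h3⟩ := lr_median hΛ c _ a b rfl
  unfold H97R3.VR.Btw at h1 h2 h3
  have c1 : Λ.dist b m = Λ.dist m b := SimpleGraph.dist_comm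
  omega

theorem lr_nosquare (hΛ : Λ.IsTree) {x y w z : T} (h : Square Λ x y w z) : False := by
  have h1 : Λ.dist x y = 1 := SimpleGraph.dist_eq_one_iff_adj.2 h.xy
  have h2 : Λ.dist y w = 1 := SimpleGraph.dist_eq_one_iff_adj.2 h.yw
  have h3 : Λ.dist x z = 1 := SimpleGraph.dist_eq_one_iff_adj.2 h.zx.symm
  have h4 := lr_parity hΛ x y w
  have h5 : Λ.dist x w ≠ 0 := fun hh => h.ne (hΛ.connected.dist_eq_zero_iff.1 hh)
  have h6 : Λ.dist x w ≤ Λ.dist x y + Λ.dist y w := hΛ.connected.dist_triangle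
  exact h.ne' (Pool.Agent.Helper270.Tree.parent_unique hΛ h.yw h.wz.symm (z := x) (by omega)
    (by omega))

/-- a geodesic is covered by the geodesics from its ends to any third point -/
theorem lr_cover (hΛ : Λ.IsTree) (p : T) {x y z : T} (h : H97R3.VR.Btw Λ x y z) :
    H97R3.VR.Btw Λ p x z ∨ H97R3.VR.Btw Λ p y z := by
  rcases Nat.eq_zero_or_pos (Λ.dist p z) with h0 | h0
  · left
    have : p = z := hΛ.connected.dist_eq_zero_iff.1 h0
    subst this
    unfold H97R3.VR.Btw
    simp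
  · obtain ⟨q, hq, hq2⟩ := Pool.Agent.H97R3.VR.exists_pred (u := p) (x := z)
      (n := Λ.dist p z - 1) hΛ.connected (by omega)
    have hpz : Λ.dist p z = Λ.dist p q + 1 := by omega
    rcases hΛ.dist_eq_dist_add_one_of_adj x hq with h1 | h1
    · exact Or.inl (lr_concat' hΛ hq hpz h1)
    · rcases hΛ.dist_eq_dist_add_one_of_adj y hq with h2 | h2
      · exact Or.inr (lr_concat' hΛ hq hpz h2)
      · exfalso
        unfold H97R3.VR.Btw at h
        have t : Λ.dist x y ≤ Λ.dist x q + Λ.dist q y := hΛ.connected.dist_triangle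
        have c1 : Λ.dist q y = Λ.dist y q := SimpleGraph.dist_comm
        have c2 : Λ.dist z y = Λ.dist y z := SimpleGraph.dist_comm
        omega

theorem lr_btw_symm {x y z : T} (h : H97R3.VR.Btw Λ x y z) : H97R3.VR.Btw Λ y x z := by
  unfold H97R3.VR.Btw at *
  have c1 : Λ.dist y z = Λ.dist z y := SimpleGraph.dist_comm
  have c2 : Λ.dist z x = Λ.dist x z := SimpleGraph.dist_comm
  have c3 : Λ.dist x y = Λ.dist y x := SimpleGraph.dist_comm
  omega

theorem lr_btw_trans (hΛ : Λ.IsTree) {x y z w : T} (h : H97R3.VR.Btw Λ x y z) (h2 : H97R3.VR.Btw Λ x z w) :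
    H97R3.VR.Btw Λ x y w := by
  unfold H97R3.VR.Btw at *
  have t1 : Λ.dist w y ≤ Λ.dist w z + Λ.dist z y := hΛ.connected.dist_triangle
  have t2 : Λ.dist x y ≤ Λ.dist x w + Λ.dist w y := hΛ.connected.dist_triangle
  omega

theorem lr_interval_finite (hΛ : Λ.IsTree) (x y : T) : {m | H97R3.VR.Btw Λ x y m}.Finite := by
  refine Set.Finite.of_finite_image (f := fun m => Λ.dist x m) ?_ ?_
  · refine (Set.finite_Iic (Λ.dist x y)).subset ?_
    rintro _ ⟨m, hm, rfl⟩
    have hm' : H97R3.VR.Btw Λ x y m := hm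
    unfold H97R3.VR.Btw at hm'
    show Λ.dist x m ≤ Λ.dist x y
    omega
  · intro a ha b hb hab
    exact Pool.Agent.Helper270.Tree.geod_unique hΛ ha hb hab

end treefacts

section action

open Pool.Agent.H97R3.VR (IsMedian Square IsConvex Step Par IsSpecialAction Dat)

variable {G T : Type} [Group G] [MulAction G T] {Λ : SimpleGraph T}

theorem lr_dist_le (hΛ : Λ.IsTree)
    (hadj : ∀ (g : G) (u v : T), Λ.Adj u v → Λ.Adj (g • u) (g • v)) (g : G) (u v : T) :
    Λ.dist (g • u) (g • v) ≤ Λ.dist u v := by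
  obtain ⟨p, hp⟩ := hΛ.connected.exists_walk_length_eq_dist u v
  let f : Λ →g Λ := ⟨fun x => g • x, fun {a b} h => hadj g a b h⟩
  have := SimpleGraph.dist_le (p.map f)
  rw [SimpleGraph.Walk.length_map, hp] at this
  exact this

theorem lr_dist (hΛ : Λ.IsTree)
    (hadj : ∀ (g : G) (u v : T), Λ.Adj u v → Λ.Adj (g • u) (g • v)) (g : G) (u v : T) :
    Λ.dist (g • u) (g • v) = Λ.dist u v := by
  refine le_antisymm (lr_dist_le hΛ hadj g u v) ?_
  have := lr_dist_le hΛ hadj g⁻¹ (g • u) (g • v)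
  rwa [inv_smul_smul, inv_smul_smul] at this

theorem lr_btw (hΛ : Λ.IsTree)
    (hadj : ∀ (g : G) (u v : T), Λ.Adj u v → Λ.Adj (g • u) (g • v)) (g : G) {u v m : T}
    (h : H97R3.VR.Btw Λ u v m) : H97R3.VR.Btw Λ (g • u) (g • v) (g • m) := by
  unfold H97R3.VR.Btw at *
  rw [lr_dist hΛ hadj, lr_dist hΛ hadj, lr_dist hΛ hadj]
  exact h

/-- the parity homomorphism -/
noncomputable def lrPar (hΛ : Λ.IsTree)
    (hadj : ∀ (g : G) (u v : T), Λ.Adj u v → Λ.Adj (g • u) (g • v)) (v0 : T) :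
    G →* Multiplicative (ZMod 2) where
  toFun g := Multiplicative.ofAdd ((Λ.dist v0 (g • v0) : ℕ) : ZMod 2)
  map_one' := by simp
  map_mul' a b := by
    rw [← ofAdd_add]
    congr 1
    have h1 := lr_parity hΛ v0 (a • v0) ((a * b) • v0)
    have h2 : Λ.dist (a • v0) ((a * b) • v0) = Λ.dist v0 (b • v0) := by
      rw [mul_smul, lr_dist hΛ hadj]
    rw [h2] at h1
    have h3 : (((Λ.dist v0 (a • v0) + Λ.dist v0 (b • v0) + Λ.dist v0 ((a * b) • v0) : ℕ)) : ZMod 2) = 0 := by
      rw [ZMod.natCast_eq_zero_iff]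
      exact Nat.dvd_of_mod_eq_zero h1
    push_cast at h3
    have h4 : (((Λ.dist v0 ((a * b) • v0) : ℕ)) : ZMod 2) = -(((Λ.dist v0 ((a * b) • v0) : ℕ)) : ZMod 2) := by
      generalize (((Λ.dist v0 ((a * b) • v0) : ℕ)) : ZMod 2) = t
      revert t
      decide
    rw [h4]
    linear_combination -h3

theorem lrPar_one (hΛ : Λ.IsTree)
    (hadj : ∀ (g : G) (u v : T), Λ.Adj u v → Λ.Adj (g • u) (g • v)) (v0 : T) (g : G)
    (h : lrPar hΛ hadj v0 g = 1) (x : T) : Λ.dist x (g • x) % 2 = 0 := by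
  have h0 : (((Λ.dist v0 (g • v0) : ℕ)) : ZMod 2) = 0 := h
  rw [ZMod.natCast_eq_zero_iff] at h0
  have h1 : Λ.dist v0 (g • v0) % 2 = 0 := Nat.mod_eq_zero_of_dvd h0
  have h2 := lr_parity hΛ v0 x (g • x)
  have h3 := lr_parity hΛ v0 (g • v0) (g • x)
  rw [lr_dist hΛ hadj] at h3
  omega

theorem lr_par (hΛ : Λ.IsTree) (N : Subgroup G) {e f : T × T} (h : Par Λ N e f) :
    ∃ n ∈ N, f = (n • e.1, n • e.2) ∨ f = (n • e.2, n • e.1) := by
  unfold Par at h
  induction h with
  | rel e f h =>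
    cases h with
    | flip x y => exact ⟨1, N.one_mem, Or.inr (by simp)⟩
    | sq x y w z hs => exact (lr_nosquare hΛ hs).elim
    | act n hn x y => exact ⟨n, hn, Or.inl rfl⟩
  | refl e => exact ⟨1, N.one_mem, Or.inl (by simp)⟩
  | symm e f _ ih =>
    obtain ⟨n, hn, h | h⟩ := ih
    · exact ⟨n⁻¹, N.inv_mem hn, Or.inl (by rw [h]; simp)⟩
    · exact ⟨n⁻¹, N.inv_mem hn, Or.inr (by rw [h]; simp)⟩
  | trans e f g _ _ ih1 ih2 =>
    obtain ⟨n, hn, h | h⟩ := ih1
    · obtain ⟨n', hn', h' | h'⟩ := ih2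
      · exact ⟨n' * n, N.mul_mem hn' hn, Or.inl (by rw [h', h]; simp [mul_smul])⟩
      · exact ⟨n' * n, N.mul_mem hn' hn, Or.inr (by rw [h', h]; simp [mul_smul])⟩
    · obtain ⟨n', hn', h' | h'⟩ := ih2
      · exact ⟨n' * n, N.mul_mem hn' hn, Or.inr (by rw [h', h]; simp [mul_smul])⟩
      · exact ⟨n' * n, N.mul_mem hn' hn, Or.inl (by rw [h', h]; simp [mul_smul])⟩

/-- the hull of an orbit -/
def lrC (Λ : SimpleGraph T) (H : Subgroup G) (S : Set G) (v0 : T) : Set T :=
  {m | ∃ h ∈ H, ∃ s ∈ S, H97R3.VR.Btw Λ (h • v0) ((h * s) • v0) m}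

theorem lr_orbit (hΛ : Λ.IsTree) (H : Subgroup G) (S : Set G) (hS : Subgroup.closure S = H)
    (h1 : (1 : G) ∈ S) (v0 : T) (h : G) (hh : h ∈ H) :
    ∀ z, H97R3.VR.Btw Λ v0 (h • v0) z → z ∈ lrC Λ H S v0 := by
  have hSH : ∀ s ∈ S, s ∈ H := fun s hs => hS ▸ Subgroup.subset_closure hs
  rw [← hS] at hh
  induction hh using Subgroup.closure_induction_right with
  | one =>
    intro z hz
    exact ⟨1, H.one_mem, 1, h1, by simpa using hz⟩
  | mul_right x hx y hy ih =>
    intro z hz
    rw [hS] at hx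
    rcases lr_cover hΛ (x • v0) hz with h | h
    · exact ih z (lr_btw_symm h)
    · exact ⟨x, hx, y, hy, h⟩
  | mul_inv_cancel x hx y hy ih =>
    intro z hz
    rw [hS] at hx
    rcases lr_cover hΛ (x • v0) hz with h | h
    · exact ih z (lr_btw_symm h)
    · refine ⟨x * y⁻¹, H.mul_mem hx (H.inv_mem (hSH y hy)), y, hy, ?_⟩
      rw [inv_mul_cancel_right]
      exact lr_btw_symm h

end action

theorem lr_tree {G T : Type} [Group G] [MulAction G T] (Λ : SimpleGraph T) (hΛ : Λ.IsTree)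
    (hadj : ∀ (g : G) (u v : T), Λ.Adj u v → Λ.Adj (g • u) (g • v)) (F : Subgroup G)
    [F.FiniteIndex] (hfree : ∀ f ∈ F, ∀ v : T, f • v = v → f = 1) (H : Subgroup G)
    (hH : H.FG) : IsVirtualRetract H := by
  classical
  obtain ⟨v0⟩ := hΛ.connected.nonempty
  let N : Subgroup G := F ⊓ (lrPar hΛ hadj v0).ker
  have hNF : N ≤ F := inf_le_left
  have hker : (lrPar hΛ hadj v0).ker.FiniteIndex := inferInstance
  have hNfin : N.FiniteIndex := inferInstance
  have hNpar : ∀ n ∈ N, ∀ x : T, Λ.dist x (n • x) % 2 = 0 := fun n hn x =>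
    lrPar_one hΛ hadj v0 n (MonoidHom.mem_ker.1 hn.2) x
  have hsp : H97R3.VR.IsSpecialAction Λ N :=
    { free := fun n hn x hx => hfree n (hNF hn) x hx
      noself := by
        intro x y z hxy hxz hp
        obtain ⟨n, hn, h | h⟩ := lr_par hΛ N hp
        · obtain ⟨h1, h2⟩ := Prod.mk.inj h
          have := hfree n (hNF hn) x h1.symm
          subst this
          simpa using h2.symm
        · exfalso
          obtain ⟨h1, h2⟩ := Prod.mk.inj h
          simp only at h1
          have h3 := hNpar n hn y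
          rw [← h1] at h3
          have h4 : Λ.dist y x = 1 := SimpleGraph.dist_eq_one_iff_adj.2 hxy.symm
          omega
      nointer := by
        rintro x y z hxy hxz ⟨p, q, r, o, hs, -, -⟩
        exact (lr_nosquare hΛ hs).elim }
  obtain ⟨S0, hS0⟩ := hH
  let S : Set G := insert 1 (S0 : Set G)
  have hSfin : S.Finite := S0.finite_toSet.insert 1
  have hS : Subgroup.closure S = H := by
    rw [← hS0]
    apply le_antisymm
    · rw [Subgroup.closure_le]
      intro s hs
      rcases hs with rfl | hs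
      · exact Subgroup.one_mem _
      · exact Subgroup.subset_closure hs
    · exact Subgroup.closure_mono (Set.subset_insert _ _)
  have h1S : (1 : G) ∈ S := Set.mem_insert _ _
  have horb := lr_orbit hΛ H S hS h1S v0
  have hstar : ∀ x ∈ lrC Λ H S v0, ∀ z, H97R3.VR.Btw Λ v0 x z → z ∈ lrC Λ H S v0 := by
    rintro x ⟨h, hh, s, hs, hx⟩ z hz
    rcases lr_cover hΛ (h • v0) hz with h1 | h1
    · exact horb h hh z (lr_btw_symm h1)
    · exact ⟨h, hh, s, hs, lr_btw_trans hΛ hx h1⟩
  have hconv : H97R3.VR.IsConvex Λ (lrC Λ H S v0) := by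
    intro x hx y hy z hz
    rcases lr_cover hΛ v0 hz with h1 | h1
    · exact hstar x hx z h1
    · exact hstar y hy z h1
  have hinv : ∀ h ∈ H, ∀ x ∈ lrC Λ H S v0, h • x ∈ lrC Λ H S v0 := by
    rintro h hh x ⟨h', hh', s, hs, hx⟩
    refine ⟨h * h', H.mul_mem hh hh', s, hs, ?_⟩
    have := lr_btw hΛ hadj h hx
    rw [smul_smul, smul_smul, ← mul_assoc] at this
    exact this
  have D : H97R3.VR.Dat Λ N H (lrC Λ H S v0) := ⟨lr_isMedian hΛ, hadj, hsp, hconv, hinv⟩
  refine H97R3.VR.main' D ⟨v0, 1, H.one_mem, 1, h1S, ?_⟩ (⋃ s ∈ S, {m | H97R3.VR.Btw Λ v0 (s • v0) m}) ?_ ?_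
  · unfold H97R3.VR.Btw
    simp
  · exact hSfin.biUnion fun s _ => lr_interval_finite hΛ _ _
  · rintro x ⟨h, hh, s, hs, hx⟩
    refine ⟨h⁻¹, H.inv_mem hh, Set.mem_biUnion hs ?_⟩
    have := lr_btw hΛ hadj h⁻¹ hx
    rw [inv_smul_smul, smul_smul, inv_mul_cancel_left] at this
    exact this


end Pool.Agent.Helper485_VF
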