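import Mathlib
import Pool.Agent.Helper485_VF.Defs
import Pool.Agent.Helper485_VF.CayTree
import Pool.Agent.Helper485_VF.LrTree
import Pool.Agent.H97R3.VR.Main

set_option autoImplicit false

namespace Pool.Agent.Helper485_VF
open Pool.Agent.H97R3.VR (IsVirtualRetract)


/-! TARGET.
letI := wact Q X; apply lr_tree to cay X, F := kernel of SemidirectProduct.rightHom (finite index because Q is finite). Adjacency is preserved: pact q (u * of x) = pact q u * of (q • x). If f ∈ F fixes u then f.right = 1, f.left * u = u, so f = 1.
-/

theorem lr_WW {Q X : Type} [Group Q] [Finite Q] [MulAction Q X] (H : Subgroup (WW Q X))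
    (hH : H.FG) : IsVirtualRetract H := by
  letI := wact Q X
  have hsmul : ∀ (w : WW Q X) (u : FreeGroup X), w • u = w.left * pact Q X w.right u :=
    fun _ _ => rfl
  have hfi : (SemidirectProduct.rightHom : WW Q X →* Q).ker.FiniteIndex := by
    have : Finite (SemidirectProduct.rightHom : WW Q X →* Q).range := inferInstance
    exact Subgroup.finiteIndex_ker _
  refine lr_tree (cay X) (cay_tree X) ?_ (SemidirectProduct.rightHom : WW Q X →* Q).ker ?_ H hH
  · have key : ∀ (g : WW Q X) (a : FreeGroup X) (x : X), g • (a * FreeGroup.of x) =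
        g • a * FreeGroup.of (g.right • x) := by
      intro g a x
      rw [hsmul, hsmul, map_mul, pact_of, mul_assoc]
    intro g u v h
    obtain ⟨x, h⟩ := h
    rcases h with rfl | rfl
    · exact ⟨g.right • x, Or.inl (key g u x)⟩
    · exact ⟨g.right • x, Or.inr (key g v x)⟩
  · intro f hf v hv
    have h1 : f.right = 1 := hf
    rw [hsmul, h1, map_one] at hv
    have h2 : f.left * v = v := hv
    have h3 : f.left = 1 := by
      rwa [mul_eq_right] at h2
    exact SemidirectProduct.ext h3 h1

end Pool.Agent.Helper485_VF
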