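import Mathlib
import Pool.Agent.Helper485_VF.Defs
import Pool.Agent.Helper485_VF.Closing
import Pool.Agent.Helper485_VF.Embed
import Pool.Agent.Helper485_VF.ExtendFun
import Pool.Agent.Helper485_VF.LrWW

set_option autoImplicit false

/-!
# Property (LR) for virtually free groups of arbitrary rank
-/

namespace Pool.Agent.Helper485_VF

section steps

variable {G Q X B : Type} [Group G] [Group Q] [Finite Q] [MulAction Q X] (π : G →* Q)
  (b : B → G) (H : Subgroup G)

theorem AA_iUnion {κ : Type} (S : κ → Set B) : AA b (⋃ i, S i) = ⨆ i, AA b (S i) := by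
  unfold AA
  rw [Set.image_iUnion, Subgroup.closure_iUnion]

theorem dom_mono {R R' : Subgroup (G × WW Q X)} (h : R ≤ R') : dom R ≤ dom R' :=
  Subgroup.map_mono h

theorem Fun.iSup {κ : Type} [Nonempty κ] {R : κ → Subgroup (G × WW Q X)}
    (hR : Directed (· ≤ ·) R) (hF : ∀ i, Fun π (R i)) : Fun π (⨆ i, R i) := by
  constructor
  · intro w hw
    obtain ⟨i, hi⟩ := (Subgroup.mem_iSup_of_directed hR).1 hw
    exact (hF i).1 w hi
  · intro p hp
    obtain ⟨i, hi⟩ := (Subgroup.mem_iSup_of_directed hR).1 hp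
    exact (hF i).2 p hi

theorem dom_iSup {κ : Type} (R : κ → Subgroup (G × WW Q X)) : dom (⨆ i, R i) = ⨆ i, dom (R i) := by
  unfold dom
  rw [Subgroup.map_iSup]

theorem step (hb : Function.Injective (FreeGroup.lift b))
    (hF : Subgroup.closure (Set.range b) = π.ker) (hsup : H ⊔ π.ker = ⊤) {S B' : Set B}
    (h : H ⊓ π.ker ≤ AA b S) (hn : ANorm b H B') (hBS : B' ⊆ S) (hfin : (S \ B').Finite)
    (R : Subgroup (G × WW Q X)) (hR : Fun π R) (hd : dom R = H ⊔ MM b H S) :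
    ∃ (S' : Set B) (R' : Subgroup (G × WW Q X)), S ⊆ S' ∧ (S' \ B').Finite ∧
      AA b S ≤ MM b H S' ∧ R ≤ R' ∧ Fun π R' ∧ dom R' = H ⊔ MM b H S' := by
  obtain ⟨S', h1, h2, h3⟩ := exists_next b H π hF h hn hBS hfin
  have hBS' : B' ⊆ S' := hBS.trans h1
  have h' : H ⊓ π.ker ≤ AA b S' := h.trans (AA_mono b h1)
  have hMM : MM b H S ≤ MM b H S' := (MM_le b H S).trans h3
  have e0 : (H ⊔ MM b H S) ⊓ π.ker = MM b H S :=
    sup_inf_norm H _ π.ker (fun k hk m hm => MM_norm b H hk hm)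
      ((MM_le b H S).trans (AA_le b hF S)) (inf_le_MM b H h)
  have e1 : (H ⊔ MM b H S') ⊓ π.ker = MM b H S' :=
    sup_inf_norm H _ π.ker (fun k hk m hm => MM_norm b H hk hm)
      ((MM_le b H S').trans (AA_le b hF S')) (inf_le_MM b H h')
  obtain ⟨Ψ, hΨ, hgen⟩ := MM_fg b H π hb hF h' hn hBS' h2
  obtain ⟨R', h4, h5, h6⟩ := extend_fun π (H ⊔ MM b H S) (H ⊔ MM b H S')
    (sup_le_sup_left hMM H) (by
      refine le_trans le_top ?_
      rw [← hsup]
      exact sup_le_sup_right le_sup_left _) (by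
      rw [e0, e1]
      have h7 := ffac_inter _ _ (MM b H S') (ffac_MM b H π hb hF h)
        ((MM_le b H S').trans (AA_le b hF S'))
      rwa [inf_eq_left.2 hMM] at h7) Ψ hΨ (by
      apply le_antisymm
      · refine sup_le (le_sup_left.trans le_sup_left) ?_
        rw [hgen]
        refine sup_le ?_ le_sup_right
        exact (hn.le_MM b H hBS).trans (le_sup_right.trans le_sup_left)
      · refine sup_le (sup_le_sup_left hMM H) ?_
        refine le_trans ?_ le_sup_right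
        rw [hgen]
        exact le_sup_right) R hR hd
  exact ⟨S', R', h1, h2, h3, h4, h5, h6⟩

theorem succ (hb : Function.Injective (FreeGroup.lift b))
    (hF : Subgroup.closure (Set.range b) = π.ker) (hsup : H ⊔ π.ker = ⊤) {S B' : Set B}
    (h : H ⊓ π.ker ≤ AA b S) (hn : ANorm b H B') (hBS : B' ⊆ S) (hfin : (S \ B').Finite)
    (R : Subgroup (G × WW Q X)) (hR : Fun π R) (hd : dom R = H ⊔ MM b H S) :
    ∃ (S' : Set B) (R' : Subgroup (G × WW Q X)), S ⊆ S' ∧ ANorm b H S' ∧ R ≤ R' ∧ Fun π R' ∧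
      dom R' = H ⊔ AA b S' := by
  classical
  let St : Type := {p : Set B × Subgroup (G × WW Q X) // H ⊓ π.ker ≤ AA b p.1 ∧ B' ⊆ p.1 ∧
    (p.1 \ B').Finite ∧ Fun π p.2 ∧ dom p.2 = H ⊔ MM b H p.1}
  have hnext : ∀ p : St, ∃ p' : St, p.1.1 ⊆ p'.1.1 ∧ AA b p.1.1 ≤ MM b H p'.1.1 ∧
      p.1.2 ≤ p'.1.2 := by
    rintro ⟨⟨S, R⟩, h, hBS, hfin, hR, hd⟩
    obtain ⟨S', R', h1, h2, h3, h4, h5, h6⟩ := step π b H hb hF hsup h hn hBS hfin R hR hd
    exact ⟨⟨(S', R'), h.trans (AA_mono b h1), hBS.trans h1, h2, h5, h6⟩, h1, h3, h4⟩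
  choose nx nx1 nx2 nx3 using hnext
  let p0 : St := ⟨(S, R), h, hBS, hfin, hR, hd⟩
  let sq : ℕ → St := fun n => nx^[n] p0
  have hs : ∀ n, sq (n + 1) = nx (sq n) := fun n => Function.iterate_succ_apply' nx n p0
  have m1 : Monotone fun n => (sq n).1.1 := monotone_nat_of_le_succ fun n => by
    show (sq n).1.1 ⊆ (sq (n + 1)).1.1
    rw [hs]; exact nx1 _
  have m2 : Monotone fun n => (sq n).1.2 := monotone_nat_of_le_succ fun n => by
    rw [hs]; exact nx3 _
  have m3 : ∀ n, AA b (sq n).1.1 ≤ MM b H (sq (n + 1)).1.1 := fun n => by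
    rw [hs]; exact nx2 _
  refine ⟨⋃ n, (sq n).1.1, ⨆ n, (sq n).1.2, ?_, ?_, ?_, ?_, ?_⟩
  · exact Set.subset_iUnion (fun n => (sq n).1.1) 0
  · intro k hk x hx
    have h3 : AA b (⋃ n, (sq n).1.1) ≤
        (AA b (⋃ n, (sq n).1.1)).comap (MulAut.conj k).toMonoidHom := by
      conv_lhs => unfold AA
      rw [Subgroup.closure_le]
      rintro _ ⟨s, hs, rfl⟩
      obtain ⟨n, hn⟩ := Set.mem_iUnion.1 hs
      have h1 : b s ∈ MM b H (sq (n + 1)).1.1 := m3 n (Subgroup.subset_closure ⟨s, hn, rfl⟩)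
      have h2 := MM_le b H _ (MM_norm b H hk h1)
      exact AA_mono b (Set.subset_iUnion (fun n => (sq n).1.1) (n + 1)) h2
    exact h3 hx
  · exact le_iSup (fun n => (sq n).1.2) 0
  · exact Fun.iSup π m2.directed_le fun n => (sq n).2.2.2.2.1
  · rw [dom_iSup]
    apply le_antisymm
    · refine iSup_le fun n => ?_
      rw [(sq n).2.2.2.2.2]
      refine sup_le_sup_left ?_ H
      exact (MM_le b H _).trans (AA_mono b (Set.subset_iUnion (fun n => (sq n).1.1) n))
    · refine sup_le ?_ ?_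
      · refine le_trans ?_ (le_iSup (fun n => dom (sq n).1.2) 0)
        show H ≤ dom (sq 0).1.2
        rw [(sq 0).2.2.2.2.2]
        exact le_sup_left
      · rw [AA_iUnion]
        refine iSup_le fun n => ?_
        refine le_trans ?_ (le_iSup (fun n => dom (sq n).1.2) (n + 1))
        show _ ≤ dom (sq (n + 1)).1.2
        rw [(sq (n + 1)).2.2.2.2.2]
        exact (m3 n).trans le_sup_right

theorem zorn_step (hb : Function.Injective (FreeGroup.lift b))
    (hF : Subgroup.closure (Set.range b) = π.ker) (hsup : H ⊔ π.ker = ⊤) {B' : Set B}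
    (h : H ⊓ π.ker ≤ AA b B') (hn : ANorm b H B')
    (R : Subgroup (G × WW Q X)) (hR : Fun π R) (hd : dom R = H ⊔ AA b B') (s : B) :
    ∃ (S' : Set B) (R' : Subgroup (G × WW Q X)), B' ⊆ S' ∧ s ∈ S' ∧ ANorm b H S' ∧ R ≤ R' ∧
      Fun π R' ∧ dom R' = H ⊔ AA b S' := by
  have hBS : B' ⊆ B' ∪ {s} := Set.subset_union_left
  have hfin : ((B' ∪ {s}) \ B').Finite := by
    refine (Set.finite_singleton s).subset ?_
    rintro x ⟨hx | hx, hx'⟩
    · exact absurd hx hx'
    · exact hx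
  have h' : H ⊓ π.ker ≤ AA b (B' ∪ {s}) := h.trans (AA_mono b hBS)
  have hMM : AA b B' ≤ MM b H (B' ∪ {s}) := hn.le_MM b H hBS
  have e0 : (H ⊔ AA b B') ⊓ π.ker = AA b B' :=
    sup_inf_norm H _ π.ker (fun k hk m hm => hn k hk m hm) (AA_le b hF _) h
  have e1 : (H ⊔ MM b H (B' ∪ {s})) ⊓ π.ker = MM b H (B' ∪ {s}) :=
    sup_inf_norm H _ π.ker (fun k hk m hm => MM_norm b H hk hm)
      ((MM_le b H _).trans (AA_le b hF _)) (inf_le_MM b H h')
  obtain ⟨Ψ, hΨ, hgen⟩ := MM_fg b H π hb hF h' hn hBS hfin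
  obtain ⟨R1, h4, h5, h6⟩ := extend_fun π (H ⊔ AA b B') (H ⊔ MM b H (B' ∪ {s}))
    (sup_le_sup_left hMM H) (by
      refine le_trans le_top ?_
      rw [← hsup]
      exact sup_le_sup_right le_sup_left _) (by
      rw [e0, e1]
      have h7 := ffac_inter _ _ (MM b H (B' ∪ {s})) (ffac_AA b hb hF B')
        ((MM_le b H _).trans (AA_le b hF _))
      rwa [inf_eq_left.2 hMM] at h7) Ψ hΨ (by
      apply le_antisymm
      · refine sup_le (le_sup_left.trans le_sup_left) ?_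
        conv_lhs => rw [hgen]
        refine sup_le ?_ le_sup_right
        exact le_sup_right.trans le_sup_left
      · refine sup_le (sup_le_sup_left hMM H) ?_
        refine le_trans ?_ le_sup_right
        rw [hgen]
        exact le_sup_right) R hR hd
  obtain ⟨S', R', g1, g2, g3, g4, g5⟩ := succ π b H hb hF hsup h' hn hBS hfin R1 h5 h6
  exact ⟨S', R', hBS.trans g1, g1 (Or.inr rfl), g2, h4.trans g3, g4, g5⟩

theorem zorn (hb : Function.Injective (FreeGroup.lift b))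
    (hF : Subgroup.closure (Set.range b) = π.ker) (hsup : H ⊔ π.ker = ⊤) {B' : Set B}
    (h : H ⊓ π.ker ≤ AA b B') (hn : ANorm b H B')
    (R : Subgroup (G × WW Q X)) (hR : Fun π R) (hd : dom R = H ⊔ AA b B') :
    ∃ R' : Subgroup (G × WW Q X), R ≤ R' ∧ Fun π R' ∧ dom R' = ⊤ := by
  classical
  let P : Set (Set B × Subgroup (G × WW Q X)) := {p | ANorm b H p.1 ∧ H ⊓ π.ker ≤ AA b p.1 ∧
    Fun π p.2 ∧ dom p.2 = H ⊔ AA b p.1}
  have hP : ((B', R) : Set B × Subgroup (G × WW Q X)) ∈ P := ⟨hn, h, hR, hd⟩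
  obtain ⟨⟨S, R1⟩, hle, hmax⟩ := zorn_le_nonempty₀ P (by
    intro c hc hchain y hy
    haveI : Nonempty c := ⟨⟨y, hy⟩⟩
    refine ⟨(⋃ p : c, p.1.1, ⨆ p : c, p.1.2), ⟨?_, ?_, ?_, ?_⟩, ?_⟩
    · exact ANorm.union b H fun p : c => (hc p.2).1
    · exact (hc hy).2.1.trans (AA_mono b (Set.subset_iUnion (fun p : c => p.1.1) ⟨y, hy⟩))
    · refine Fun.iSup π ?_ fun p : c => (hc p.2).2.2.1
      rintro ⟨p, hp⟩ ⟨q, hq⟩
      rcases hchain.total hp hq with hpq | hpq
      · exact ⟨⟨q, hq⟩, hpq.2, le_rfl⟩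
      · exact ⟨⟨p, hp⟩, le_rfl, hpq.2⟩
    · show dom (⨆ p : c, p.1.2) = H ⊔ AA b (⋃ p : c, p.1.1)
      rw [dom_iSup, AA_iUnion]
      apply le_antisymm
      · refine iSup_le fun p => ?_
        rw [(hc p.2).2.2.2]
        exact sup_le_sup_left (le_iSup (fun p : c => AA b p.1.1) p) H
      · refine sup_le ?_ (iSup_le fun p => ?_)
        · refine le_trans ?_ (le_iSup (fun p : c => dom p.1.2) ⟨y, hy⟩)
          show H ≤ dom y.2
          rw [(hc hy).2.2.2]
          exact le_sup_left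
        · refine le_trans ?_ (le_iSup (fun p : c => dom p.1.2) p)
          rw [(hc p.2).2.2.2]
          exact le_sup_right
    · intro z hz
      exact ⟨Set.subset_iUnion (fun p : c => p.1.1) ⟨z, hz⟩,
        le_iSup (fun p : c => p.1.2) ⟨z, hz⟩⟩) (B', R) hP
  have hS : S = Set.univ := by
    rw [Set.eq_univ_iff_forall]
    intro s
    obtain ⟨h1, h2, h3, h4⟩ := hmax.prop
    obtain ⟨S', R', g1, g2, g3, g4, g5, g6⟩ := zorn_step π b H hb hF hsup h2 h1 R1 h3 h4 s
    have g7 : ((S', R') : Set B × Subgroup (G × WW Q X)) ∈ P :=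
      ⟨g3, h2.trans (AA_mono b g1), g5, g6⟩
    have g8 := hmax.le_of_ge g7 ⟨g1, g4⟩
    exact g8.1 g2
  refine ⟨R1, hle.2, hmax.prop.2.2.1, ?_⟩
  have h5 : dom R1 = H ⊔ AA b S := hmax.prop.2.2.2
  rw [h5, hS]
  unfold AA
  rw [Set.image_univ, hF, hsup]

/-- a total graph is a homomorphism -/
theorem hom_of_graph (R : Subgroup (G × WW Q X)) (hR : Fun π R) (hd : dom R = ⊤) :
    ∃ θ : G →* WW Q X, (∀ g w, (g, w) ∈ R → θ g = w) ∧ ∀ g, (θ g).right = π g := by
  have h1 : ∀ g : G, ∃ w : WW Q X, (g, w) ∈ R := by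
    intro g
    have : g ∈ dom R := by rw [hd]; exact Subgroup.mem_top g
    obtain ⟨⟨g', w⟩, hw, hg⟩ := this
    have hg' : g' = g := hg
    exact ⟨w, hg' ▸ hw⟩
  have h2 : ∀ (g : G) (w w' : WW Q X), (g, w) ∈ R → (g, w') ∈ R → w = w' := by
    intro g w w' hw hw'
    have h3 : ((1 : G), w * w'⁻¹) ∈ R := by
      have := R.mul_mem hw (R.inv_mem hw')
      simpa using this
    exact mul_inv_eq_one.1 (hR.1 _ h3)
  choose f hf using h1
  refine ⟨MonoidHom.mk' f fun a c => ?_, fun g w hw => h2 g _ _ (hf g) hw, fun g => hR.2 _ (hf g)⟩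
  exact h2 (a * c) _ _ (hf (a * c)) (R.mul_mem (hf a) (hf c))

end steps

theorem fg_map {G G' : Type} [Group G] [Group G'] (f : G →* G') {H : Subgroup G} (hH : H.FG) :
    (H.map f).FG := by
  rw [Subgroup.fg_iff_submonoid_fg] at hH ⊢
  exact hH.map f

theorem exists_hom {G Q : Type} [Group G] [Group Q] [Finite Q] (π : G →* Q)
    (hπ : Function.Surjective π) (hfree : IsFreeGroup π.ker) (H : Subgroup G) (hH : H.FG)
    (hsup : H ⊔ π.ker = ⊤) : ∃ (X : Type) (_ : MulAction Q X) (θ : G →* WW Q X),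
      (∀ h ∈ H, θ h = 1 → h = 1) ∧ ∀ g, (θ g).right = π g := by
  classical
  -- a basis of the kernel
  obtain ⟨B, b, hb, hF⟩ : ∃ (B : Type) (b : B → G), Function.Injective (FreeGroup.lift b) ∧
      Subgroup.closure (Set.range b) = π.ker := by
    let e := IsFreeGroup.toFreeGroup π.ker
    refine ⟨IsFreeGroup.Generators π.ker, fun i => ((e.symm (FreeGroup.of i) : π.ker) : G), ?_, ?_⟩
    · have : FreeGroup.lift (fun i => ((e.symm (FreeGroup.of i) : π.ker) : G)) =
          π.ker.subtype.comp e.symm.toMonoidHom := by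
        ext i; simp
      rw [this]
      exact (Subtype.val_injective).comp e.symm.injective
    · have h1 : FreeGroup.lift (fun i => ((e.symm (FreeGroup.of i) : π.ker) : G)) =
          π.ker.subtype.comp e.symm.toMonoidHom := by
        ext i; simp
      rw [← FreeGroup.range_lift_eq_closure, h1, MonoidHom.range_comp,
        MonoidHom.range_eq_top.2 e.symm.surjective, ← MonoidHom.range_eq_map,
        Subgroup.range_subtype]
  -- finite support of H ∩ ker
  have hHF : (H ⊓ π.ker).FG := by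
    haveI : Group.FG H := (Group.fg_iff_subgroup_fg H).2 hH
    haveI : π.ker.FiniteIndex := by
      infer_instance
    have h1 : (π.ker.subgroupOf H).FG := by
      rw [← Group.fg_iff_subgroup_fg]
      exact Subgroup.fg_of_index_ne_zero _
    have h2 := fg_map H.subtype h1
    rwa [Subgroup.subgroupOf_map_subtype, inf_comm] at h2
  obtain ⟨S0, hS0, hS0'⟩ := exists_finite_support' b hF (H ⊓ π.ker) inf_le_right hHF
  have hn0 : ANorm b H (∅ : Set B) := by
    intro h _ x hx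
    unfold AA at hx ⊢
    rw [Set.image_empty, Subgroup.closure_empty, Subgroup.mem_bot] at hx ⊢
    rw [hx]; group
  have hfin0 : (S0 \ ∅).Finite := by simpa using hS0
  -- the first subgroup
  obtain ⟨Ψ, hΨ, hgen⟩ := MM_fg b H π hb hF hS0' hn0 (Set.empty_subset _) hfin0
  have hG0 : (H ⊔ MM b H S0).FG := by
    refine hH.sup ?_
    rw [hgen]
    unfold AA
    rw [Set.image_empty, Subgroup.closure_empty, bot_sup_eq]
    exact ⟨hΨ.toFinset, by simp⟩
  set G0 : Subgroup G := H ⊔ MM b H S0 with hG0def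
  have hsurj : Function.Surjective (π.comp G0.subtype) := by
    intro q
    obtain ⟨g, rfl⟩ := hπ q
    have hg : g ∈ H ⊔ π.ker := by rw [hsup]; exact Subgroup.mem_top g
    obtain ⟨h, hh, m, hm, rfl⟩ := mem_sup_norm H π.ker
      (fun h _ m hm => (inferInstance : π.ker.Normal).conj_mem m hm h) hg
    refine ⟨⟨h, (le_sup_left : H ≤ G0) hh⟩, ?_⟩
    show π h = π (h * m)
    rw [map_mul, (MonoidHom.mem_ker).1 hm, mul_one]
  have hfree0 : IsFreeGroup (π.comp G0.subtype).ker := by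
    let f : (π.comp G0.subtype).ker →* π.ker :=
      { toFun := fun x => ⟨((x : G0) : G), x.2⟩
        map_one' := rfl
        map_mul' := fun _ _ => rfl }
    have hf : Function.Injective f := by
      intro x y hxy
      have : ((x : G0) : G) = ((y : G0) : G) := congrArg (fun z : π.ker => (z : G)) hxy
      exact Subtype.ext (Subtype.ext this)
    haveI := hfree
    exact IsFreeGroup.ofMulEquiv (MonoidHom.ofInjective hf).symm
  obtain ⟨X, aX, θ0, hθ0, hθ0'⟩ := embed (π.comp G0.subtype) hsurj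
    ((Group.fg_iff_subgroup_fg G0).2 hG0) hfree0
  refine ⟨X, aX, ?_⟩
  -- its graph
  let R0 : Subgroup (G × WW Q X) := (G0.subtype.prod θ0).range
  have hR0 : Fun π R0 := by
    constructor
    · rintro w ⟨g, hg⟩
      have h1 : (g : G) = 1 := congrArg Prod.fst hg
      have h2 : θ0 g = w := congrArg Prod.snd hg
      have h3 : g = 1 := Subtype.ext h1
      rw [← h2, h3, map_one]
    · rintro p ⟨g, rfl⟩
      exact hθ0' g
  have hd0 : dom R0 = H ⊔ MM b H S0 := by
    unfold dom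
    show (G0.subtype.prod θ0).range.map (MonoidHom.fst G (WW Q X)) = _
    rw [← MonoidHom.range_comp, MonoidHom.fst_comp_prod, Subgroup.range_subtype]
  obtain ⟨S1, R1, h1, h2, h3, h4, h5⟩ := succ π b H hb hF hsup hS0' hn0 (Set.empty_subset _)
    hfin0 R0 hR0 hd0
  obtain ⟨R2, h6, h7, h8⟩ := zorn π b H hb hF hsup (hS0'.trans (AA_mono b h1)) h2 R1 h4 h5
  obtain ⟨θ, h9, h10⟩ := hom_of_graph π R2 h7 h8
  refine ⟨θ, ?_, h10⟩
  intro h hh hθ
  have h11 : (h, θ0 ⟨h, (le_sup_left : H ≤ G0) hh⟩) ∈ R2 :=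
    h6 (h3 ⟨⟨h, (le_sup_left : H ≤ G0) hh⟩, rfl⟩)
  have h12 := h9 _ _ h11
  rw [hθ] at h12
  have h13 : (⟨h, (le_sup_left : H ≤ G0) hh⟩ : G0) = 1 := hθ0 (by rw [← h12, map_one])
  exact congrArg (fun z : G0 => (z : G)) h13

/-- virtual retractions, in the form of the frozen statement -/
def VRet {G : Type} [Group G] (H : Subgroup G) : Prop :=
  ∃ K : Subgroup G, K.FiniteIndex ∧ H ≤ K ∧ ∃ ρ : K →* G, (∀ k : K, ρ k ∈ H) ∧
    ∀ h : G, ∀ hk : h ∈ K, h ∈ H → ρ ⟨h, hk⟩ = h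

theorem vret_of_hom {G W : Type} [Group G] [Group W] (θ : G →* W) (H : Subgroup G)
    (hinj : ∀ h ∈ H, θ h = 1 → h = 1)
    (hW : Pool.Agent.H97R3.VR.IsVirtualRetract (H.map θ)) : VRet H := by
  obtain ⟨K1, hK1, hHK, ρ1, hρ1⟩ := hW
  have hbij : Function.Bijective (θ.subgroupMap H) := by
    constructor
    · rw [injective_iff_map_eq_one]
      rintro ⟨h, hh⟩ he
      have : θ h = 1 := congrArg Subtype.val he
      exact Subtype.ext (hinj h hh this)
    · exact θ.subgroupMap_surjective H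
  let e : H ≃* H.map θ := MulEquiv.ofBijective (θ.subgroupMap H) hbij
  let i : K1.comap θ →* K1 := (θ.subgroupComap K1)
  refine ⟨K1.comap θ, ?_, ?_, H.subtype.comp (e.symm.toMonoidHom.comp (ρ1.comp i)), ?_, ?_⟩
  · constructor
    rw [Subgroup.index_comap]
    haveI := hK1
    exact (inferInstance : (K1.subgroupOf θ.range).FiniteIndex).index_ne_zero
  · exact Subgroup.map_le_iff_le_comap.1 hHK
  · intro k
    exact (e.symm (ρ1 (i k))).2
  · intro h hk hh
    show ((e.symm (ρ1 (i ⟨h, hk⟩)) : H) : G) = h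
    have h1 : i ⟨h, hk⟩ = ⟨θ h, hHK ⟨h, hh, rfl⟩⟩ := rfl
    have h2 : ρ1 (i ⟨h, hk⟩) = ⟨θ h, ⟨h, hh, rfl⟩⟩ := by
      rw [h1]
      exact hρ1 ⟨θ h, ⟨h, hh, rfl⟩⟩
    have h3 : e ⟨h, hh⟩ = ⟨θ h, ⟨h, hh, rfl⟩⟩ := rfl
    rw [h2, ← h3, MulEquiv.symm_apply_apply]

theorem vret_of_surj {G Q : Type} [Group G] [Group Q] [Finite Q] (π : G →* Q)
    (hπ : Function.Surjective π) (hfree : IsFreeGroup π.ker) (H : Subgroup G) (hH : H.FG)
    (hsup : H ⊔ π.ker = ⊤) : VRet H := by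
  obtain ⟨X, aX, θ, h1, -⟩ := exists_hom π hπ hfree H hH hsup
  exact vret_of_hom θ H h1 (lr_WW _ (fg_map θ hH))

theorem vret_of_subgroup {G : Type} [Group G] (G' : Subgroup G) (hG' : G'.FiniteIndex)
    (H : Subgroup G) (hHG : H ≤ G') (h : VRet (H.subgroupOf G')) : VRet H := by
  obtain ⟨K, hK, hHK, ρ, h1, h2⟩ := h
  let e : K ≃* K.map G'.subtype := K.equivMapOfInjective G'.subtype G'.subtype_injective
  refine ⟨K.map G'.subtype, ?_, ?_, G'.subtype.comp (ρ.comp e.symm.toMonoidHom), ?_, ?_⟩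
  · constructor
    rw [Subgroup.index_map_subtype]
    exact mul_ne_zero hK.index_ne_zero hG'.index_ne_zero
  · intro h hh
    exact ⟨⟨h, hHG hh⟩, hHK hh, rfl⟩
  · intro k
    exact h1 (e.symm k)
  · intro h hk hh
    have h3 : (⟨h, hHG hh⟩ : G') ∈ K := hHK hh
    have h4 : e ⟨⟨h, hHG hh⟩, h3⟩ = ⟨h, hk⟩ := rfl
    show ((ρ (e.symm ⟨h, hk⟩) : G') : G) = h
    rw [← h4, MulEquiv.symm_apply_apply]
    exact congrArg Subtype.val (h2 ⟨h, hHG hh⟩ h3 hh)

theorem main (G : Type) [Group G] (hG : ∃ F : Subgroup G, F.FiniteIndex ∧ IsFreeGroup F)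
    (H : Subgroup G) (hH : H.FG) : VRet H := by
  obtain ⟨F0, hF0, hfree0⟩ := hG
  let F : Subgroup G := F0.normalCore
  haveI : F.FiniteIndex := Subgroup.finiteIndex_normalCore F0
  have hfree : IsFreeGroup F := by
    haveI := hfree0
    exact IsFreeGroup.ofMulEquiv (Subgroup.subgroupOfEquivOfLe F0.normalCore_le)
  let G' : Subgroup G := H ⊔ F
  have hFG : F ≤ G' := le_sup_right
  have hHG : H ≤ G' := le_sup_left
  have hG' : G'.FiniteIndex := Subgroup.finiteIndex_of_le hFG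
  apply vret_of_subgroup G' hG' H hHG
  let π0 : G' →* G ⧸ F := (QuotientGroup.mk' F).comp G'.subtype
  let π : G' →* π0.range := π0.rangeRestrict
  have hker : π.ker = F.subgroupOf G' := by
    ext x
    rw [MonoidHom.ker_rangeRestrict, MonoidHom.mem_ker, Subgroup.mem_subgroupOf]
    exact QuotientGroup.eq_one_iff (x : G)
  refine vret_of_surj π π0.rangeRestrict_surjective ?_ _ ?_ ?_
  · rw [hker]
    haveI := hfree
    exact IsFreeGroup.ofMulEquiv (Subgroup.subgroupOfEquivOfLe hFG).symm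
  · rw [← Group.fg_iff_subgroup_fg] at hH ⊢
    exact Group.fg_of_surjective (f := (Subgroup.subgroupOfEquivOfLe hHG).symm.toMonoidHom)
      (Subgroup.subgroupOfEquivOfLe hHG).symm.surjective
  · rw [hker, ← Subgroup.subgroupOf_sup hHG hFG, Subgroup.subgroupOf_self]

end Pool.Agent.Helper485_VF
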